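import Pool.Agent.WNV.ODB

/-!
PSH. Push forward of forms of `K` to forms of `F`: `θ_1 ∧ … ∧ θ_c ↦ θ_1 ∧ … ∧ θ_c ∧ τ_1 ∧ … ∧ τ_r`.

PROOF. `map : Ω[K/ℂ] → Ω[F/ℂ]` is `KaehlerDifferential.map ℂ ℂ K F` (`K`-linear, sends `D a` to
`D (algebraMap a)`). The `K`-alternating map `θ ↦ ιMulti F (c + r) (Fin.append (map ∘ θ) τ)`
(`AlternatingMap.mk`: additivity and homogeneity in a slot `j < c` by
`Fin.append (Function.update θ j x) τ = Function.update (Fin.append θ τ) (Fin.castAdd r j) x`,
and it vanishes when two slots agree) gives by `exteriorPower.alternatingMapLinearEquiv` a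
`K`-linear map `⋀^c Ω[K/ℂ] → ⋀^(c+r) Ω[F/ℂ]` (the target is a `K`-module by restriction of
scalars: `Module.compHom` / it may be simpler to take the instance
`Module K (⋀[F]^(c+r) Ω[F/ℂ])` from `Submodule`/`IsScalarTower K F _`; any construction with the
two properties below is fine).
-/

set_option linter.unusedSectionVars false

namespace WNV

open exteriorPower

variable {K F : Type} [Field K] [Algebra ℂ K] [Field F] [Algebra ℂ F]
    [Algebra K F] [IsScalarTower ℂ K F]

theorem exists_push {c r : ℕ} (τ : Fin r → KaehlerDifferential ℂ F) :
    ∃ Φ : (⋀[K]^c (KaehlerDifferential ℂ K)) →+ (⋀[F]^(c + r) (KaehlerDifferential ℂ F)),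
      ∀ (f : K) (x : Fin c → K),
        Φ (f • ιMulti K c (fun i => KaehlerDifferential.D ℂ K (x i))) =
          algebraMap K F f • ιMulti F (c + r)
            (Fin.append (fun i => KaehlerDifferential.D ℂ F (algebraMap K F (x i))) τ) := by
  classical
  letI : Module K (⋀[F]^(c + r) (KaehlerDifferential ℂ F)) := Module.compHom _ (algebraMap K F)
  let g : KaehlerDifferential ℂ K →ₗ[K] KaehlerDifferential ℂ F := KaehlerDifferential.map ℂ ℂ K F
  have hsm : ∀ (k : K) (x : KaehlerDifferential ℂ K), g (k • x) = algebraMap K F k • g x := by
    intro k x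
    rw [map_smul, algebraMap_smul]
  have hupd : ∀ [DecidableEq (Fin c)] (θ : Fin c → KaehlerDifferential ℂ K) (i : Fin c)
      (x : KaehlerDifferential ℂ K),
      Fin.append (fun j => g (Function.update θ i x j)) τ
        = Function.update (Fin.append (fun j => g (θ j)) τ) (Fin.castAdd r i) (g x) := by
    intro _ θ i x
    funext j
    refine Fin.addCases (fun j => ?_) (fun j => ?_) j
    · rw [Fin.append_left]
      by_cases hj : j = i
      · subst hj
        rw [Function.update_self, Function.update_self]
      · rw [Function.update_of_ne hj, Function.update_of_ne, Fin.append_left]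
        intro h
        exact hj (Fin.castAdd_injective c r h)
    · rw [Fin.append_right, Function.update_of_ne, Fin.append_right]
      intro h
      have := congrArg Fin.val h
      simp only [Fin.val_natAdd, Fin.val_castAdd] at this
      omega
  let A : AlternatingMap K (KaehlerDifferential ℂ K)
      (⋀[F]^(c + r) (KaehlerDifferential ℂ F)) (Fin c) :=
    { toFun := fun θ => ιMulti F (c + r) (Fin.append (fun j => g (θ j)) τ)
      map_update_add' := by
        intro _ θ i x y
        change ιMulti F (c + r) (Fin.append (fun j => g (Function.update θ i (x + y) j)) τ)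
          = ιMulti F (c + r) (Fin.append (fun j => g (Function.update θ i x j)) τ)
          + ιMulti F (c + r) (Fin.append (fun j => g (Function.update θ i y j)) τ)
        rw [hupd, hupd, hupd, map_add, AlternatingMap.map_update_add]
      map_update_smul' := by
        intro _ θ i k x
        change ιMulti F (c + r) (Fin.append (fun j => g (Function.update θ i (k • x) j)) τ)
          = algebraMap K F k •
            ιMulti F (c + r) (Fin.append (fun j => g (Function.update θ i x j)) τ)
        rw [hupd, hupd, hsm, AlternatingMap.map_update_smul]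
      map_eq_zero_of_eq' := by
        intro θ i j h hij
        change ιMulti F (c + r) (Fin.append (fun j => g (θ j)) τ) = 0
        refine (ιMulti F (c + r)).map_eq_zero_of_eq _
          (i := Fin.castAdd r i) (j := Fin.castAdd r j) ?_ ?_
        · rw [Fin.append_left, Fin.append_left, h]
        · intro h'
          exact hij (Fin.castAdd_injective c r h') }
  refine ⟨(alternatingMapLinearEquiv A).toAddMonoidHom, fun f x => ?_⟩
  have h1 : (alternatingMapLinearEquiv A) (f • ιMulti K c
      (fun i => KaehlerDifferential.D ℂ K (x i)))
      = f • A (fun i => KaehlerDifferential.D ℂ K (x i)) := by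
    rw [map_smul, alternatingMapLinearEquiv_apply_ιMulti]
  refine h1.trans ?_
  change algebraMap K F f • ιMulti F (c + r)
    (Fin.append (fun j => g (KaehlerDifferential.D ℂ K (x j))) τ) = _
  have h2 : ∀ a : K, g (KaehlerDifferential.D ℂ K a)
      = KaehlerDifferential.D ℂ F (algebraMap K F a) := fun a => KaehlerDifferential.map_D ℂ ℂ K F a
  simp only [h2]

end WNV
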