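import Pool.Agent.WNV.LOG

/-!
LOH. Sharper version of LOG: the order of `ω₀` along a valuation with ramification index `e` over
`w₀` is at least `e b + e - 1` if `ord_{w₀}(dy_1 ∧ … ∧ dy_c) ≥ b`.
-/

set_option linter.unusedSectionVars false

namespace WNV

variable {c r : ℕ} {K F : Type} [Field K] [Algebra ℂ K] [Field F] [Algebra ℂ F]
    [Algebra K F] [IsScalarTower ℂ K F]
    [Algebra (MvPolynomial (Fin r) K) F] [IsScalarTower K (MvPolynomial (Fin r) K) F]
    [IsFractionRing (MvPolynomial (Fin r) K) F]

open exteriorPower in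
private theorem loh_chain {c : ℕ} {F : Type} [Field F] [Algebra ℂ F] (X : Fin c → F)
    (P : MvPolynomial (Fin c) ℂ) :
    KaehlerDifferential.D ℂ F (MvPolynomial.aeval X P) =
      ∑ i, MvPolynomial.aeval X (MvPolynomial.pderiv i P) • KaehlerDifferential.D ℂ F (X i) := by
  classical
  induction P using MvPolynomial.induction_on with
  | C a =>
    rw [MvPolynomial.aeval_C, Derivation.map_algebraMap]
    simp
  | add p q hp hq =>
    rw [map_add, map_add, hp, hq, ← Finset.sum_add_distrib]
    refine Finset.sum_congr rfl fun i _ => ?_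
    rw [map_add, map_add, add_smul]
  | mul_X p i hp =>
    rw [map_mul, Derivation.leibniz, hp, MvPolynomial.aeval_X, Finset.smul_sum]
    have h1 : ∀ j, MvPolynomial.aeval X (MvPolynomial.pderiv j (p * MvPolynomial.X i)) •
        KaehlerDifferential.D ℂ F (X j) =
        (if i = j then MvPolynomial.aeval X p • KaehlerDifferential.D ℂ F (X j) else 0) +
        X i • MvPolynomial.aeval X (MvPolynomial.pderiv j p) • KaehlerDifferential.D ℂ F (X j) := by
      intro j
      rw [Derivation.leibniz, MvPolynomial.pderiv_X, map_add, smul_eq_mul, smul_eq_mul, map_mul,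
        map_mul, MvPolynomial.aeval_X, add_smul, smul_smul]
      congr 1
      by_cases h : i = j
      · subst h
        simp
      · rw [if_neg h, Pi.single_eq_of_ne h]
        simp
    simp only [h1]
    rw [Finset.sum_add_distrib, Finset.sum_ite_eq, if_pos (Finset.mem_univ _)]

open exteriorPower in
private theorem loh_update {c n : ℕ} {F : Type} [Field F] [Algebra ℂ F] (X : Fin c → F)
    (P : MvPolynomial (Fin c) ℂ) (θ : Fin n → KaehlerDifferential ℂ F) (s : Fin c → Fin n)
    (hs : Function.Injective s) (hθ : ∀ i, θ (s i) = KaehlerDifferential.D ℂ F (X i)) (j : Fin c) :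
    ιMulti F n (Function.update θ (s j) (KaehlerDifferential.D ℂ F (MvPolynomial.aeval X P))) =
      MvPolynomial.aeval X (MvPolynomial.pderiv j P) • ιMulti F n θ := by
  classical
  rw [loh_chain, AlternatingMap.map_update_sum, Finset.sum_eq_single j]
  · rw [AlternatingMap.map_update_smul, ← hθ j, Function.update_eq_self]
  · intro i _ hij
    rw [AlternatingMap.map_update_smul]
    rw [AlternatingMap.map_eq_zero_of_eq (ιMulti F n) _ (i := s j) (j := s i), smul_zero]
    · rw [Function.update_self, Function.update_of_ne (fun h => hij (hs h)), hθ i]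
    · exact fun h => hij (hs h).symm
  · intro h
    exact absurd (Finset.mem_univ j) h

open exteriorPower in
theorem ordGE_append_sharp (y : Fin c → K) (hy : IsTranscendenceBasis ℂ y) (E : DVal F) (w₀ : DVal K)
    (e : ℤ) (he : 0 < e) (hE : ∀ a : K, E (algebraMap K F a) = e * w₀ a) (x : Fin c → K)
    (hx : ∀ i, Ge w₀ 0 (x i)) :
    OrdGE E (ιMulti F (c + r)
      (Fin.append (fun i => KaehlerDifferential.D ℂ F (algebraMap K F (x i)))
        (fun j => (tt r K F j)⁻¹ • KaehlerDifferential.D ℂ F (tt r K F j)))) (e - 1) := by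
  obtain ⟨P, j, hP1, hP2, hP3⟩ := exists_relation y hy w₀ x hx
  set θ : Fin (c + r) → KaehlerDifferential ℂ F :=
    Fin.append (fun i => KaehlerDifferential.D ℂ F (algebraMap K F (x i)))
      (fun j => (tt r K F j)⁻¹ • KaehlerDifferential.D ℂ F (tt r K F j)) with hθ
  have hal : ∀ Q : MvPolynomial (Fin c) ℂ,
      MvPolynomial.aeval (fun i => algebraMap K F (x i)) Q =
        algebraMap K F (MvPolynomial.aeval x Q) := fun Q => by
    have := MvPolynomial.aeval_algebraMap_apply F x Q
    exact this
  have hup := loh_update (fun i => algebraMap K F (x i)) P θ (Fin.castAdd r)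
    (Fin.castAdd_injective c r) (fun i => by rw [hθ, Fin.append_left]) j
  have hGE : Ge E e (algebraMap K F (MvPolynomial.aeval x P)) := by
    rcases hP1 with h | h
    · left
      rw [h, map_zero]
    · right
      rw [hE]
      nlinarith
  have hdz := ordGE_dz (n := c + r) E
    (Function.update θ (Fin.castAdd r j)
      (KaehlerDifferential.D ℂ F (MvPolynomial.aeval (fun i => algebraMap K F (x i)) P)))
    (Fin.castAdd r j) (algebraMap K F (MvPolynomial.aeval x P)) e hGE
    (by rw [Function.update_self, hal]) (by
      intro k hk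
      rw [Function.update_of_ne hk]
      refine Fin.addCases (fun i => ?_) (fun i => ?_) k
      · left
        rw [hθ, Fin.append_left]
        refine regDiff_D (E := E.toQVal) ?_
        rcases hx i with h | h
        · left
          rw [h, map_zero]
        · right
          show 0 ≤ E (algebraMap K F (x i))
          rw [hE]
          positivity
      · right
        exact ⟨tt r K F i, tt_ne_zero i, by rw [hθ, Fin.append_right]⟩)
  rw [hup, hal] at hdz
  set u := MvPolynomial.aeval x (MvPolynomial.pderiv j P) with hu
  have hu' : algebraMap K F u ≠ 0 := (map_ne_zero_iff _ (algebraMap K F).injective).2 hP2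
  have hinv : Ge E.toQVal 0 (algebraMap K F u)⁻¹ := by
    right
    rw [QVal.inv]
    show 0 ≤ -E (algebraMap K F u)
    rw [hE, hP3]
    simp
  have h2 := ordGE_smul E.toQVal hinv hdz
  rw [inv_smul_smul₀ hu'] at h2
  exact ordGE_mono (by omega) h2

theorem form_gauss_sharp (y : Fin c → K) (hy : IsTranscendenceBasis ℂ y) (E : DVal F) (w₀ : DVal K)
    (e : ℤ) (he : 0 < e) (hE : ∀ a : K, E (algebraMap K F a) = e * w₀ a) (b : ℤ)
    (hb : OrdGE w₀ (formY y) b) : OrdGE E (form r F y) (e * b + (e - 1)) := by
  obtain ⟨Φ, hΦ⟩ := exists_push (K := K) (c := c)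
    (fun j => (tt r K F j)⁻¹ • KaehlerDifferential.D ℂ F (tt r K F j))
  have h1 : Φ (formY y) = form r F y := by
    have := hΦ 1 y
    rw [one_smul, map_one, one_smul] at this
    exact this
  rw [← h1]
  unfold OrdGE at hb
  generalize formY y = ω at hb
  induction hb using AddSubgroup.closure_induction with
  | mem τ hτ =>
    obtain ⟨f, x, hf, hx, rfl⟩ := hτ
    rw [hΦ]
    have h2 := ordGE_append_sharp (r := r) (F := F) y hy E w₀ e he hE x hx
    have h3 : Ge E.toQVal (e * b) (algebraMap K F f) := by
      rcases hf with hf | hf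
      · left
        rw [hf, map_zero]
      · right
        show e * b ≤ E (algebraMap K F f)
        rw [hE]
        exact mul_le_mul_of_nonneg_left hf he.le
    have h4 := ordGE_smul E.toQVal h3 h2
    exact h4
  | zero =>
    rw [map_zero]
    exact ordGE_zero _ _
  | add τ τ' _ _ h h' =>
    rw [map_add]
    exact ordGE_add h h'
  | neg τ _ h =>
    rw [map_neg]
    exact ordGE_neg h

end WNV
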