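import Pool.Agent.WNV.ASB
import Pool.Agent.WNV.LOH

/-! ASC. Assembly, third part: the final combination. -/

set_option linter.unusedSectionVars false

namespace WNV

variable {c r N : ℕ} {K F : Type} [Field K] [Algebra ℂ K] [Field F] [Algebra ℂ F]
    [Algebra K F] [IsScalarTower ℂ K F]
    [Algebra (MvPolynomial (Fin r) K) F] [IsScalarTower K (MvPolynomial (Fin r) K) F]
    [IsFractionRing (MvPolynomial (Fin r) K) F]

/-- The image in `F` of a real combination of elements of `K`. -/
noncomputable def lift (F : Type) [Field F] [Algebra K F] (g : K →₀ ℝ) : F →₀ ℝ :=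
  ∑ a ∈ g.support, Finsupp.single (algebraMap K F a) (g a)

theorem val_lift (g : K →₀ ℝ) (E : F → ℤ) :
    val (lift F g) E = val g (fun a => E (algebraMap K F a)) := by
  unfold lift
  rw [val_sum, val_eq_sum]
  refine Finset.sum_congr rfl fun a _ => ?_
  rw [val_single]

theorem weak_nonvanishing (y : Fin c → K) (hy : IsTranscendenceBasis ℂ y)
    (x : Fin (N + 1) → F)
    (hx : ∀ j, ∃ (a : K) (m : Fin r → ℤ), a ≠ 0 ∧ x j = hom F a m)
    (hn : ∀ i, IsIntegrallyClosed (chart x i)) (hf : ∀ i, IsFractionRing (chart x i) F)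
    (KX Δ : DVal F → ℝ)
    (hK : ∀ i (E : DVal F), IsPrimeOf (chart x i) E → ∃ k : ℤ, KX E = k ∧ IsOrd E (form r F y) k)
    (hΔ : ∀ i (E : DVal F), IsPrimeOf (chart x i) E → 0 ≤ Δ E)
    (hfin : {E : DVal F | (∃ i, IsPrimeOf (chart x i) E) ∧ Δ E ≠ 0}.Finite)
    (hκ : ∃ g : K →₀ ℝ, ∀ i (E : DVal F), IsPrimeOf (chart x i) E → ∀ (w : DVal K) (e : ℤ),
      0 < e → (∀ a : K, E (algebraMap K F a) = e * w a) →
      ∃ b : ℤ, OrdGE w (formY y) b ∧ 0 ≤ e * (b + 1) - 1 + Δ E + e * val g w)
    (hC : IsRCartier x (KX + Δ))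
    (hlc : ∀ E : DVal F, IsToric r K E → LcAt x (form r F y) (KX + Δ) E)
    (hps : IsPsef x (KX + Δ)) :
    ∃ φ : F →₀ ℝ, ∀ i (E : DVal F), IsPrimeOf (chart x i) E → 0 ≤ (KX + Δ) E + val φ E := by
  classical
  obtain ⟨g, hg⟩ := hκ
  haveI := hf 0
  obtain ⟨s, p, E₀, hp, hm, hpp, hE₀, hother⟩ := exists_family x hx Δ
    (hfin.subset fun E hE => ⟨⟨0, hE.1⟩, hE.2⟩)
  have hpr : ∀ (q : MvPolynomial (Fin r) K) (E : DVal F), Irreducible q → NotMono q →
      IsOrdP (F := F) E q → ∀ i, IsPrimeOf (chart x i) E := by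
    intro q E hq hqm hE i
    haveI := hf i
    exact ordP_prime x hx i E q hq hqm hE
  have hK0 : ∀ (q : MvPolynomial (Fin r) K) (E : DVal F), Irreducible q → NotMono q →
      IsOrdP (F := F) E q → KX E = 0 := by
    intro q E hq hqm hE
    obtain ⟨k, hk, hko⟩ := hK 0 E (hpr q E hq hqm hE 0)
    have := isOrd_unique hko (form_ordP y hy E q hq hqm hE)
    rw [hk, this]
    simp
  -- the coefficient of Δ at ord_{p_j}
  have hδ0 : ∀ j, 0 ≤ Δ (E₀ j) := fun j => hΔ 0 _ (hpr (p j) (E₀ j) (hp j) (hm j) (hE₀ j) 0)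
  have hzero : ∀ q : MvPolynomial (Fin r) K, Irreducible q → NotMono q →
      (∀ j, ¬ Associated q (p j)) → ∀ E : DVal F, IsOrdP (F := F) E q → Δ E = 0 := by
    intro q hq hqm hqa E hE
    by_contra hne
    obtain ⟨j, hj⟩ := hother q E hq hqm hE hne
    exact hqa j hj
  obtain ⟨lam, hl0, hl1, hlam⟩ := exists_lam y hy x hx hn hf (KX + Δ) hC hlc hps p hp hm hpp
    (fun j => Δ (E₀ j)) hδ0
    (by
      intro j E hE
      have : E = E₀ j := ordP_unique (hp j) hE (hE₀ j)
      subst this
      have h0 := hK0 (p j) (E₀ j) (hp j) (hm j) (hE₀ j)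
      simp [h0])
    (by
      intro q hq hqm hqa E hE
      have h0 := hK0 q E hq hqm hE
      have h1 := hzero q hq hqm hqa E hE
      simp [h0, h1])
  -- the final combination
  refine ⟨lift F g + ∑ j, (Δ (E₀ j)) • (∑ t ∈ (p j).support,
      lam j t • Finsupp.single (hom F ((p j).coeff t) (fun i => (t i : ℤ))) (1 : ℝ) -
      Finsupp.single (algebraMap _ F (p j)) 1), ?_⟩
  intro i E hE
  have hval : val (lift F g + ∑ j, (Δ (E₀ j)) • (∑ t ∈ (p j).support,
      lam j t • Finsupp.single (hom F ((p j).coeff t) (fun i => (t i : ℤ))) (1 : ℝ) -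
      Finsupp.single (algebraMap _ F (p j)) 1)) E =
      val g (fun a => E (algebraMap K F a)) + ∑ j, Δ (E₀ j) * (∑ t ∈ (p j).support,
        lam j t * ((E (hom F ((p j).coeff t) (fun i => (t i : ℤ))) : ℤ) : ℝ) -
        ((E (algebraMap _ F (p j)) : ℤ) : ℝ)) := by
    rw [val_add, val_lift, val_sum]
    congr 1
    refine Finset.sum_congr rfl fun j _ => ?_
    rw [val_smul, val_sub, val_sum, val_single]
    congr 2
    · refine Finset.sum_congr rfl fun t _ => ?_
      rw [val_smul, val_single, one_mul]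
    · rw [one_mul]
  rw [hval]
  by_cases hhom : ∃ (a : K) (m : Fin r → ℤ), a ≠ 0 ∧ E (hom F a m) ≠ 0
  · have hG := prime_gauss x hx i E hE hhom
    have hterm : ∀ j, 0 ≤ Δ (E₀ j) * (∑ t ∈ (p j).support,
        lam j t * ((E (hom F ((p j).coeff t) (fun i => (t i : ℤ))) : ℤ) : ℝ) -
        ((E (algebraMap _ F (p j)) : ℤ) : ℝ)) := by
      intro j
      refine mul_nonneg (hδ0 j) ?_
      rw [sub_nonneg]
      calc ((E (algebraMap _ F (p j)) : ℤ) : ℝ)
          = ∑ t ∈ (p j).support, lam j t * ((E (algebraMap _ F (p j)) : ℤ) : ℝ) := by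
            rw [← Finset.sum_mul, hl1 j, one_mul]
        _ ≤ _ := by
            refine Finset.sum_le_sum fun t ht => ?_
            refine mul_le_mul_of_nonneg_left ?_ (hl0 j t)
            exact_mod_cast gauss_le (G := E.toQVal) (w := QVal.restr K E.toQVal) hG (p j)
              (hp j).ne_zero t ht
    by_cases htriv : ∃ a, QVal.restr K E.toQVal a ≠ 0
    · -- E lies over a nontrivial valuation of K
      obtain ⟨w₀, e, he, hw⟩ := exists_normalise (QVal.restr K E.toQVal) htriv
      have hEe : ∀ a : K, E (algebraMap K F a) = e * w₀ a := fun a => hw a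
      obtain ⟨b, hb, hb0⟩ := hg i E hE w₀ e he hEe
      have hord := form_gauss_sharp (r := r) y hy E w₀ e he hEe b hb
      obtain ⟨k, hk, hko⟩ := hK i E hE
      have hle : e * b + (e - 1) ≤ k := le_of_isOrd hko hord
      have hvg : val g (fun a => E (algebraMap K F a)) = e * val g w₀ := by
        rw [val_eq_sum, val_eq_sum, Finset.mul_sum]
        refine Finset.sum_congr rfl fun a _ => ?_
        rw [hEe a]
        push_cast
        ring
      have hsum := Finset.sum_nonneg fun j (_ : j ∈ Finset.univ) => hterm j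
      have hle' : ((e : ℝ) * b) + (e - 1) ≤ k := by exact_mod_cast hle
      rw [hvg, Pi.add_apply, hk]
      linarith
    · -- E is toric
      push Not at htriv
      have hG' : IsGauss (F := F) E (QVal.triv K) (fun i => E (tt r K F i)) := by
        intro q hq
        obtain ⟨h1, t, ht, h2⟩ := hG q hq
        have e1 : ∀ a, QVal.restr K E.toQVal a = QVal.triv K a := htriv
        refine ⟨fun t ht => ?_, t, ht, ?_⟩
        · rw [← e1]; exact h1 t ht
        · rw [← e1]; exact h2
      have hfinal := hlam E _ hG' i hE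
      have hvg : val g (fun a => E (algebraMap K F a)) = 0 := by
        rw [val_eq_sum]
        refine Finset.sum_eq_zero fun a _ => ?_
        have : E (algebraMap K F a) = 0 := htriv a
        rw [this]
        simp
      have hhomv : ∀ j, ∀ t ∈ (p j).support,
          ((E (hom F ((p j).coeff t) (fun i => (t i : ℤ))) : ℤ) : ℝ) =
            ∑ i, (t i : ℝ) * ((E (tt r K F i) : ℤ) : ℝ) := by
        intro j t ht
        have := gauss_hom (G := E.toQVal) hG' (MvPolynomial.mem_support_iff.1 ht)
          (fun i => (t i : ℤ))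
        have h2 : E (hom F ((p j).coeff t) (fun i => (t i : ℤ))) =
            ∑ i, (t i : ℤ) * E (tt r K F i) := by
          rw [show E (hom F ((p j).coeff t) (fun i => (t i : ℤ))) =
            E.toQVal (hom F ((p j).coeff t) (fun i => (t i : ℤ))) from rfl, this]
          simp
        rw [h2]
        push_cast
        rfl
      rw [hvg, zero_add]
      have hs : ∑ j, Δ (E₀ j) * (∑ t ∈ (p j).support,
          lam j t * ((E (hom F ((p j).coeff t) (fun i => (t i : ℤ))) : ℤ) : ℝ) -
          ((E (algebraMap _ F (p j)) : ℤ) : ℝ)) =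
          ∑ j, Δ (E₀ j) * ∑ t ∈ (p j).support, lam j t *
            ∑ i, (t i : ℝ) * ((E (tt r K F i) : ℤ) : ℝ) -
          ∑ j, Δ (E₀ j) * ((E (algebraMap _ F (p j)) : ℤ) : ℝ) := by
        rw [← Finset.sum_sub_distrib]
        refine Finset.sum_congr rfl fun j _ => ?_
        rw [← mul_sub]
        congr 2
        refine Finset.sum_congr rfl fun t ht => ?_
        rw [hhomv j t ht]
      rw [hs]
      linarith
  · -- all homogeneous elements have value zero: E is ord_q
    push Not at hhom
    obtain ⟨q, hq, hqm, hqE⟩ := prime_ordP (r := r) (K := K) x hx i E hE hhom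
    have h0 := hK0 q E hq hqm hqE
    have hvg : val g (fun a => E (algebraMap K F a)) = 0 := by
      rw [val_eq_sum]
      refine Finset.sum_eq_zero fun a _ => ?_
      rw [ordP_const hq hqE a]
      simp
    have hh : ∀ j, ∀ t ∈ (p j).support,
        E (hom F ((p j).coeff t) (fun i => (t i : ℤ))) = 0 := by
      intro j t ht
      exact ordP_hom hq hqm hqE _ _
    have hs : ∑ j, Δ (E₀ j) * (∑ t ∈ (p j).support,
        lam j t * ((E (hom F ((p j).coeff t) (fun i => (t i : ℤ))) : ℤ) : ℝ) -
        ((E (algebraMap _ F (p j)) : ℤ) : ℝ)) =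
        - ∑ j, Δ (E₀ j) * ((E (algebraMap _ F (p j)) : ℤ) : ℝ) := by
      rw [← Finset.sum_neg_distrib]
      refine Finset.sum_congr rfl fun j _ => ?_
      have : ∑ t ∈ (p j).support,
          lam j t * ((E (hom F ((p j).coeff t) (fun i => (t i : ℤ))) : ℤ) : ℝ) = 0 :=
        Finset.sum_eq_zero fun t ht => by rw [hh j t ht]; simp
      rw [this]
      ring
    rw [hvg, hs, Pi.add_apply, h0]
    by_cases hass : ∃ j, Associated q (p j)
    · obtain ⟨j, hj⟩ := hass
      have hEj : E = E₀ j := ordP_unique (hp j) (ordP_assoc hqE hj) (hE₀ j)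
      have hsum : ∑ k, Δ (E₀ k) * ((E (algebraMap _ F (p k)) : ℤ) : ℝ) = Δ (E₀ j) := by
        rw [Finset.sum_eq_single j]
        · have : E (algebraMap _ F (p j)) = 1 := by
            rw [hEj]
            exact ordP_self (hp j) (hE₀ j)
          rw [this]
          simp
        · intro k _ hk
          have : E (algebraMap _ F (p k)) = 0 := by
            rw [hEj]
            refine ordP_of_not_dvd (hE₀ j) _ (hp k).ne_zero ?_
            intro hdvd
            exact hpp j k hk.symm ((hp j).associated_of_dvd (hp k) hdvd)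
          rw [this]
          simp
        · simp
      rw [hsum, hEj]
      simp
    · push Not at hass
      have hsum : ∑ k, Δ (E₀ k) * ((E (algebraMap _ F (p k)) : ℤ) : ℝ) = 0 := by
        refine Finset.sum_eq_zero fun k _ => ?_
        have : E (algebraMap _ F (p k)) = 0 := by
          refine ordP_of_not_dvd hqE _ (hp k).ne_zero ?_
          intro hdvd
          exact hass k (hq.associated_of_dvd (hp k) hdvd)
        rw [this]
        simp
      rw [hsum, hzero q hq hqm hass E hqE]
      simp

end WNV
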