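import Pool.Agent.WNV.VAL

namespace WNV

theorem exists_normalise {K : Type} [Field K] [Algebra ℂ K] (w : QVal K) (h : ∃ a, w a ≠ 0) :
    ∃ (w₀ : DVal K) (e : ℤ), 0 < e ∧ ∀ a, w a = e * w₀ a := by
  classical
  obtain ⟨a₀, ha₀⟩ := h
  have hex : ∃ n : ℕ, 0 < n ∧ ∃ a, w a = n := by
    rcases lt_or_gt_of_ne ha₀ with h | h
    · refine ⟨(-(w a₀)).toNat, by omega, a₀⁻¹, ?_⟩
      rw [QVal.inv]; omega
    · exact ⟨(w a₀).toNat, by omega, a₀, by omega⟩
  obtain ⟨hpos, b, hb⟩ := Nat.find_spec hex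
  set e := Nat.find hex with he
  have hb0 : b ≠ 0 := by
    rintro rfl
    rw [QVal.zero] at hb
    omega
  have hdvd : ∀ a, (e : ℤ) ∣ w a := by
    intro a
    by_cases ha : a = 0
    · subst ha; simp
    rw [Int.dvd_iff_emod_eq_zero]
    by_contra hne
    have hnn : 0 ≤ w a % e := Int.emod_nonneg _ (by omega)
    have hlt : w a % e < e := Int.emod_lt_of_pos _ (by omega)
    have hval : w (a / b ^ (w a / e)) = w a % e := by
      rw [QVal.div w ha (zpow_ne_zero _ hb0), QVal.zpow w hb0, hb]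
      have := Int.emod_add_mul_ediv (w a) e
      linarith [mul_comm (w a / (e : ℤ)) (e : ℤ)]
    have := Nat.find_min hex (m := (w a % e).toNat) (by omega)
    apply this
    exact ⟨by omega, _, by rw [hval]; omega⟩
  choose q hq using hdvd
  have he0 : (0 : ℤ) < e := by omega
  refine ⟨⟨⟨q, ?_, ?_, ?_, ?_⟩, ?_⟩, e, he0, fun a => hq a⟩
  · have := hq 0
    rw [QVal.zero] at this
    rcases mul_eq_zero.1 this.symm with h | h
    · omega
    · exact h
  · intro a c ha hc
    have h1 := w.mul ha hc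
    rw [hq, hq a, hq c, ← mul_add] at h1
    exact mul_left_cancel₀ he0.ne' h1
  · intro a c ha hc hac
    have h1 := w.add' a c ha hc hac
    change min (w a) (w c) ≤ w (a + c) at h1
    rw [hq (a + c), hq a, hq c, ← mul_min_of_nonneg _ _ he0.le] at h1
    exact le_of_mul_le_mul_left h1 he0
  · intro c
    have h1 := w.const c
    rw [hq] at h1
    rcases mul_eq_zero.1 h1 with h | h
    · omega
    · exact h
  · refine ⟨b, ?_⟩
    have h1 := hq b
    rw [hb] at h1
    have : (e : ℤ) * 1 = e * q b := by rw [mul_one]; exact h1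
    exact (mul_left_cancel₀ he0.ne' this).symm

end WNV
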