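import Pool.Agent.WNV.VAL

/-!
ALG. `c` elements of the valuation ring of a discrete valuation of a field of transcendence degree
`c` are algebraically dependent modulo the maximal ideal, with a separable relation.

PROOF. Step 1: there is `P ≠ 0` in `MvPolynomial (Fin c) ℂ` with `Ge w 1 (aeval x P)`. Otherwise
`aeval x P ≠ 0` and `w (aeval x P) = 0` for all `P ≠ 0` (`w ≥ 0` because it is a polynomial in the
`x_i` with constant coefficients). Let `π` be a uniformizer of `w`. Then `x_1, …, x_c, π` are
algebraically independent over `ℂ` (`Option (Fin c)` or `Fin (c + 1)`): a nonzero polynomial in `π`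
with coefficients `P_k(x)`: the terms `P_k(x) π^k` with `P_k ≠ 0` have the pairwise distinct values
`k`, so the sum is nonzero (`QVal.add_of_gt` applied to the term of lowest degree). This
contradicts the transcendence degree `c` (`IsTranscendenceBasis` of cardinality `c`:
`hy.lift_cardinalMk_eq_trdeg`, `AlgebraicIndependent.cardinalMk_le_trdeg` or similar).
Step 2: take `P` with these properties of minimal total degree (`Nat.find`/`WellFounded.min`).
`P` is not constant (a nonzero constant has value `0`), so some variable `j` occurs in `P` and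
`pderiv j P ≠ 0` (characteristic zero), with total degree smaller than that of `P`
(`MvPolynomial.totalDegree` of `pderiv`; if there is no lemma: use the degree in the single
variable, i.e. instead of the total degree minimise `∑ s ∈ support, degree`, or any measure; or
compute supports). By minimality `Ge w 1 (aeval x (pderiv j P))` fails; as the value is `≥ 0` it is
`0` and the element is nonzero.
-/

namespace WNV

private theorem alg_ge {K : Type} [Field K] [Algebra ℂ K] {c : ℕ} (w : QVal K) (x : Fin c → K)
    (hx : ∀ i, Ge w 0 (x i)) (P : MvPolynomial (Fin c) ℂ) : Ge w 0 (MvPolynomial.aeval x P) := by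
  induction P using MvPolynomial.induction_on with
  | C a =>
    rw [MvPolynomial.aeval_C]
    exact w.ge_const a
  | add p q hp hq =>
    rw [map_add]
    exact w.ge_add hp hq
  | mul_X p i hp =>
    rw [map_mul, MvPolynomial.aeval_X]
    simpa using w.ge_mul hp (hx i)

private theorem alg_step1 {K : Type} [Field K] [Algebra ℂ K] {c : ℕ} (y : Fin c → K)
    (hy : IsTranscendenceBasis ℂ y) (w : DVal K) (x : Fin c → K) (hx : ∀ i, Ge w 0 (x i)) :
    ∃ P : MvPolynomial (Fin c) ℂ, P ≠ 0 ∧ Ge w 1 (MvPolynomial.aeval x P) := by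
  classical
  by_contra hcon
  push Not at hcon
  have hne : ∀ P : MvPolynomial (Fin c) ℂ, P ≠ 0 → MvPolynomial.aeval x P ≠ 0 :=
    fun P hP h0 => hcon P hP (Or.inl h0)
  have hv : ∀ P : MvPolynomial (Fin c) ℂ, P ≠ 0 → w (MvPolynomial.aeval x P) = 0 := by
    intro P hP
    rcases alg_ge w.toQVal x hx P with h | h
    · exact absurd h (hne P hP)
    · by_contra h1
      refine hcon P hP (Or.inr ?_)
      have h2 : (0 : ℤ) ≤ w (MvPolynomial.aeval x P) := h
      omega
  obtain ⟨π, hπ0, hπ⟩ := w.exists_unif
  have hind : AlgebraicIndependent ℂ x := by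
    rw [algebraicIndependent_iff]
    intro P h
    by_contra hP
    exact hne P hP h
  have htr : Transcendental (Algebra.adjoin ℂ (Set.range x)) π := by
    rw [transcendental_iff]
    intro q hq
    by_contra hq0
    have hA : ∀ a : Algebra.adjoin ℂ (Set.range x), a ≠ 0 → w (a : K) = 0 := by
      rintro ⟨a, ha⟩ ha0
      have ha' := ha
      rw [Algebra.adjoin_range_eq_range_aeval] at ha'
      obtain ⟨P, hP⟩ := ha'
      have hP0 : P ≠ 0 := by
        rintro rfl
        have h3 : a = 0 := by
          rw [← hP]
          exact map_zero _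
        exact ha0 (Subtype.ext h3)
      have h1 := hv P hP0
      have h2 : (MvPolynomial.aeval x P : K) = a := hP
      rw [h2] at h1
      exact h1
    have hA' : ∀ a : Algebra.adjoin ℂ (Set.range x), Ge w 0 (a : K) := by
      intro a
      by_cases ha : a = 0
      · left
        rw [ha]
        rfl
      · right
        rw [hA a ha]
    obtain ⟨n, hn⟩ : ∃ n, n = q.natTrailingDegree := ⟨_, rfl⟩
    have hcn : q.coeff n ≠ 0 := by
      rw [hn]
      intro h0
      exact hq0 (Polynomial.trailingCoeff_eq_zero.1 h0)
    have hlt : ∀ i, i < n → q.coeff i = 0 := by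
      intro i hi
      rw [hn] at hi
      exact Polynomial.coeff_eq_zero_of_lt_natTrailingDegree hi
    have hcn' : ((q.coeff n : Algebra.adjoin ℂ (Set.range x)) : K) ≠ 0 := by
      intro h0
      exact hcn (Subtype.ext h0)
    have hpn : w.toQVal (((q.coeff n : Algebra.adjoin ℂ (Set.range x)) : K) * π ^ n) = n := by
      rw [w.toQVal.mul hcn' (pow_ne_zero _ hπ0), w.toQVal.pow hπ0]
      have h1 : w.toQVal ((q.coeff n : Algebra.adjoin ℂ (Set.range x)) : K) = 0 := hA _ hcn
      have h2 : w.toQVal π = 1 := hπ
      rw [h1, h2]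
      ring
    have hmem : n ∈ Finset.range (q.natDegree + 1) := by
      rw [Finset.mem_range]
      have := Polynomial.le_natDegree_of_ne_zero hcn
      omega
    have hrest : Ge w.toQVal (w.toQVal (((q.coeff n : Algebra.adjoin ℂ (Set.range x)) : K) * π ^ n) + 1)
        (∑ i ∈ (Finset.range (q.natDegree + 1)).erase n,
          ((q.coeff i : Algebra.adjoin ℂ (Set.range x)) : K) * π ^ i) := by
      rw [hpn]
      refine w.toQVal.ge_sum _ _ fun i hi => ?_
      rcases lt_trichotomy i n with h | h | h
      · left
        rw [hlt i h]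
        simp
      · exact absurd h (Finset.ne_of_mem_erase hi)
      · have h1 : Ge w.toQVal (i : ℤ) (π ^ i) := by
          right
          rw [w.toQVal.pow hπ0]
          have h2 : w.toQVal π = 1 := hπ
          rw [h2]
          simp
        have h2 := w.toQVal.ge_mul (hA' (q.coeff i)) h1
        exact w.toQVal.ge_mono (by omega) h2
    have hfin := (w.toQVal.add_of_gt (mul_ne_zero hcn' (pow_ne_zero _ hπ0)) hrest).1
    rw [Finset.add_sum_erase (Finset.range (q.natDegree + 1))
      (fun i => ((q.coeff i : Algebra.adjoin ℂ (Set.range x)) : K) * π ^ i) hmem] at hfin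
    apply hfin
    rw [Polynomial.aeval_eq_sum_range] at hq
    rw [← hq]
    exact Finset.sum_congr rfl fun i _ => rfl
  have hopt : AlgebraicIndependent ℂ (fun o : Option (Fin c) => o.elim π x) :=
    (hind.option_iff_transcendental π).2 htr
  have h1 := hopt.cardinalMk_le_trdeg
  rw [← hy.cardinalMk_eq_trdeg] at h1
  simp only [Cardinal.mk_option, Cardinal.mk_fin] at h1
  have h2 : (c + 1 : ℕ) ≤ c := by exact_mod_cast h1
  omega

private theorem alg_deg {c : ℕ} (P : MvPolynomial (Fin c) ℂ) (j : Fin c)
    (h : MvPolynomial.pderiv j P ≠ 0) :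
    (MvPolynomial.pderiv j P).totalDegree < P.totalDegree := by
  have hP : ∀ m ∈ (MvPolynomial.pderiv j P).support, (m.sum fun _ e => e) + 1 ≤ P.totalDegree := by
    intro m hm
    rw [MvPolynomial.mem_support_iff, MvPolynomial.coeff_pderiv] at hm
    have h1 : m + Finsupp.single j 1 ∈ P.support :=
      MvPolynomial.mem_support_iff.2 (left_ne_zero_of_mul hm)
    have h2 := MvPolynomial.le_totalDegree h1
    rw [Finsupp.sum_add_index' (by simp) (by simp)] at h2
    simpa using h2
  obtain ⟨m, hm⟩ := MvPolynomial.support_nonempty.2 h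
  have h1 := hP m hm
  have h2 : (MvPolynomial.pderiv j P).totalDegree ≤ P.totalDegree - 1 := by
    rw [MvPolynomial.totalDegree]
    refine Finset.sup_le fun m hm => ?_
    have := hP m hm
    omega
  omega

theorem exists_relation {K : Type} [Field K] [Algebra ℂ K] {c : ℕ} (y : Fin c → K)
    (hy : IsTranscendenceBasis ℂ y) (w : DVal K) (x : Fin c → K) (hx : ∀ i, Ge w 0 (x i)) :
    ∃ (P : MvPolynomial (Fin c) ℂ) (j : Fin c), Ge w 1 (MvPolynomial.aeval x P) ∧
      MvPolynomial.aeval x (MvPolynomial.pderiv j P) ≠ 0 ∧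
      w (MvPolynomial.aeval x (MvPolynomial.pderiv j P)) = 0 := by
  classical
  have hex : ∃ n : ℕ, ∃ P : MvPolynomial (Fin c) ℂ, P ≠ 0 ∧ Ge w 1 (MvPolynomial.aeval x P) ∧
      P.totalDegree = n := by
    obtain ⟨P, h1, h2⟩ := alg_step1 y hy w x hx
    exact ⟨_, P, h1, h2, rfl⟩
  obtain ⟨P, hP0, hP1, hPn⟩ := Nat.find_spec hex
  have hmin : ∀ Q : MvPolynomial (Fin c) ℂ, Q ≠ 0 → Q.totalDegree < P.totalDegree →
      ¬ Ge w 1 (MvPolynomial.aeval x Q) := by
    intro Q hQ hlt h1
    rw [hPn] at hlt
    exact Nat.find_min hex hlt ⟨Q, hQ, h1, rfl⟩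
  have hj : ∃ j, MvPolynomial.pderiv j P ≠ 0 := by
    by_contra hcon
    push Not at hcon
    have hC : P = MvPolynomial.C (P.coeff 0) := by
      ext m
      by_cases hm : m = 0
      · subst hm
        simp
      · rw [MvPolynomial.coeff_C, if_neg (fun h0 => hm h0.symm)]
        obtain ⟨j, hj⟩ : ∃ j, m j ≠ 0 := by
          by_contra h0
          push Not at h0
          exact hm (Finsupp.ext h0)
        have h1 := congrArg (MvPolynomial.coeff (m - Finsupp.single j 1)) (hcon j)
        rw [MvPolynomial.coeff_pderiv, MvPolynomial.coeff_zero] at h1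
        have h2 : m - Finsupp.single j 1 + Finsupp.single j 1 = m := by
          refine tsub_add_cancel_of_le ?_
          intro i
          by_cases hi : i = j
          · subst hi
            simp
            omega
          · simp [Ne.symm hi]
        rw [h2] at h1
        rcases mul_eq_zero.1 h1 with h3 | h3
        · exact h3
        · exfalso
          exact Nat.cast_add_one_ne_zero _ h3
    have hc0 : P.coeff 0 ≠ 0 := by
      intro h0
      rw [h0, map_zero] at hC
      exact hP0 hC
    rw [hC, MvPolynomial.aeval_C] at hP1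
    rcases hP1 with h | h
    · exact hc0 ((map_eq_zero_iff _ (algebraMap ℂ K).injective).1 h)
    · have h2 : w.toQVal (algebraMap ℂ K (P.coeff 0)) = 0 := w.toQVal.const _
      have h3 : (1 : ℤ) ≤ w.toQVal (algebraMap ℂ K (P.coeff 0)) := h
      omega
  obtain ⟨j, hj⟩ := hj
  have h1 := hmin _ hj (alg_deg P j hj)
  have h2 := alg_ge w.toQVal x hx (MvPolynomial.pderiv j P)
  have h3 : MvPolynomial.aeval x (MvPolynomial.pderiv j P) ≠ 0 := fun h0 => h1 (Or.inl h0)
  refine ⟨P, j, hP1, h3, ?_⟩
  rcases h2 with h2 | h2
  · exact absurd h2 h3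
  · have h4 : (0 : ℤ) ≤ w (MvPolynomial.aeval x (MvPolynomial.pderiv j P)) := h2
    have h5 : ¬ (1 : ℤ) ≤ w (MvPolynomial.aeval x (MvPolynomial.pderiv j P)) :=
      fun h0 => h1 (Or.inr h0)
    omega

end WNV
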