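import Pool.Agent.WNV.ODB

/-!
LGW. A wedge product of regular differentials and logarithmic differentials `x⁻¹ dx` has order
at least `-1`.

PROOF. Choose `π` with `E π = 1` and put `τ = π⁻¹ • D π`. For `x ≠ 0`, `k = E x`, `x = u π^k` with
`E u = 0`: `x⁻¹ • D x = u⁻¹ • D u + k τ` (`Derivation.leibniz`, `Derivation.leibniz_zpow` or
induction; `Derivation.leibniz_inv`), and `u⁻¹ • D u ∈ RegDiff E`. So every slot is
`θ j = ρ j + (k j : F) • τ` with `ρ j ∈ RegDiff E` (`k j = 0` for the regular slots).
Claim (induction on a finset `S` of slots, or on the number of slots, `Finset.induction_on`):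
if `θ j = ρ j + (k j) • τ` for `j ∈ S` and `θ j ∈ RegDiff E` for `j ∉ S`, then `ιMulti θ` has order
`≥ -1`. Step: insert `a`: `ιMulti θ = ιMulti (update θ a (ρ a)) + k a • ιMulti (update θ a τ)`.
The first term is in the case `S`. For the second term: `update θ a τ` has `τ` in slot `a`, so in
every other slot `j ∈ S` we may replace `ρ j + k j τ` by `ρ j` without changing the value (a
second slot containing `τ` gives `0`; do this one slot at a time, `AlternatingMap.map_eq_zero_of_eq`,
`map_update_add`, or show first: if `θ a = τ`, and `θ' j = θ j + c j • τ` for `j ≠ a`, `θ' a = τ`,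
then `ιMulti θ' = ιMulti θ`, by finset induction), and then `ιMulti (.. ρ .. τ ..) =
π⁻¹ • ιMulti (.. ρ .. Dπ ..)`, where the last `ιMulti` has order `≥ 0` by `ordGE_reg`
(`Dπ ∈ RegDiff E`); `ordGE_smul` with `E π⁻¹ = -1`; the integer factor has value `≥ 0`.

COROLLARY `ordGE_dz`: if moreover the slot `a` is `D z` with `Ge E k z` then the order is at least
`k - 1`: if `z = 0` the form is `0`; if not, `D z = z • (z⁻¹ • D z)`, pull `z` out of the
slot `a` (`map_update_smul`) and use `ordGE_smul`.
-/

set_option linter.unusedSectionVars false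

namespace WNV

open exteriorPower

variable {F : Type} [Field F] [Algebra ℂ F] {n : ℕ}

private theorem lgw_slot (E : DVal F) {π : F} (hπ : π ≠ 0) (h1 : E π = 1) {x : F} (hx : x ≠ 0) :
    ∃ ρ ∈ RegDiff (F := F) E, ∃ k : ℤ, x⁻¹ • KaehlerDifferential.D ℂ F x =
      ρ + (k : F) • (π⁻¹ • KaehlerDifferential.D ℂ F π) := by
  obtain ⟨k, hk⟩ : ∃ k : ℤ, k = E x := ⟨_, rfl⟩
  obtain ⟨u, hu⟩ : ∃ u : F, u = x * (π ^ k)⁻¹ := ⟨_, rfl⟩
  have hπk : π ^ k ≠ 0 := zpow_ne_zero _ hπ
  have hu0 : u ≠ 0 := by
    rw [hu]
    exact mul_ne_zero hx (inv_ne_zero hπk)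
  have hE : E.toQVal u = 0 := by
    rw [hu, E.toQVal.mul hx (inv_ne_zero hπk), E.toQVal.inv, E.toQVal.zpow hπ]
    have h2 : E.toQVal π = 1 := h1
    have h3 : E.toQVal x = k := hk.symm
    rw [h2, h3]
    ring
  have hxu : x = u * π ^ k := by
    rw [hu]
    field_simp
  refine ⟨u⁻¹ • KaehlerDifferential.D ℂ F u, ?_, k, ?_⟩
  · refine regDiff_smul (E := E.toQVal) ?_ (regDiff_D ?_)
    · refine Or.inr ?_
      rw [E.toQVal.inv, hE]
      simp
    · exact Or.inr (by rw [hE])
  · have e1 : KaehlerDifferential.D ℂ F x = π ^ k • KaehlerDifferential.D ℂ F u +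
        (u * ((k : F) * π ^ (k - 1))) • KaehlerDifferential.D ℂ F π := by
      conv_lhs => rw [hxu]
      rw [Derivation.leibniz, Derivation.leibniz_zpow, add_comm]
      congr 1
      rw [← Int.cast_smul_eq_zsmul F k, smul_smul, smul_smul, mul_assoc]
    rw [e1, smul_add, smul_smul, smul_smul, smul_smul]
    congr 2
    · rw [hxu]
      field_simp
    · rw [hxu, zpow_sub_one₀ hπ]
      field_simp

/-- a slot containing `τ` kills the multiples of `τ` in the other slots -/
private theorem lgw_b (τ : KaehlerDifferential ℂ F) (ρ : Fin n → KaehlerDifferential ℂ F) (k : Fin n → F)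
    (a : Fin n) (S : Finset (Fin n)) :
    ιMulti F n (Function.update (fun j => ρ j + (if j ∈ S then k j else 0) • τ) a τ) =
      ιMulti F n (Function.update ρ a τ) := by
  classical
  induction S using Finset.induction_on with
  | empty => simp
  | insert b S hb ih =>
    by_cases hba : b = a
    · subst hba
      rw [← ih]
      congr 1
      funext j
      by_cases hj : j = b
      · subst hj
        simp
      · simp [Finset.mem_insert, hj]
    · have e1 : Function.update (fun j => ρ j + (if j ∈ insert b S then k j else 0) • τ) a τ =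
          Function.update (Function.update (fun j => ρ j + (if j ∈ S then k j else 0) • τ) a τ) b
            (ρ b + k b • τ) := by
        funext j
        by_cases hj : j = b
        · subst hj
          rw [Function.update_of_ne hba, Function.update_self]
          simp
        · rw [Function.update_of_ne hj]
          by_cases hj' : j = a
          · subst hj'
            simp
          · simp [Function.update_of_ne hj', Finset.mem_insert, hj]
      have e2 : Function.update (Function.update (fun j => ρ j + (if j ∈ S then k j else 0) • τ) a τ) b (ρ b) =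
          Function.update (fun j => ρ j + (if j ∈ S then k j else 0) • τ) a τ := by
        funext j
        by_cases hj : j = b
        · subst hj
          rw [Function.update_self, Function.update_of_ne hba]
          simp [hb]
        · rw [Function.update_of_ne hj]
      rw [e1, AlternatingMap.map_update_add, AlternatingMap.map_update_smul, e2, ih]
      have e3 : ιMulti F n (Function.update (Function.update
          (fun j => ρ j + (if j ∈ S then k j else 0) • τ) a τ) b τ) = 0 := by
        refine AlternatingMap.map_eq_zero_of_eq _ _ (i := a) (j := b) ?_ (Ne.symm hba)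
        rw [Function.update_self, Function.update_of_ne (Ne.symm hba), Function.update_self]
      rw [e3, smul_zero, add_zero]

private theorem lgw_a (E : DVal F) {π : F} (h1 : E π = 1) (ρ : Fin n → KaehlerDifferential ℂ F)
    (hρ : ∀ j, ρ j ∈ RegDiff (F := F) E) (k : Fin n → ℤ) (S : Finset (Fin n)) :
    OrdGE E (ιMulti F n (fun j => ρ j + (if j ∈ S then (k j : F) else 0) •
      (π⁻¹ • KaehlerDifferential.D ℂ F π))) (-1) := by
  classical
  obtain ⟨τ, hτ⟩ : ∃ τ, τ = π⁻¹ • KaehlerDifferential.D ℂ F π := ⟨_, rfl⟩
  rw [← hτ]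
  induction S using Finset.induction_on with
  | empty =>
    simp only [Finset.notMem_empty, if_false, zero_smul, add_zero]
    exact ordGE_mono (by norm_num) (ordGE_reg E.toQVal ρ hρ)
  | insert a S ha ih =>
    have e1 : (fun j => ρ j + (if j ∈ insert a S then (k j : F) else 0) • τ) =
        Function.update (fun j => ρ j + (if j ∈ S then (k j : F) else 0) • τ) a (ρ a + (k a : F) • τ) := by
      funext j
      by_cases hj : j = a
      · subst hj
        simp
      · simp [Finset.mem_insert, hj]
    have e2 : Function.update (fun j => ρ j + (if j ∈ S then (k j : F) else 0) • τ) a (ρ a) =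
        (fun j => ρ j + (if j ∈ S then (k j : F) else 0) • τ) := by
      funext j
      by_cases hj : j = a
      · subst hj
        simp [ha]
      · rw [Function.update_of_ne hj]
    rw [e1, AlternatingMap.map_update_add, e2]
    refine ordGE_add ih ?_
    rw [AlternatingMap.map_update_smul, lgw_b τ ρ (fun j => (k j : F)) a S, hτ, AlternatingMap.map_update_smul,
      smul_smul]
    have hreg : OrdGE E (ιMulti F n (Function.update ρ a (KaehlerDifferential.D ℂ F π))) 0 := by
      refine ordGE_reg E.toQVal _ ?_
      intro j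
      by_cases hj : j = a
      · subst hj
        rw [Function.update_self]
        refine regDiff_D (Or.inr ?_)
        have h2 : E.toQVal π = 1 := h1
        rw [h2]
        norm_num
      · rw [Function.update_of_ne hj]
        exact hρ j
    have hg : Ge E.toQVal (-1) ((k a : F) * π⁻¹) := by
      have h3 := E.toQVal.ge_mul (E.toQVal.ge_intCast (k a)) (E.toQVal.ge_self π⁻¹)
      rw [E.toQVal.inv] at h3
      have h2 : E.toQVal π = 1 := h1
      rw [h2] at h3
      simpa using h3
    have := ordGE_smul E.toQVal hg hreg
    simpa using this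

theorem ordGE_log (E : DVal F) (θ : Fin n → KaehlerDifferential ℂ F)
    (h : ∀ j, θ j ∈ RegDiff (F := F) E ∨
      ∃ x : F, x ≠ 0 ∧ θ j = x⁻¹ • KaehlerDifferential.D ℂ F x) :
    OrdGE E (ιMulti F n θ) (-1) := by
  classical
  obtain ⟨π, hπ, h1⟩ := E.exists_unif
  have key : ∀ j, ∃ ρ ∈ RegDiff (F := F) E, ∃ k : ℤ, θ j = ρ + (k : F) • (π⁻¹ • KaehlerDifferential.D ℂ F π) := by
    intro j
    rcases h j with hj | ⟨x, hx, hj⟩
    · exact ⟨θ j, hj, 0, by simp⟩
    · rw [hj]
      exact lgw_slot E hπ h1 hx
  choose ρ hρ k hk using key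
  have := lgw_a E h1 ρ hρ k Finset.univ
  simp only [Finset.mem_univ, if_true] at this
  have e : θ = fun j => ρ j + (k j : F) • (π⁻¹ • KaehlerDifferential.D ℂ F π) := funext hk
  rw [e]
  exact this

theorem ordGE_dz (E : DVal F) (θ : Fin n → KaehlerDifferential ℂ F) (a : Fin n) (z : F) (k : ℤ)
    (hz : Ge E k z) (ha : θ a = KaehlerDifferential.D ℂ F z)
    (h : ∀ j, j ≠ a → θ j ∈ RegDiff (F := F) E ∨
      ∃ x : F, x ≠ 0 ∧ θ j = x⁻¹ • KaehlerDifferential.D ℂ F x) :
    OrdGE E (ιMulti F n θ) (k - 1) := by
  classical
  by_cases hz0 : z = 0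
  · subst hz0
    have : ιMulti F n θ = 0 := by
      refine AlternatingMap.map_coord_zero _ a ?_
      rw [ha]
      simp
    rw [this]
    exact ordGE_zero _ _
  · have e1 : θ = Function.update θ a (z • (z⁻¹ • KaehlerDifferential.D ℂ F z)) := by
      rw [smul_smul, mul_inv_cancel₀ hz0, one_smul, ← ha, Function.update_eq_self]
    rw [e1, AlternatingMap.map_update_smul]
    have h2 : OrdGE E (ιMulti F n (Function.update θ a (z⁻¹ • KaehlerDifferential.D ℂ F z))) (-1) := by
      refine ordGE_log E _ ?_
      intro j
      by_cases hj : j = a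
      · subst hj
        rw [Function.update_self]
        exact Or.inr ⟨z, hz0, rfl⟩
      · rw [Function.update_of_ne hj]
        exact h j hj
    have := ordGE_smul E.toQVal hz h2
    rw [← sub_eq_add_neg] at this
    exact this

end WNV
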