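import Pool.Agent.WNV.VAL

/-!
EXT. A valuation on a domain extends to its field of fractions.

PROOF. Define `v f = g a - g b` for `f = a / b` (use `IsFractionRing.div_surjective` or
`IsLocalization.mk'`), `v 0 = 0`. Well defined: `a/b = a'/b'` gives `a b' = a' b`, so
`g a + g b' = g a' + g b`.
`v (f f') = v f + v f'` from `hm`. For the sum: `a/b + a'/b' = (a b' + a' b)/(b b')` and
`g (a b' + a' b) ≥ min (g a + g b') (g a' + g b)` by `ha` and `hm`.
A constant `c ≠ 0` is the image of `algebraMap ℂ R c`, so its value is `g (algebraMap ℂ R c) = 0`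
(write it as `(algebraMap ℂ R c) / 1`, `g 1 = 0` from `hm 1 1`).
-/

namespace WNV

theorem exists_ext {R F : Type} [CommRing R] [IsDomain R] [Field F] [Algebra ℂ F] [Algebra ℂ R]
    [Algebra R F] [IsScalarTower ℂ R F] [IsFractionRing R F] (g : R → ℤ)
    (hm : ∀ a b, a ≠ 0 → b ≠ 0 → g (a * b) = g a + g b)
    (ha : ∀ a b, a ≠ 0 → b ≠ 0 → a + b ≠ 0 → min (g a) (g b) ≤ g (a + b))
    (hc : ∀ c : ℂ, c ≠ 0 → g (algebraMap ℂ R c) = 0) :
    ∃ E : QVal F, ∀ a : R, a ≠ 0 → E (algebraMap R F a) = g a := by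
  classical
  have hsurj : ∀ f : F, ∃ a b : R, b ≠ 0 ∧ algebraMap R F a / algebraMap R F b = f := by
    intro f
    obtain ⟨a, b, hb, h⟩ := IsFractionRing.div_surjective (A := R) f
    exact ⟨a, b, nonZeroDivisors.ne_zero hb, h⟩
  choose num den hden hnd using hsurj
  have hinj : Function.Injective (algebraMap R F) := IsFractionRing.injective R F
  have hne : ∀ a : R, a ≠ 0 → algebraMap R F a ≠ 0 := fun a h =>
    (map_ne_zero_iff _ hinj).2 h
  have hnum : ∀ f : F, f ≠ 0 → num f ≠ 0 := by
    intro f hf h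
    apply hf
    rw [← hnd f, h]
    simp
  let v : F → ℤ := fun f => if f = 0 then 0 else g (num f) - g (den f)
  have hv : ∀ (a b : R), a ≠ 0 → b ≠ 0 →
      v (algebraMap R F a / algebraMap R F b) = g a - g b := by
    intro a b ha' hb'
    have hf : algebraMap R F a / algebraMap R F b ≠ 0 := div_ne_zero (hne a ha') (hne b hb')
    have h1 : v (algebraMap R F a / algebraMap R F b)
        = g (num (algebraMap R F a / algebraMap R F b))
          - g (den (algebraMap R F a / algebraMap R F b)) := if_neg hf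
    rw [h1]
    have h2 := hnd (algebraMap R F a / algebraMap R F b)
    set f := algebraMap R F a / algebraMap R F b with hfdef
    have h3 : algebraMap R F (num f) / algebraMap R F (den f)
        = algebraMap R F a / algebraMap R F b := by rw [h2]
    rw [div_eq_div_iff (hne _ (hden f)) (hne _ hb'), ← map_mul, ← map_mul] at h3
    have h4 := hinj h3
    have h5 : g (num f * b) = g (a * den f) := by rw [h4]
    rw [hm _ _ (hnum f hf) hb', hm _ _ ha' (hden f)] at h5
    omega
  have hrep : ∀ f : F, f ≠ 0 → ∃ a b : R, a ≠ 0 ∧ b ≠ 0 ∧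
      f = algebraMap R F a / algebraMap R F b := fun f hf =>
    ⟨num f, den f, hnum f hf, hden f, (hnd f).symm⟩
  have hg1 : g 1 = 0 := by
    have := hm 1 1 one_ne_zero one_ne_zero
    rw [mul_one] at this
    omega
  refine ⟨⟨v, if_pos rfl, ?_, ?_, ?_⟩, ?_⟩
  · intro x y hx hy
    obtain ⟨a, b, ha0, hb0, rfl⟩ := hrep x hx
    obtain ⟨c, d, hc0, hd0, rfl⟩ := hrep y hy
    rw [hv a b ha0 hb0, hv c d hc0 hd0, div_mul_div_comm, ← map_mul, ← map_mul,
      hv _ _ (mul_ne_zero ha0 hc0) (mul_ne_zero hb0 hd0), hm _ _ ha0 hc0, hm _ _ hb0 hd0]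
    ring
  · intro x y hx hy hxy
    obtain ⟨a, b, ha0, hb0, rfl⟩ := hrep x hx
    obtain ⟨c, d, hc0, hd0, rfl⟩ := hrep y hy
    have hs : algebraMap R F a / algebraMap R F b + algebraMap R F c / algebraMap R F d
        = algebraMap R F (a * d + b * c) / algebraMap R F (b * d) := by
      rw [div_add_div _ _ (hne b hb0) (hne d hd0)]
      simp only [map_add, map_mul]
    rw [hs] at hxy
    have hn0 : a * d + b * c ≠ 0 := by
      intro h
      apply hxy
      rw [h]
      simp
    rw [hs, hv a b ha0 hb0, hv c d hc0 hd0, hv _ _ hn0 (mul_ne_zero hb0 hd0), hm _ _ hb0 hd0]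
    have h1 := ha (a * d) (b * c) (mul_ne_zero ha0 hd0) (mul_ne_zero hb0 hc0) hn0
    rw [hm _ _ ha0 hd0, hm _ _ hb0 hc0] at h1
    rcases min_le_iff.1 h1 with h | h
    · refine (min_le_left _ _).trans ?_
      omega
    · refine (min_le_right _ _).trans ?_
      omega
  · intro c
    by_cases hc0 : c = 0
    · subst hc0
      rw [map_zero]
      exact if_pos rfl
    · have h1 : algebraMap ℂ F c = algebraMap R F (algebraMap ℂ R c) / algebraMap R F 1 := by
        rw [map_one, div_one, ← IsScalarTower.algebraMap_apply ℂ R F]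
      have h2 : algebraMap ℂ R c ≠ 0 := by
        rw [Ne, map_eq_zero_iff _ (algebraMap ℂ R).injective]
        exact hc0
      rw [h1, hv _ _ h2 one_ne_zero, hc c hc0, hg1]
      rfl
  · intro a ha0
    have h1 : algebraMap R F a = algebraMap R F a / algebraMap R F 1 := by
      rw [map_one, div_one]
    show v (algebraMap R F a) = g a
    rw [h1, hv a 1 ha0 one_ne_zero, hg1, sub_zero]

end WNV
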