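import Pool.Agent.WNV.VAL
import Pool.Agent.WNV.EXT

/-!
ORP. The valuation `ord_p` of an irreducible polynomial `p ∈ R = K[t_1,…,t_r]`.

`IsOrdP E p` says `E(p^n q) = n` whenever `p ∤ q`.

PROOF of `exists_ordP`. `R` is a unique factorization domain, so `p` is prime, and for every
`q ≠ 0` there are `n` and `q'` with `q = p^n q'`, `p ∤ q'` (`FiniteMultiplicity`,
`exists_eq_pow_mul_and_not_dvd`, or `emultiplicity`/`multiplicity`). Put `g q = n`
(= `multiplicity p q`). Multiplicative as `p` is prime, `g (a + b) ≥ min`. Extend with `exists_ext`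
(EXT), `scalarTower` hypothesis included here. Constants are units, so have `g = 0`.
It is normalised as `g p = 1`.

PROOF of `ordP_unique`: `E` and `E'` agree on `R`, hence on `F`.
PROOF of `ordP_nonneg`: immediate; `ordP_const`: units are not divisible by `p`;
`ordP_assoc`: if `q = u p` with `u` a unit then `IsOrdP E p → IsOrdP E q`.
`ordP_pos_iff`: `0 < E q ↔ p ∣ q`.
-/

set_option linter.unusedSectionVars false

namespace WNV

variable {r : ℕ} {K F : Type} [Field K] [Algebra ℂ K] [Field F] [Algebra ℂ F]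
    [Algebra K F] [IsScalarTower ℂ K F]
    [Algebra (MvPolynomial (Fin r) K) F] [IsScalarTower K (MvPolynomial (Fin r) K) F]
    [IsFractionRing (MvPolynomial (Fin r) K) F]

/-- `E` is the order along the polynomial `p`. -/
def IsOrdP (E : F → ℤ) (p : MvPolynomial (Fin r) K) : Prop :=
  ∀ (n : ℕ) (q : MvPolynomial (Fin r) K), q ≠ 0 → ¬ p ∣ q →
    E (algebraMap _ F (p ^ n * q)) = n

/-- `p` is not a monomial (up to units). -/
def NotMono (p : MvPolynomial (Fin r) K) : Prop :=
  ∀ i, ¬ Associated p (MvPolynomial.X i)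

/-- `q = p ^ n * q'` with `p ∤ q'`. -/
theorem exists_pow_mul (p : MvPolynomial (Fin r) K) (hp : Irreducible p)
    (q : MvPolynomial (Fin r) K) (hq : q ≠ 0) :
    ∃ (n : ℕ) (q' : MvPolynomial (Fin r) K), q' ≠ 0 ∧ ¬ p ∣ q' ∧ q = p ^ n * q' := by
  obtain ⟨n, c, hc, rfl⟩ := WfDvdMonoid.max_power_factor hq hp
  refine ⟨n, c, ?_, hc, rfl⟩
  rintro rfl
  simp at hq

private lemma orp_unique (p : MvPolynomial (Fin r) K) (hp : Irreducible p) {m n : ℕ}
    {a b : MvPolynomial (Fin r) K} (ha : ¬ p ∣ a) (hb : ¬ p ∣ b)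
    (h : p ^ m * a = p ^ n * b) : m = n := by
  have key : ∀ {m n : ℕ} {a b : MvPolynomial (Fin r) K}, ¬ p ∣ a →
      p ^ m * a = p ^ n * b → n ≤ m := by
    intro m n a b ha h
    by_contra hlt
    push Not at hlt
    obtain ⟨k, rfl⟩ := Nat.exists_eq_add_of_lt hlt
    apply ha
    have h2 : p ^ m * a = p ^ m * (p * (p ^ k * b)) := by rw [h]; ring
    have h3 := mul_left_cancel₀ (pow_ne_zero m hp.ne_zero) h2
    exact ⟨_, h3⟩
  exact le_antisymm (key hb h.symm) (key ha h)

private noncomputable def orpVal (p : MvPolynomial (Fin r) K) (hp : Irreducible p)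
    (q : MvPolynomial (Fin r) K) : ℕ :=
  open Classical in
  if hq : q = 0 then 0 else (exists_pow_mul p hp q hq).choose

private lemma orpVal_eq (p : MvPolynomial (Fin r) K) (hp : Irreducible p) (n : ℕ)
    (q : MvPolynomial (Fin r) K) (hq : q ≠ 0) (hpq : ¬ p ∣ q) :
    orpVal p hp (p ^ n * q) = n := by
  have h0 : p ^ n * q ≠ 0 := mul_ne_zero (pow_ne_zero n hp.ne_zero) hq
  unfold orpVal
  rw [dif_neg h0]
  obtain ⟨q', h1, h2, h3⟩ := (exists_pow_mul p hp _ h0).choose_spec
  exact (orp_unique p hp hpq h2 h3).symm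

private lemma orpVal_mul (p : MvPolynomial (Fin r) K) (hp : Irreducible p)
    (a b : MvPolynomial (Fin r) K) (ha : a ≠ 0) (hb : b ≠ 0) :
    orpVal p hp (a * b) = orpVal p hp a + orpVal p hp b := by
  obtain ⟨m, a', ha0, hpa, rfl⟩ := exists_pow_mul p hp a ha
  obtain ⟨n, b', hb0, hpb, rfl⟩ := exists_pow_mul p hp b hb
  rw [orpVal_eq p hp m a' ha0 hpa, orpVal_eq p hp n b' hb0 hpb]
  have h : p ^ m * a' * (p ^ n * b') = p ^ (m + n) * (a' * b') := by ring
  rw [h]
  refine orpVal_eq p hp _ _ (mul_ne_zero ha0 hb0) ?_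
  intro hd
  rcases hp.prime.dvd_or_dvd hd with h1 | h1
  · exact hpa h1
  · exact hpb h1

private lemma orpVal_dvd (p : MvPolynomial (Fin r) K) (hp : Irreducible p) (k : ℕ)
    (a : MvPolynomial (Fin r) K) (ha : a ≠ 0) (h : p ^ k ∣ a) : k ≤ orpVal p hp a := by
  obtain ⟨c, rfl⟩ := h
  have hc : c ≠ 0 := right_ne_zero_of_mul ha
  rw [orpVal_mul p hp _ _ (left_ne_zero_of_mul ha) hc]
  have : orpVal p hp (p ^ k) = k := by
    have := orpVal_eq p hp k 1 one_ne_zero (fun hd => hp.not_isUnit (isUnit_of_dvd_one hd))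
    rwa [mul_one] at this
  omega

private lemma orpVal_pow_dvd (p : MvPolynomial (Fin r) K) (hp : Irreducible p)
    (a : MvPolynomial (Fin r) K) (ha : a ≠ 0) : p ^ (orpVal p hp a) ∣ a := by
  obtain ⟨m, a', ha0, hpa, rfl⟩ := exists_pow_mul p hp a ha
  rw [orpVal_eq p hp m a' ha0 hpa]
  exact ⟨_, rfl⟩

variable (F) in
theorem exists_ordP (p : MvPolynomial (Fin r) K) (hp : Irreducible p) :
    ∃ E : DVal F, IsOrdP (F := F) E p := by
  have : IsScalarTower ℂ (MvPolynomial (Fin r) K) F := by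
    refine IsScalarTower.of_algebraMap_eq fun c => ?_
    rw [IsScalarTower.algebraMap_apply ℂ K F, IsScalarTower.algebraMap_apply K
      (MvPolynomial (Fin r) K) F, IsScalarTower.algebraMap_apply ℂ K (MvPolynomial (Fin r) K)]
  obtain ⟨E, hE⟩ := exists_ext (R := MvPolynomial (Fin r) K) (F := F)
    (fun q => (orpVal p hp q : ℤ)) (by
      intro a b ha hb
      rw [orpVal_mul p hp a b ha hb]; push_cast; ring) (by
      intro a b ha hb hab
      have h1 : p ^ (min (orpVal p hp a) (orpVal p hp b)) ∣ a + b :=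
        dvd_add ((pow_dvd_pow p (min_le_left _ _)).trans (orpVal_pow_dvd p hp a ha))
          ((pow_dvd_pow p (min_le_right _ _)).trans (orpVal_pow_dvd p hp b hb))
      have h2 := orpVal_dvd p hp _ _ hab h1
      exact_mod_cast h2) (by
      intro c hc
      have h0 : algebraMap ℂ (MvPolynomial (Fin r) K) c ≠ 0 :=
        (map_ne_zero_iff _ (algebraMap ℂ (MvPolynomial (Fin r) K)).injective).2 hc
      have hu : IsUnit (algebraMap ℂ (MvPolynomial (Fin r) K) c) :=
        (isUnit_iff_ne_zero.2 hc).map _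
      have := orpVal_eq p hp 0 _ h0 (fun hd => hp.not_isUnit (isUnit_of_dvd_unit hd hu))
      rw [pow_zero, one_mul] at this
      rw [this]; rfl)
  have hord : ∀ (n : ℕ) (q : MvPolynomial (Fin r) K), q ≠ 0 → ¬ p ∣ q →
      E (algebraMap _ F (p ^ n * q)) = n := by
    intro n q hq hpq
    rw [hE _ (mul_ne_zero (pow_ne_zero n hp.ne_zero) hq), orpVal_eq p hp n q hq hpq]
  have h1 : E (algebraMap _ F p) = 1 := by
    have := hord 1 1 one_ne_zero (fun hd => hp.not_isUnit (isUnit_of_dvd_one hd))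
    simpa using this
  exact ⟨{ toQVal := E, surj' := ⟨_, h1⟩ }, hord⟩

theorem ordP_nonneg {E : DVal F} {p : MvPolynomial (Fin r) K} (hp : Irreducible p)
    (h : IsOrdP (F := F) E p) (q : MvPolynomial (Fin r) K) : 0 ≤ E (algebraMap _ F q) := by
  by_cases hq : q = 0
  · subst hq
    rw [map_zero]
    exact E.zero'.ge
  · obtain ⟨n, q', hq0, hpq, rfl⟩ := exists_pow_mul p hp q hq
    rw [h n q' hq0 hpq]
    exact Int.natCast_nonneg n

theorem ordP_unique {E E' : DVal F} {p : MvPolynomial (Fin r) K} (hp : Irreducible p)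
    (h : IsOrdP (F := F) E p) (h' : IsOrdP (F := F) E' p) : E = E' := by
  have key : ∀ q : MvPolynomial (Fin r) K, q ≠ 0 →
      E (algebraMap _ F q) = E' (algebraMap _ F q) := by
    intro q hq
    obtain ⟨n, q', hq0, hpq, rfl⟩ := exists_pow_mul p hp q hq
    rw [h n q' hq0 hpq, h' n q' hq0 hpq]
  refine DVal.ext_of fun f hf => ?_
  obtain ⟨a, b, hb, rfl⟩ := IsFractionRing.div_surjective (A := MvPolynomial (Fin r) K) f
  have hb0 : b ≠ 0 := nonZeroDivisors.ne_zero hb
  have ha0 : a ≠ 0 := by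
    rintro rfl
    simp at hf
  have hinj := IsFractionRing.injective (MvPolynomial (Fin r) K) F
  have ha1 : algebraMap _ F a ≠ 0 := (map_ne_zero_iff _ hinj).2 ha0
  have hb1 : algebraMap _ F b ≠ 0 := (map_ne_zero_iff _ hinj).2 hb0
  rw [show E.v (algebraMap _ F a / algebraMap _ F b) = E.v (algebraMap _ F a) -
    E.v (algebraMap _ F b) from E.toQVal.div ha1 hb1,
    show E'.v (algebraMap _ F a / algebraMap _ F b) = E'.v (algebraMap _ F a) -
    E'.v (algebraMap _ F b) from E'.toQVal.div ha1 hb1, key a ha0, key b hb0]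

theorem ordP_assoc {E : DVal F} {p q : MvPolynomial (Fin r) K}
    (h : IsOrdP (F := F) E p) (hpq : Associated p q) : IsOrdP (F := F) E q := by
  obtain ⟨u, rfl⟩ := hpq
  intro n q' hq' hd
  have h1 : (p * (u : MvPolynomial (Fin r) K)) ^ n * q' =
      p ^ n * ((u : MvPolynomial (Fin r) K) ^ n * q') := by ring
  rw [h1]
  refine h n _ (mul_ne_zero (pow_ne_zero n u.ne_zero) hq') ?_
  intro hd'
  apply hd
  have h2 : p ∣ q' := by
    have hu : IsUnit ((u : MvPolynomial (Fin r) K) ^ n) := u.isUnit.pow n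
    exact (hu.dvd_mul_left).1 hd'
  exact (Units.mul_right_dvd).2 h2

theorem ordP_self {E : DVal F} {p : MvPolynomial (Fin r) K} (hp : Irreducible p)
    (h : IsOrdP (F := F) E p) : E (algebraMap _ F p) = 1 := by
  have := h 1 1 one_ne_zero (fun hd => hp.not_isUnit (isUnit_of_dvd_one hd))
  simpa using this

theorem ordP_of_not_dvd {E : DVal F} {p : MvPolynomial (Fin r) K}
    (h : IsOrdP (F := F) E p) (q : MvPolynomial (Fin r) K) (hq : q ≠ 0) (hpq : ¬ p ∣ q) :
    E (algebraMap _ F q) = 0 := by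
  have := h 0 q hq hpq
  simpa using this

theorem ordP_pos_iff {E : DVal F} {p : MvPolynomial (Fin r) K} (hp : Irreducible p)
    (h : IsOrdP (F := F) E p) (q : MvPolynomial (Fin r) K) (hq : q ≠ 0) :
    0 < E (algebraMap _ F q) ↔ p ∣ q := by
  constructor
  · intro h0
    by_contra hd
    rw [ordP_of_not_dvd h q hq hd] at h0
    exact lt_irrefl _ h0
  · rintro hd
    obtain ⟨n, q', hq0, hpq, rfl⟩ := exists_pow_mul p hp q hq
    rw [h n q' hq0 hpq]
    rcases Nat.eq_zero_or_pos n with rfl | hn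
    · rw [pow_zero, one_mul] at hd
      exact absurd hd hpq
    · exact_mod_cast hn

/-- Homogeneous elements have value `0` (for `p` not a variable): `a` is a unit and `p ∤ X i`
since `X i` is prime and not associated to `p`. -/
theorem ordP_hom {E : DVal F} {p : MvPolynomial (Fin r) K} (hp : Irreducible p)
    (hm : NotMono p) (h : IsOrdP (F := F) E p) (a : K) (m : Fin r → ℤ) :
    E (hom F a m) = 0 := by
  by_cases ha : a = 0
  · subst ha
    unfold hom
    rw [map_zero, zero_mul]
    exact E.zero'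
  have hinj := IsFractionRing.injective (MvPolynomial (Fin r) K) F
  have hC : algebraMap K F a = algebraMap (MvPolynomial (Fin r) K) F (MvPolynomial.C a) := by
    rw [IsScalarTower.algebraMap_apply K (MvPolynomial (Fin r) K) F]
    rfl
  have hu : IsUnit (MvPolynomial.C a : MvPolynomial (Fin r) K) :=
    (isUnit_iff_ne_zero.2 ha).map MvPolynomial.C
  have ha1 : algebraMap K F a ≠ 0 := by
    rw [hC]
    exact (map_ne_zero_iff _ hinj).2 hu.ne_zero
  have hEa : E (algebraMap K F a) = 0 := by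
    rw [hC]
    exact ordP_of_not_dvd h _ hu.ne_zero (fun hd => hp.not_isUnit (isUnit_of_dvd_unit hd hu))
  have ht : ∀ i, tt r K F i ≠ 0 := by
    intro i
    unfold tt
    exact (map_ne_zero_iff _ hinj).2 (MvPolynomial.X_ne_zero i)
  have hEt : ∀ i, E (tt r K F i) = 0 := by
    intro i
    unfold tt
    refine ordP_of_not_dvd h _ (MvPolynomial.X_ne_zero i) ?_
    intro hd
    exact hm i (hp.prime.associated_of_dvd (MvPolynomial.X_prime) hd)
  have h1 : E.toQVal (∏ i, tt r K F i ^ m i) = 0 := by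
    rw [E.toQVal.prod _ _ (fun i _ => zpow_ne_zero _ (ht i))]
    refine Finset.sum_eq_zero fun i _ => ?_
    rw [E.toQVal.zpow (ht i)]
    rw [show E.toQVal (tt r K F i) = 0 from hEt i, mul_zero]
  unfold hom
  have h2 : E.toQVal (algebraMap K F a * ∏ i, tt r K F i ^ m i) =
      E.toQVal (algebraMap K F a) + E.toQVal (∏ i, tt r K F i ^ m i) :=
    E.toQVal.mul ha1 (Finset.prod_ne_zero_iff.2 fun i _ => zpow_ne_zero _ (ht i))
  have h3 : E.toQVal (algebraMap K F a) = 0 := hEa
  rw [h1, h3, add_zero] at h2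
  exact h2

theorem ordP_const {E : DVal F} {p : MvPolynomial (Fin r) K} (hp : Irreducible p)
    (h : IsOrdP (F := F) E p) (a : K) : E (algebraMap K F a) = 0 := by
  by_cases ha : a = 0
  · subst ha
    rw [map_zero]
    exact E.zero'
  have hC : algebraMap K F a = algebraMap (MvPolynomial (Fin r) K) F (MvPolynomial.C a) := by
    rw [IsScalarTower.algebraMap_apply K (MvPolynomial (Fin r) K) F]
    rfl
  have hu : IsUnit (MvPolynomial.C a : MvPolynomial (Fin r) K) :=
    (isUnit_iff_ne_zero.2 ha).map MvPolynomial.C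
  rw [hC]
  exact ordP_of_not_dvd h _ hu.ne_zero (fun hd => hp.not_isUnit (isUnit_of_dvd_unit hd hu))

end WNV
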