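import Pool.Agent.WNV.HOQ
import Pool.Agent.WNV.ORP

/-!
ORQ. `ord_p` (for `p` irreducible, not a variable) is a prime divisor of every chart; conversely a
prime divisor along which all homogeneous elements have value `0` is some `ord_p`.

PROOF of `ordP_prime`. (a) An element `f ≠ 0` of the chart is a Laurent polynomial `lau c`
(`chart_graded`), a sum of homogeneous elements, which have value `0` (`ordP_hom`): `E f ≥ 0` by
`QVal.ge_sum`. (b) Let `E f ≥ 0`, `f ≠ 0`. Write `f = p₁ / q₁` (`exists_div`),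
`p₁ = p^a p₂`, `q₁ = p^b q₂` with `p ∤ p₂, q₂` (`exists_pow_mul`); `E f = a - b ≥ 0`, so
`f = (p^(a-b) p₂) / q₂` with `E q₂ = 0`. Both polynomials are Laurent polynomials (`lau_of_poly`);
`lau_clear` gives homogeneous nonzero `s₁, s₂` in the chart with `s₁ p^(a-b) p₂`, `s₂ q₂` in the
chart, and `f = (s₁ s₂ p^(a-b) p₂) / (s₁ s₂ q₂)` where `E (s₁ s₂ q₂) = 0`.

PROOF of `prime_ordP`. `E` is nonnegative on Laurent polynomials (sums of homogeneous elements).
Some `f` has `E f = 1`; `f = p₁/q₁`, so `E p₁ ≥ 1 > 0`. `p₁` is a product of irreducibles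
(`WfDvdMonoid.exists_factors` / `UniqueFactorizationMonoid`), a unit has value `0`
(`MvPolynomial.isUnit_iff_eq_C_of_isReduced` or: its inverse also has value `≥ 0`), so some
irreducible factor `p` has `E p > 0`. `p` is not a variable because `E (X i) = 0` (homogeneous),
and associated elements have the same value.
Claim: `p ∤ q`, `q ≠ 0` implies `E q = 0`. Let `e = E p > 0`, suppose `e' = E q > 0`. Then
`f = p^e' / q^e` has `E f = 0`, so `f = a / b` with `a, b` in the chart, `b ≠ 0`, `E b = 0`: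
`p^e' b = q^e a`. Multiply by a monomial `t^M` so that `t^M a = a'`, `t^M b = b'` are polynomials
(`exists_poly`): `p^e' b' = q^e a'` in `R` (injectivity of `algebraMap`). As `p` is prime and
`p ∤ q`, `p^e' ∣ a'` (`Prime.pow_dvd_of_dvd_mul_left`), `a' = p^e' a''`, so `b' = q^e a''` and
`E b = E b' = e E q + E a'' > 0`, contradiction.
Consequently `E (p^n q) = n e` for `p ∤ q`, all values are divisible by `e`, so `e = 1`
(`surj'`), i.e. `IsOrdP E p`.
-/

set_option linter.unusedSectionVars false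

namespace WNV

variable {r N : ℕ} {K F : Type} [Field K] [Algebra ℂ K] [Field F] [Algebra ℂ F]
    [Algebra K F] [IsScalarTower ℂ K F]
    [Algebra (MvPolynomial (Fin r) K) F] [IsScalarTower K (MvPolynomial (Fin r) K) F]
    [IsFractionRing (MvPolynomial (Fin r) K) F]

theorem ordP_prime (x : Fin (N + 1) → F)
    (hx : ∀ j, ∃ (a : K) (m : Fin r → ℤ), a ≠ 0 ∧ x j = hom F a m) (i : Fin (N + 1))
    [IsFractionRing (chart x i) F] (E : DVal F) (p : MvPolynomial (Fin r) K)
    (hp : Irreducible p) (hm : NotMono p) (h : IsOrdP (F := F) E p) :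
    IsPrimeOf (chart x i) E := by
  refine ⟨?_, ?_⟩
  · intro f hf hf0
    obtain ⟨c, hc, -⟩ := chart_graded x hx i f hf
    have h1 : Ge E 0 f := by
      rw [hc]
      unfold lau Finsupp.sum
      refine E.toQVal.ge_sum _ _ fun m _ => Or.inr ?_
      exact (ordP_hom hp hm h (c m) m).ge
    rcases h1 with h1 | h1
    · exact absurd h1 hf0
    · exact h1
  · intro f hf0 hfE
    obtain ⟨p₁, q₁, hp1, hq1, hfd⟩ := exists_div (r := r) (K := K) f hf0
    obtain ⟨a, p₂, hp2, hpp2, hpa⟩ := exists_pow_mul p hp p₁ hp1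
    obtain ⟨b, q₂, hq2, hpq2, hqb⟩ := exists_pow_mul p hp q₁ hq1
    have hinj : Function.Injective (algebraMap (MvPolynomial (Fin r) K) F) :=
      IsFractionRing.injective _ _
    have hne : ∀ q : MvPolynomial (Fin r) K, q ≠ 0 → algebraMap _ F q ≠ 0 := fun q hq =>
      (map_ne_zero_iff _ hinj).2 hq
    have e1 : E (algebraMap _ F p₁) = a := by rw [hpa]; exact h a p₂ hp2 hpp2
    have e2 : E (algebraMap _ F q₁) = b := by rw [hqb]; exact h b q₂ hq2 hpq2
    have hab : b ≤ a := by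
      rw [hfd, E.toQVal.div (hne _ hp1) (hne _ hq1), e1, e2] at hfE
      omega
    obtain ⟨d, rfl⟩ := Nat.exists_eq_add_of_le hab
    have hf2 : f = algebraMap _ F (p ^ d * p₂) / algebraMap _ F q₂ := by
      rw [hfd, hpa, hqb, pow_add, mul_assoc (p ^ b), map_mul, map_mul _ (p ^ b) q₂]
      exact mul_div_mul_left _ _ (hne _ (pow_ne_zero _ hp.ne_zero))
    obtain ⟨c₁, hc1, -⟩ := lau_of_poly (F := F) (p ^ d * p₂)
    obtain ⟨c₂, hc2, -⟩ := lau_of_poly (F := F) q₂
    obtain ⟨a₁, m₁, ha1, hs1, hu1⟩ := lau_clear x hx i c₁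
    obtain ⟨a₂, m₂, ha2, hs2, hu2⟩ := lau_clear x hx i c₂
    have n1 : lau F c₂ ≠ 0 := by rw [← hc2]; exact hne _ hq2
    have n2 : hom F a₁ m₁ ≠ 0 := hom_ne_zero ha1 m₁
    have n3 : hom F a₂ m₂ ≠ 0 := hom_ne_zero ha2 m₂
    refine ⟨lau F c₁ * hom F a₁ m₁ * hom F a₂ m₂, mul_mem hu1 hs2,
      lau F c₂ * hom F a₂ m₂ * hom F a₁ m₁, mul_mem hu2 hs1,
      mul_ne_zero (mul_ne_zero n1 n3) n2, ?_, ?_⟩
    · rw [E.toQVal.mul (mul_ne_zero n1 n3) n2, E.toQVal.mul n1 n3,
        ordP_hom hp hm h, ordP_hom hp hm h, ← hc2, ordP_of_not_dvd h q₂ hq2 hpq2]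
      rfl
    · rw [hf2, hc1, hc2]
      field_simp

end WNV
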