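import Mathlib

/-!
DRV. The partial derivatives with respect to a transcendence basis `y` of `K / ℂ`.

PROOF. `y` is algebraically independent, so `ℂ(y) = IntermediateField.adjoin ℂ (range y)` (or the
fraction field of `MvPolynomial (Fin c) ℂ`) has the partial derivatives `∂/∂y_j` (localise
`MvPolynomial.pderiv j`); `K / ℂ(y)` is algebraic and separable (characteristic `0`), so
derivations extend uniquely. In Mathlib: `Algebra.FormallyEtale.of_isSeparable`, for a formally
etale extension `Ω[K/ℂ] = K ⊗ Ω[ℂ(y)/ℂ]` (`KaehlerDifferential.tensorKaehlerEquivOfFormallyEtale`),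
and `Ω` of a polynomial ring is free on the `D y_i` (`KaehlerDifferential.mvPolynomialBasis`);
a fraction field is formally etale over the polynomial ring (`FormallyEtale.of_isLocalization`),
so `K` is formally etale over `MvPolynomial (Fin c) ℂ` (`FormallyEtale.comp`) and
`K ⊗_{ℂ[y]} Ω[ℂ[y]/ℂ] ≃ Ω[K/ℂ]`. The derivation `d` is the composition of the universal derivation
with the `K`-linear map `Ω[K/ℂ] → K` dual to `D y_j`.
ALTERNATIVE: dual numbers. `K → K[ε]`: lift `ℂ[y] → K[ε]`, `y_k ↦ y_k + δ_{jk} ε`, along the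
formally etale map `ℂ[y] → K` (`Algebra.FormallyEtale.lift` for the square zero ideal `ε`).
-/

namespace WNV

open scoped IntermediateField.algebraAdjoinAdjoin TensorProduct

private theorem drvEtale {K : Type} [Field K] [Algebra ℂ K] {c : ℕ} (y : Fin c → K)
    (hy : IsTranscendenceBasis ℂ y) :
    Algebra.FormallyEtale (Algebra.adjoin ℂ (Set.range y)) K := by
  have h1 : Algebra.FormallyEtale (Algebra.adjoin ℂ (Set.range y))
      (IntermediateField.adjoin ℂ (Set.range y)) := .of_isLocalization (nonZeroDivisors _)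
  have h2 : Algebra.IsAlgebraic (IntermediateField.adjoin ℂ (Set.range y)) K := hy.isAlgebraic_field
  have h3 : Algebra.IsSeparable (IntermediateField.adjoin ℂ (Set.range y)) K := inferInstance
  have h4 : Algebra.FormallyEtale (IntermediateField.adjoin ℂ (Set.range y)) K :=
    Algebra.FormallyEtale.of_isSeparable _ K
  exact .comp _ (IntermediateField.adjoin ℂ (Set.range y)) _

/-- The partial derivative on the polynomial ring. -/
private noncomputable def drvPart {K : Type} [Field K] [Algebra ℂ K] {c : ℕ} (y : Fin c → K)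
    (hy : AlgebraicIndependent ℂ y) (j : Fin c) :
    Derivation ℂ (Algebra.adjoin ℂ (Set.range y)) K :=
  Derivation.mk' ((Algebra.adjoin ℂ (Set.range y)).val.toLinearMap ∘ₗ hy.aevalEquiv.toLinearMap ∘ₗ
    (MvPolynomial.pderiv j).toLinearMap ∘ₗ hy.aevalEquiv.symm.toLinearMap) (by
    intro a b
    show ((hy.aevalEquiv (MvPolynomial.pderiv j (hy.aevalEquiv.symm (a * b)))) : K) =
      (a : K) * ((hy.aevalEquiv (MvPolynomial.pderiv j (hy.aevalEquiv.symm b))) : K) +
        (b : K) * ((hy.aevalEquiv (MvPolynomial.pderiv j (hy.aevalEquiv.symm a))) : K)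
    rw [map_mul, Derivation.leibniz, smul_eq_mul, smul_eq_mul, map_add, map_mul, map_mul,
      AlgEquiv.apply_symm_apply, AlgEquiv.apply_symm_apply]
    rfl)

private theorem drvPart_apply {K : Type} [Field K] [Algebra ℂ K] {c : ℕ} (y : Fin c → K)
    (hy : AlgebraicIndependent ℂ y) (j k : Fin c) (hk : y k ∈ Algebra.adjoin ℂ (Set.range y)) :
    drvPart y hy j ⟨y k, hk⟩ = if k = j then 1 else 0 := by
  have h1 : hy.aevalEquiv (MvPolynomial.X k) = ⟨y k, hk⟩ := by
    apply Subtype.ext
    rw [hy.aevalEquiv_apply_coe]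
    simp
  rw [← h1]
  show ((hy.aevalEquiv (MvPolynomial.pderiv j (hy.aevalEquiv.symm (hy.aevalEquiv
    (MvPolynomial.X k))))) : K) = _
  rw [AlgEquiv.symm_apply_apply, MvPolynomial.pderiv_X]
  by_cases h : k = j
  · subst h
    simp
  · rw [if_neg h, Pi.single_apply, if_neg h]
    simp

theorem exists_deriv {K : Type} [Field K] [Algebra ℂ K] {c : ℕ} (y : Fin c → K)
    (hy : IsTranscendenceBasis ℂ y) (j : Fin c) :
    ∃ d : Derivation ℂ K K, ∀ k, d (y k) = if k = j then 1 else 0 := by
  have h1 := drvEtale y hy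
  let l : KaehlerDifferential ℂ K →ₗ[K] K :=
    ((drvPart y hy.1 j).liftKaehlerDifferential.liftBaseChange K) ∘ₗ
      (KaehlerDifferential.tensorKaehlerEquivOfFormallyEtale ℂ
        (Algebra.adjoin ℂ (Set.range y)) K).symm.toLinearMap
  refine ⟨l.compDer (KaehlerDifferential.D ℂ K), fun k => ?_⟩
  have hk : y k ∈ Algebra.adjoin ℂ (Set.range y) := Algebra.subset_adjoin ⟨k, rfl⟩
  rw [← drvPart_apply y hy.1 j k hk]
  have h2 := KaehlerDifferential.tensorKaehlerEquivOfFormallyEtale_symm_D_algebraMap ℂ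
    (Algebra.adjoin ℂ (Set.range y)) K ⟨y k, hk⟩
  show l (KaehlerDifferential.D ℂ K (y k)) = _
  have h3 : algebraMap (Algebra.adjoin ℂ (Set.range y)) K ⟨y k, hk⟩ = y k := rfl
  rw [h3] at h2
  show (drvPart y hy.1 j).liftKaehlerDifferential.liftBaseChange K
    ((KaehlerDifferential.tensorKaehlerEquivOfFormallyEtale ℂ
        (Algebra.adjoin ℂ (Set.range y)) K).symm (KaehlerDifferential.D ℂ K (y k))) = _
  rw [h2, LinearMap.liftBaseChange_tmul, one_smul, Derivation.liftKaehlerDifferential_comp_D]

end WNV
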