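import Pool.Agent.WNV.ODB

/-!
PAI. Pairing of `n`-forms with `n` derivations.

`pair d : ⋀^n Ω → F` is the linear map with `pair d (θ_1 ∧ … ∧ θ_n) = det (d_i(θ_j))`, where
`d_i(D x) = d_i x` (`Derivation.liftKaehlerDifferential`).
CONSTRUCTION: `alternatingMapLinearEquiv (Matrix.detRowAlternating.compLinearMap
(LinearMap.pi fun i => (d i).liftKaehlerDifferential))` (rows `j`, columns `i`; the determinant
of the transpose is the same). Prove `exists_pair`.

PROOF of `ordGE_pair`: closure induction; for a generator `f • ιMulti (D x)`: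
`pair = f * det (d_i (x_j))`, a sum of products (`Matrix.det_apply`) of elements with value `≥ 0`
(`QVal.ge_sum`, `ge_mul`, finite products), `d_i (x_j)` has value `≥ 0` by hypothesis (`d_i 0 = 0`).
-/

set_option linter.unusedSectionVars false

namespace WNV

open exteriorPower

variable {F : Type} [Field F] [Algebra ℂ F] {n : ℕ}

theorem exists_pair (d : Fin n → Derivation ℂ F F) :
    ∃ ℓ : (⋀[F]^n (KaehlerDifferential ℂ F)) →ₗ[F] F, ∀ θ : Fin n → KaehlerDifferential ℂ F,
      ℓ (ιMulti F n θ) = Matrix.det (Matrix.of fun i j => (d i).liftKaehlerDifferential (θ j)) := by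
  refine ⟨exteriorPower.alternatingMapLinearEquiv
    ((Matrix.detRowAlternating (R := F) (n := Fin n)).compLinearMap
      (LinearMap.pi fun i => (d i).liftKaehlerDifferential)), fun θ => ?_⟩
  rw [exteriorPower.alternatingMapLinearEquiv_apply_ιMulti, AlternatingMap.compLinearMap_apply]
  rw [← Matrix.det_transpose]
  rfl

/-- A form of order `≥ a` takes values of order `≥ a` on derivations preserving the
valuation ring. -/
theorem ordGE_pair (E : QVal F) (d : Fin n → Derivation ℂ F F)
    (hd : ∀ i, ∀ f, Ge E 0 f → Ge E 0 (d i f))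
    (ℓ : (⋀[F]^n (KaehlerDifferential ℂ F)) →ₗ[F] F)
    (hℓ : ∀ θ : Fin n → KaehlerDifferential ℂ F,
      ℓ (ιMulti F n θ) = Matrix.det (Matrix.of fun i j => (d i).liftKaehlerDifferential (θ j)))
    (ω : ⋀[F]^n (KaehlerDifferential ℂ F)) (a : ℤ) (h : OrdGE E ω a) : Ge E a (ℓ ω) := by
  refine AddSubgroup.closure_induction (p := fun ω _ => Ge E a (ℓ ω)) ?_ ?_ ?_ ?_ h
  · rintro τ ⟨f, x, hf, hx, rfl⟩
    rw [map_smul, hℓ, smul_eq_mul, Matrix.det_apply]
    have hprod : ∀ (s : Finset (Fin n)) (g : Fin n → F), (∀ i, Ge E 0 (g i)) →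
        Ge E 0 (∏ i ∈ s, g i) := by
      intro s g hg
      induction s using Finset.induction_on with
      | empty => simpa using E.ge_one
      | insert b s hb ih =>
        rw [Finset.prod_insert hb]
        simpa using E.ge_mul (hg b) ih
    have hdet : Ge E 0 (∑ σ : Equiv.Perm (Fin n), Equiv.Perm.sign σ •
        ∏ i, (Matrix.of fun i j => (d i).liftKaehlerDifferential
          (KaehlerDifferential.D ℂ F (x j))) (σ i) i) := by
      refine E.ge_sum _ _ fun σ _ => ?_
      have h1 : Ge E 0 (∏ i, (Matrix.of fun i j => (d i).liftKaehlerDifferential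
          (KaehlerDifferential.D ℂ F (x j))) (σ i) i) := by
        refine hprod _ _ fun i => ?_
        rw [Matrix.of_apply, Derivation.liftKaehlerDifferential_comp_D]
        exact hd _ _ (hx i)
      rcases Int.units_eq_one_or (Equiv.Perm.sign σ) with h2 | h2
      · rw [h2, one_smul]; exact h1
      · rw [h2, Units.neg_smul, one_smul]; exact E.ge_neg h1
    simpa using E.ge_mul hf hdet
  · rw [map_zero]; exact E.ge_zero a
  · intro x y _ _ hx hy
    rw [map_add]; exact E.ge_add hx hy
  · intro x _ hx
    rw [map_neg]; exact E.ge_neg hx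

end WNV
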