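import Pool.Agent.WNV.VAL

/-!
GVL. Values of a Gauss valuation on homogeneous elements, and its uniqueness.

PROOF. `gauss_const`: `algebraMap K F a = algebraMap R F (C a)` (scalar tower), support `{0}`.
`gauss_tt`: `X i` has support `{single i 1}` and coefficient `1`.
`gauss_hom`: multiplicativity (`QVal.mul`, `QVal.prod`, `QVal.zpow`).
`gauss_le`: this is the first half of `IsGauss` rewritten with `gauss_hom`.
`gauss_unique`: two valuations which agree on the image of `R` agree (every `f ≠ 0` is `a / b`,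
`IsFractionRing.div_surjective`); on `p ≠ 0` both are the minimum of the same finite family.
-/

set_option linter.unusedSectionVars false

namespace WNV

variable {r : ℕ} {K F : Type} [Field K] [Algebra ℂ K] [Field F] [Algebra ℂ F]
    [Algebra K F] [IsScalarTower ℂ K F]
    [Algebra (MvPolynomial (Fin r) K) F] [IsScalarTower K (MvPolynomial (Fin r) K) F]
    [IsFractionRing (MvPolynomial (Fin r) K) F]

theorem tt_ne_zero (i : Fin r) : tt r K F i ≠ 0 := by
  unfold tt
  exact (map_ne_zero_iff _ (IsFractionRing.injective (MvPolynomial (Fin r) K) F)).2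
    (MvPolynomial.X_ne_zero i)

theorem hom_ne_zero {a : K} (ha : a ≠ 0) (m : Fin r → ℤ) : hom F a m ≠ 0 := by
  unfold hom
  refine mul_ne_zero ((map_ne_zero_iff _ (algebraMap K F).injective).2 ha) ?_
  exact Finset.prod_ne_zero_iff.2 fun i _ => zpow_ne_zero _ (tt_ne_zero i)

theorem hom_mul (a b : K) (m m' : Fin r → ℤ) :
    hom F a m * hom F b m' = hom F (a * b) (m + m') := by
  unfold hom
  have h : ∏ i, tt r K F i ^ (m + m') i = (∏ i, tt r K F i ^ m i) * ∏ i, tt r K F i ^ m' i := by
    rw [← Finset.prod_mul_distrib]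
    exact Finset.prod_congr rfl fun i _ => by rw [Pi.add_apply, zpow_add₀ (tt_ne_zero i)]
  rw [h, map_mul]
  ring

theorem hom_zero_right (a : K) : hom F a (0 : Fin r → ℤ) = algebraMap K F a := by
  unfold hom
  simp

theorem hom_inv {a : K} (m : Fin r → ℤ) : (hom F a m)⁻¹ = hom F a⁻¹ (-m) := by
  unfold hom
  rw [mul_inv, map_inv₀, ← Finset.prod_inv_distrib]
  congr 1
  exact Finset.prod_congr rfl fun i _ => by rw [Pi.neg_apply, zpow_neg]

/-- A monomial of a polynomial is homogeneous. -/
theorem algebraMap_monomial (s : Fin r →₀ ℕ) (a : K) :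
    algebraMap (MvPolynomial (Fin r) K) F (MvPolynomial.monomial s a)
      = hom F a (fun i => (s i : ℤ)) := by
  unfold hom tt
  rw [MvPolynomial.monomial_eq, map_mul, ← MvPolynomial.algebraMap_eq,
    ← IsScalarTower.algebraMap_apply K (MvPolynomial (Fin r) K) F,
    Finsupp.prod_fintype _ _ (fun i => by simp), map_prod]
  congr 1
  exact Finset.prod_congr rfl fun i _ => by rw [map_pow, zpow_natCast]

theorem qval_hom (E : QVal F) {a : K} (ha : a ≠ 0) (m : Fin r → ℤ) :
    E (hom F a m) = E (algebraMap K F a) + ∑ i, m i * E (tt r K F i) := by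
  unfold hom
  rw [E.mul ((map_ne_zero_iff _ (algebraMap K F).injective).2 ha)
      (Finset.prod_ne_zero_iff.2 fun i _ => zpow_ne_zero _ (tt_ne_zero i)),
    E.prod _ _ (fun i _ => zpow_ne_zero _ (tt_ne_zero i))]
  congr 1
  exact Finset.sum_congr rfl fun i _ => E.zpow (tt_ne_zero i) _

theorem gauss_const {G : QVal F} {w : QVal K} {v : Fin r → ℤ} (h : IsGauss (F := F) G w v)
    (a : K) : G (algebraMap K F a) = w a := by
  classical
  by_cases ha : a = 0
  · subst ha
    rw [map_zero, G.zero, w.zero]
  · have hC : (MvPolynomial.C a : MvPolynomial (Fin r) K) ≠ 0 := by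
      simpa using ha
    obtain ⟨s, hs, h1⟩ := (h _ hC).2
    have hs0 : s = 0 := by
      rw [MvPolynomial.mem_support_iff, MvPolynomial.coeff_C] at hs
      by_contra hne
      exact hs (if_neg (fun h0 => hne h0.symm))
    subst hs0
    rw [← MvPolynomial.algebraMap_eq,
      ← IsScalarTower.algebraMap_apply K (MvPolynomial (Fin r) K) F,
      MvPolynomial.algebraMap_eq, MvPolynomial.coeff_C, if_pos rfl] at h1
    simpa using h1

theorem gauss_tt {G : QVal F} {w : QVal K} {v : Fin r → ℤ} (h : IsGauss (F := F) G w v)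
    (i : Fin r) : G (tt r K F i) = v i := by
  classical
  obtain ⟨s, hs, h1⟩ := (h _ (MvPolynomial.X_ne_zero i)).2
  have hs0 : s = Finsupp.single i 1 := by
    rw [MvPolynomial.mem_support_iff, MvPolynomial.coeff_X] at hs
    by_contra hne
    exact hs (if_neg (fun h0 => hne h0.symm))
  subst hs0
  rw [MvPolynomial.coeff_X, if_pos rfl, w.one, zero_add] at h1
  unfold tt
  rw [h1, Finset.sum_eq_single i]
  · simp
  · intro j _ hj
    rw [Finsupp.single_apply, if_neg (fun h0 => hj h0.symm)]
    simp
  · intro hi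
    exact absurd (Finset.mem_univ i) hi

theorem gauss_hom {G : QVal F} {w : QVal K} {v : Fin r → ℤ} (h : IsGauss (F := F) G w v)
    {a : K} (ha : a ≠ 0) (m : Fin r → ℤ) : G (hom F a m) = w a + ∑ i, m i * v i := by
  rw [qval_hom G ha, gauss_const h]
  congr 1
  exact Finset.sum_congr rfl fun i _ => by rw [gauss_tt h]

theorem gauss_le {G : QVal F} {w : QVal K} {v : Fin r → ℤ} (h : IsGauss (F := F) G w v)
    (p : MvPolynomial (Fin r) K) (hp : p ≠ 0) (s : Fin r →₀ ℕ) (hs : s ∈ p.support) :
    G (algebraMap _ F p) ≤ G (hom F (p.coeff s) (fun i => (s i : ℤ))) := by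
  rw [gauss_hom h (MvPolynomial.mem_support_iff.1 hs)]
  exact (h p hp).1 s hs

private theorem gvl_le {G G' : QVal F} {w : QVal K} {v : Fin r → ℤ}
    (h : IsGauss (F := F) G w v) (h' : IsGauss (F := F) G' w v) (p : MvPolynomial (Fin r) K)
    (hp : p ≠ 0) : G (algebraMap _ F p) ≤ G' (algebraMap _ F p) := by
  obtain ⟨s, hs, h1⟩ := (h' p hp).2
  rw [h1]
  exact (h p hp).1 s hs

theorem gauss_unique {G G' : QVal F} {w : QVal K} {v : Fin r → ℤ}
    (h : IsGauss (F := F) G w v) (h' : IsGauss (F := F) G' w v) (f : F) : G f = G' f := by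
  have key : ∀ p : MvPolynomial (Fin r) K, G (algebraMap _ F p) = G' (algebraMap _ F p) := by
    intro p
    by_cases hp : p = 0
    · subst hp
      rw [map_zero, G.zero, G'.zero]
    · exact le_antisymm (gvl_le h h' p hp) (gvl_le h' h p hp)
  obtain ⟨a, b, hb, rfl⟩ := IsFractionRing.div_surjective (A := MvPolynomial (Fin r) K) f
  have hb0 : algebraMap (MvPolynomial (Fin r) K) F b ≠ 0 :=
    (map_ne_zero_iff _ (IsFractionRing.injective (MvPolynomial (Fin r) K) F)).2
      (nonZeroDivisors.ne_zero hb)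
  by_cases ha : algebraMap (MvPolynomial (Fin r) K) F a = 0
  · rw [ha, zero_div, G.zero, G'.zero]
  · rw [G.div ha hb0, G'.div ha hb0, key, key]

/-- Toric valuations are the Gauss valuations over the trivial valuation of `K`. -/
theorem isToric_iff (E : F → ℤ) :
    IsToric r K E ↔ ∃ v : Fin r → ℤ, IsGauss (F := F) E (QVal.triv K) v := by
  unfold IsToric IsGauss
  simp only [QVal.triv_apply, zero_add]

end WNV
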