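import Pool.Agent.WNV.GAU
import Pool.Agent.WNV.GVL

/-!
TOR. Existence of the normalised toric valuation attached to a primitive vector.

PROOF. `exists_gauss (QVal.triv K) v` gives `G`; by `gauss_hom` the element `hom F 1 u` has
value `Σ u_i v_i = 1`, so `G` is normalised.
The scalar tower instance `IsScalarTower ℂ (MvPolynomial (Fin r) K) F` needed for `exists_gauss`
follows from the towers `ℂ → K → F`, `K → R → F`:
`IsScalarTower.of_algebraMap_eq'` and `MvPolynomial.algebraMap_eq`.
`gauss_of_primitive` etc.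
-/

set_option linter.unusedSectionVars false

namespace WNV

variable {r : ℕ} {K F : Type} [Field K] [Algebra ℂ K] [Field F] [Algebra ℂ F]
    [Algebra K F] [IsScalarTower ℂ K F]
    [Algebra (MvPolynomial (Fin r) K) F] [IsScalarTower K (MvPolynomial (Fin r) K) F]
    [IsFractionRing (MvPolynomial (Fin r) K) F]

variable (r K F) in
theorem scalarTower_poly : IsScalarTower ℂ (MvPolynomial (Fin r) K) F := by
  refine IsScalarTower.of_algebraMap_eq fun c => ?_
  have h1 : algebraMap ℂ (MvPolynomial (Fin r) K) c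
      = algebraMap K (MvPolynomial (Fin r) K) (algebraMap ℂ K c) := rfl
  rw [h1, ← IsScalarTower.algebraMap_apply K (MvPolynomial (Fin r) K) F,
    ← IsScalarTower.algebraMap_apply ℂ K F]

variable (K F) in
theorem exists_toric (v u : Fin r → ℤ) (h : ∑ i, u i * v i = 1) :
    ∃ E : DVal F, IsGauss (F := F) E (QVal.triv K) v := by
  haveI : IsScalarTower ℂ (MvPolynomial (Fin r) K) F := scalarTower_poly r K F
  obtain ⟨G, hG⟩ := exists_gauss (F := F) (QVal.triv K) v
  refine ⟨⟨G, hom F (1 : K) u, ?_⟩, hG⟩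
  have h1 := gauss_hom hG (one_ne_zero : (1 : K) ≠ 0) u
  rw [QVal.triv_apply, zero_add, h] at h1
  exact h1

/-- The vector of a normalised toric valuation is primitive: `Σ u_i v_i = 1` for some `u`.
PROOF. Otherwise all `v_i` are divisible by some `d ≥ 2` (or all are `0`), so all the values are
divisible by `d`, contradicting `surj'`. (The set `{Σ u_i v_i}` is a subgroup `dℤ` of `ℤ`,
`Int.subgroup_cyclic`; every value `E f` lies in it, since `E (algebraMap p)` does.) -/
theorem primitive_of_toric (E : DVal F) (v : Fin r → ℤ)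
    (h : IsGauss (F := F) E (QVal.triv K) v) : ∃ u : Fin r → ℤ, ∑ i, u i * v i = 1 := by
  obtain ⟨a, ha0, ha⟩ := E.exists_unif
  obtain ⟨p, q, hq, rfl⟩ := IsFractionRing.div_surjective (A := MvPolynomial (Fin r) K) a
  have hq0 : q ≠ 0 := nonZeroDivisors.ne_zero hq
  have hp0 : p ≠ 0 := by
    rintro rfl
    simp at ha0
  have hinj := IsFractionRing.injective (MvPolynomial (Fin r) K) F
  have hq1 : algebraMap (MvPolynomial (Fin r) K) F q ≠ 0 := (map_ne_zero_iff _ hinj).2 hq0
  have hp1 : algebraMap (MvPolynomial (Fin r) K) F p ≠ 0 := (map_ne_zero_iff _ hinj).2 hp0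
  obtain ⟨s, -, hs⟩ := (h p hp0).2
  obtain ⟨t, -, ht⟩ := (h q hq0).2
  have hdiv := E.toQVal.div hp1 hq1
  rw [QVal.triv_apply, zero_add] at hs ht
  refine ⟨fun i => (s i : ℤ) - t i, ?_⟩
  have h2 : ∑ i, ((s i : ℤ) - t i) * v i = ∑ i, (s i : ℤ) * v i - ∑ i, (t i : ℤ) * v i := by
    rw [← Finset.sum_sub_distrib]
    exact Finset.sum_congr rfl fun i _ => sub_mul _ _ _
  rw [h2, ← hs, ← ht, ← hdiv]
  exact ha

end WNV
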