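import Pool.Agent.WNV.DRG
import Pool.Agent.WNV.DRV
import Pool.Agent.WNV.PAI
import Pool.Agent.WNV.LGW
import Pool.Agent.WNV.TOR

/-!
UPB. The order of `ω₀ = form r F y = dy_1 ∧ … ∧ dy_c ∧ dt_1/t_1 ∧ … ∧ dt_r/t_r` along `ord_p` is
`0`, along a toric valuation it is `-1`.

PROOF. By `exists_deriv` there are derivations `d_j` of `K` with `d_j y_k = δ_{jk}`; extend them to
`F` with `e = 0` (`exists_extend`); for `i : Fin r` let `T_i` be the extension of `0` with
`e = Pi.single i 1`. The matrix of the `c + r` derivations against the `c + r` entries of `ω₀` is the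
identity (check on `Fin.addCases`/`Fin.append_left`, `Fin.append_right`), with determinant `1`.
(a) `form_ordP`: the derivations preserve the valuation ring of `ord_p` (`ordP_deriv`), so if
`OrdGE E ω₀ 1` then `Ge E 1 (ℓ ω₀) = Ge E 1 1` (`ordGE_pair`), false. `OrdGE E ω₀ 0`: the entries
`D (algebraMap (y j))` and `t_j⁻¹ • D t_j` are in `RegDiff E`, as `E (y j) = 0` (`ordP_const`)
and `E (t_j) = 0 = E (t_j⁻¹)` (`ordP_hom` with `t_j = hom 1 (Pi.single j 1)`); `ordGE_reg`.
(b) `form_toric`: `v` has `Σ u_i v_i = 1` (`primitive_of_toric`), so some `v_{j0} ≠ 0`. Let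
`s = hom F 1 u`, `E s = 1`, and replace `T_{j0}` by `T' = s⁻¹ • D_v`, `D_v` the extension of `0` with
`e = v`. All derivations preserve the valuation ring: `toric_deriv` and, for `T'`, `toric_euler'`
(`E s⁻¹ = -1`). The matrix is the identity with the row of `T'` replaced by
`s⁻¹ (0, …, 0, v_1, …, v_r)`, its determinant is `s⁻¹ v_{j0}` (`Matrix.det_updateRow_...`: the
determinant of `updateRow 1 i b` is `b i`; `Matrix.det_eq_of_...` or `Matrix.updateRow` +
`Matrix.cramer_one`/`Matrix.cramer_transpose_row_self`), which has value `-1`. If `OrdGE E ω₀ 0`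
then `Ge E 0 (s⁻¹ v_{j0})`, false. `OrdGE E ω₀ (-1)` is `ordGE_log` (entries `D (y j)` are regular
since `E (y j) = 0` by `gauss_const`, the others logarithmic).
-/

set_option linter.unusedSectionVars false

namespace WNV

variable {c r : ℕ} {K F : Type} [Field K] [Algebra ℂ K] [Field F] [Algebra ℂ F]
    [Algebra K F] [IsScalarTower ℂ K F]
    [Algebra (MvPolynomial (Fin r) K) F] [IsScalarTower K (MvPolynomial (Fin r) K) F]
    [IsFractionRing (MvPolynomial (Fin r) K) F]

/-- the entries of the matrix for an extended derivation -/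
private theorem upb_entry1 (y : Fin c → K) (D : Derivation ℂ F F) (j : Fin c) :
    D.liftKaehlerDifferential (Fin.append
      (fun j => KaehlerDifferential.D ℂ F (algebraMap K F (y j)))
      (fun j => (tt r K F j)⁻¹ • KaehlerDifferential.D ℂ F (tt r K F j)) (Fin.castAdd r j)) =
      D (algebraMap K F (y j)) := by
  rw [Fin.append_left, Derivation.liftKaehlerDifferential_comp_D]

private theorem upb_entry2 (y : Fin c → K) (D : Derivation ℂ F F) (e : Fin r → ℤ)
    (h2 : ∀ i, D (tt r K F i) = (e i : F) * tt r K F i) (j : Fin r) :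
    D.liftKaehlerDifferential (Fin.append
      (fun j => KaehlerDifferential.D ℂ F (algebraMap K F (y j)))
      (fun j => (tt r K F j)⁻¹ • KaehlerDifferential.D ℂ F (tt r K F j)) (Fin.natAdd c j)) =
      (e j : F) := by
  rw [Fin.append_right, map_smul, Derivation.liftKaehlerDifferential_comp_D, h2, smul_eq_mul]
  have ht : tt r K F j ≠ 0 := tt_ne_zero j
  field_simp

variable (r F) in
private theorem upb_basis (y : Fin c → K) (hy : IsTranscendenceBasis ℂ y) :
    ∃ dd : Fin (c + r) → Derivation ℂ F F,
      (∀ i, ∃ (d : Derivation ℂ K K) (e : Fin r → ℤ),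
        (∀ a, dd i (algebraMap K F a) = algebraMap K F (d a)) ∧
        ∀ k, dd i (tt r K F k) = (e k : F) * tt r K F k) ∧
      ∀ i j, (dd i).liftKaehlerDifferential (Fin.append
        (fun j => KaehlerDifferential.D ℂ F (algebraMap K F (y j)))
        (fun j => (tt r K F j)⁻¹ • KaehlerDifferential.D ℂ F (tt r K F j)) j) =
        (1 : Matrix (Fin (c + r)) (Fin (c + r)) F) i j := by
  classical
  choose d hd using fun j => exists_deriv y hy j
  choose A hA1 hA2 using fun j => exists_extend (r := r) (F := F) (d j) (0 : Fin r → ℤ)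
  choose B hB1 hB2 using fun i => exists_extend (r := r) (K := K) (F := F) 0 (Pi.single i 1 : Fin r → ℤ)
  refine ⟨Fin.append A B, ?_, ?_⟩
  · intro i
    refine Fin.addCases (fun i => ?_) (fun i => ?_) i
    · refine ⟨d i, 0, ?_, ?_⟩
      · rw [Fin.append_left]
        exact hA1 i
      · rw [Fin.append_left]
        exact hA2 i
    · refine ⟨0, Pi.single i 1, ?_, ?_⟩
      · rw [Fin.append_right]
        exact hB1 i
      · rw [Fin.append_right]
        exact hB2 i
  · intro i j
    refine Fin.addCases (fun i => ?_) (fun i => ?_) i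
    · rw [Fin.append_left]
      refine Fin.addCases (fun j => ?_) (fun j => ?_) j
      · rw [upb_entry1, hA1, hd, Matrix.one_apply]
        by_cases hij : i = j
        · subst hij
          simp
        · rw [if_neg (fun h0 => hij h0.symm), if_neg (fun h0 => hij (Fin.castAdd_injective c r h0)),
            map_zero]
      · rw [upb_entry2 y (A i) 0 (hA2 i), Matrix.one_apply, if_neg]
        · simp
        · intro h0
          have h1 := congrArg Fin.val h0
          rw [Fin.val_castAdd, Fin.val_natAdd] at h1
          have := i.isLt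
          omega
    · rw [Fin.append_right]
      refine Fin.addCases (fun j => ?_) (fun j => ?_) j
      · rw [upb_entry1, hB1, Matrix.one_apply, if_neg]
        · simp
        · intro h0
          have h1 := congrArg Fin.val h0
          rw [Fin.val_castAdd, Fin.val_natAdd] at h1
          have := j.isLt
          omega
      · rw [upb_entry2 y (B i) _ (hB2 i), Matrix.one_apply]
        by_cases hij : i = j
        · subst hij
          simp
        · rw [Pi.single_eq_of_ne (fun h0 => hij h0.symm),
            if_neg (fun h0 => hij (Fin.natAdd_injective r c h0)), Int.cast_zero]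

theorem form_ordP (y : Fin c → K) (hy : IsTranscendenceBasis ℂ y) (E : DVal F)
    (p : MvPolynomial (Fin r) K) (hp : Irreducible p) (hm : NotMono p)
    (hE : IsOrdP (F := F) E p) : IsOrd E (form r F y) 0 := by
  classical
  obtain ⟨dd, hdd, hM⟩ := upb_basis r F y hy
  obtain ⟨ℓ, hℓ⟩ := exists_pair dd
  have hpres : ∀ i, ∀ f, Ge E 0 f → Ge E 0 (dd i f) := by
    intro i f hf
    obtain ⟨d, e, h1, h2⟩ := hdd i
    exact ordP_deriv E p hp hE d e (dd i) h1 h2 f hf
  have hval : ℓ (form r F y) = 1 := by
    unfold form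
    rw [hℓ]
    have h0 : (Matrix.of fun i j => (dd i).liftKaehlerDifferential (Fin.append
        (fun j => KaehlerDifferential.D ℂ F (algebraMap K F (y j)))
        (fun j => (tt r K F j)⁻¹ • KaehlerDifferential.D ℂ F (tt r K F j)) j)) =
        (1 : Matrix (Fin (c + r)) (Fin (c + r)) F) := by
      ext i j
      exact hM i j
    rw [h0, Matrix.det_one]
  have htt : ∀ j : Fin r, E.toQVal (tt r K F j) = 0 := by
    intro j
    have h1 := ordP_hom hp hm hE (1 : K) (Pi.single j 1)
    have h2 : hom F (1 : K) (Pi.single j 1 : Fin r → ℤ) = tt r K F j := by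
      unfold hom
      rw [map_one, one_mul, Finset.prod_eq_single j]
      · simp
      · intro b _ hb
        rw [Pi.single_eq_of_ne hb, zpow_zero]
      · intro h0
        exact absurd (Finset.mem_univ j) h0
    rw [h2] at h1
    exact h1
  refine ⟨?_, ?_⟩
  · unfold form
    refine ordGE_reg E.toQVal _ ?_
    intro j
    refine Fin.addCases (fun j => ?_) (fun j => ?_) j
    · rw [Fin.append_left]
      refine regDiff_D (E := E.toQVal) (Or.inr ?_)
      have h1 : E.toQVal (algebraMap K F (y j)) = 0 := ordP_const hp hE (y j)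
      rw [h1]
    · rw [Fin.append_right]
      refine regDiff_smul (E := E.toQVal) (Or.inr ?_) (regDiff_D (E := E.toQVal) (Or.inr ?_))
      · rw [E.toQVal.inv, htt j]
        simp
      · rw [htt j]
  · intro h
    have h1 := ordGE_pair E.toQVal dd hpres ℓ hℓ (form r F y) _ h
    rw [hval] at h1
    rcases h1 with h1 | h1
    · exact one_ne_zero h1
    · rw [E.toQVal.one] at h1
      omega

theorem form_toric (y : Fin c → K) (hy : IsTranscendenceBasis ℂ y) (E : DVal F)
    (v : Fin r → ℤ) (hE : IsGauss (F := F) E (QVal.triv K) v) :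
    IsOrd E (form r F y) (-1) := by
  classical
  obtain ⟨dd, hdd, hM⟩ := upb_basis r F y hy
  obtain ⟨u, hu⟩ := primitive_of_toric E v hE
  obtain ⟨j0, hj0⟩ : ∃ j, v j ≠ 0 := by
    by_contra h0
    push Not at h0
    have : ∑ i, u i * v i = 0 := Finset.sum_eq_zero fun i _ => by rw [h0 i, mul_zero]
    omega
  obtain ⟨Dv, hDv1, hDv2⟩ := exists_extend (r := r) (K := K) (F := F) 0 v
  obtain ⟨s, hs⟩ : ∃ s, s = hom F (1 : K) u := ⟨_, rfl⟩
  have hs0 : s ≠ 0 := by
    rw [hs]
    exact hom_ne_zero one_ne_zero u
  have hEs : E.toQVal s = 1 := by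
    rw [hs, gauss_hom (G := E.toQVal) (w := QVal.triv K) (v := v) hE one_ne_zero, hu]
    simp
  obtain ⟨i0, hi0⟩ : ∃ i0 : Fin (c + r), i0 = Fin.natAdd c j0 := ⟨_, rfl⟩
  obtain ⟨dd', hdd'⟩ : ∃ dd' : Fin (c + r) → Derivation ℂ F F,
      dd' = Function.update dd i0 (s⁻¹ • Dv) := ⟨_, rfl⟩
  obtain ⟨ℓ, hℓ⟩ := exists_pair dd'
  have hpres : ∀ i, ∀ f, Ge E 0 f → Ge E 0 (dd' i f) := by
    intro i f hf
    rw [hdd']
    by_cases hi : i = i0
    · subst hi
      rw [Function.update_self, Derivation.smul_apply, smul_eq_mul]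
      have h1 : Ge E.toQVal 1 (Dv f) := by
        refine toric_euler' E.toQVal v hE Dv (fun a => ?_) hDv2 f hf
        rw [hDv1]
        simp
      have h2 : Ge E.toQVal (-1) s⁻¹ := Or.inr (by rw [E.toQVal.inv, hEs])
      exact E.toQVal.ge_mul h2 h1
    · rw [Function.update_of_ne hi]
      obtain ⟨d, e, h1, h2⟩ := hdd i
      rcases hf with rfl | hf
      · left
        exact map_zero _
      · exact E.toQVal.ge_mono hf (toric_deriv E.toQVal v hE d e (dd i) h1 h2 f)
  have hval : ℓ (form r F y) = s⁻¹ * (v j0 : F) := by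
    unfold form
    rw [hℓ]
    obtain ⟨b, hb⟩ : ∃ b : Fin (c + r) → F, b = fun j => (s⁻¹ • Dv).liftKaehlerDifferential
        (Fin.append (fun j => KaehlerDifferential.D ℂ F (algebraMap K F (y j)))
        (fun j => (tt r K F j)⁻¹ • KaehlerDifferential.D ℂ F (tt r K F j)) j) := ⟨_, rfl⟩
    have h0 : (Matrix.of fun i j => (dd' i).liftKaehlerDifferential (Fin.append
        (fun j => KaehlerDifferential.D ℂ F (algebraMap K F (y j)))
        (fun j => (tt r K F j)⁻¹ • KaehlerDifferential.D ℂ F (tt r K F j)) j)) =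
        (1 : Matrix (Fin (c + r)) (Fin (c + r)) F).updateRow i0 b := by
      ext i j
      rw [Matrix.of_apply, hdd']
      by_cases hi : i = i0
      · subst hi
        rw [Function.update_self, Matrix.updateRow_self, hb]
      · rw [Function.update_of_ne hi, Matrix.updateRow_ne hi]
        exact hM i j
    rw [h0, ← Matrix.cramer_transpose_apply, Matrix.transpose_one, Matrix.cramer_one]
    have h1 : (1 : Module.End F (Fin (c + r) → F)) b i0 = b i0 := rfl
    have h2 : b i0 = s⁻¹ * (v j0 : F) := by
      rw [hb, hi0]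
      show (s⁻¹ • Dv).liftKaehlerDifferential (Fin.append
        (fun j => KaehlerDifferential.D ℂ F (algebraMap K F (y j)))
        (fun j => (tt r K F j)⁻¹ • KaehlerDifferential.D ℂ F (tt r K F j)) (Fin.natAdd c j0)) = _
      rw [Fin.append_right, map_smul, Derivation.liftKaehlerDifferential_comp_D,
        Derivation.smul_apply, hDv2, smul_eq_mul, smul_eq_mul]
      have ht : tt r K F j0 ≠ 0 := tt_ne_zero j0
      field_simp
    exact h2
  refine ⟨?_, ?_⟩
  · unfold form
    refine ordGE_log E _ ?_
    intro j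
    refine Fin.addCases (fun j => ?_) (fun j => ?_) j
    · left
      rw [Fin.append_left]
      refine regDiff_D (E := E.toQVal) (Or.inr ?_)
      have h1 : E.toQVal (algebraMap K F (y j)) = 0 := by
        rw [gauss_const (G := E.toQVal) (w := QVal.triv K) (v := v) hE]
        simp
      rw [h1]
    · right
      rw [Fin.append_right]
      exact ⟨_, tt_ne_zero j, rfl⟩
  · intro h
    have h1 := ordGE_pair E.toQVal dd' hpres ℓ hℓ (form r F y) _ h
    rw [hval] at h1
    have hv0 : (v j0 : F) ≠ 0 := by
      have : CharZero F := charZero_of_injective_algebraMap (algebraMap ℂ F).injective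
      exact_mod_cast hj0
    have hvE : E.toQVal (v j0 : F) = 0 := by
      have := E.toQVal.const (v j0 : ℂ)
      rwa [map_intCast] at this
    rcases h1 with h1 | h1
    · exact mul_ne_zero (inv_ne_zero hs0) hv0 h1
    · rw [E.toQVal.mul (inv_ne_zero hs0) hv0, E.toQVal.inv, hEs, hvE] at h1
      omega

end WNV
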