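import Mathlib

/-!
FAR. Farkas' lemma over a linearly ordered field (Bartl's algebraic proof).

PROOF. Induction on `M`, for all `b`. `M = 0`: `0 ≤ b w` for all `w` (apply to `w` and `-w`), so
`b = 0`.
Step `M → M + 1`, with functionals `A 0, …, A M` (split off `a = A (Fin.last M)`, use
`Fin.castSucc`). If already `(∀ l < M, 0 ≤ A l w) → 0 ≤ b w` for all `w`, use the induction
hypothesis and put `x_M = 0` (`Fin.snoc` / `Fin.lastCases`). Otherwise there is `w₀` with
`A l w₀ ≥ 0` for `l < M` and `b w₀ < 0`; then `a w₀ < 0` by hypothesis, scale `w₀` so that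
`a w₀ = -1`. Put `A'_l = A_l + A_l(w₀) • a`, `b' = b + b(w₀) • a`, i.e.
`A'_l w = A_l (w + a(w) w₀)`. If `A'_l w ≥ 0` for all `l < M`, then `w' = w + a(w) w₀` has
`a w' = 0` and `A_l w' ≥ 0`, so `b' w = b w' ≥ 0`. By induction `b' = Σ x_l A'_l`, `x_l ≥ 0`, so
`b = Σ x_l A_l + (Σ x_l A_l(w₀) - b(w₀)) a` with a nonnegative last coefficient.

`farkas_fintype`: transport along `Fintype.equivFin`.

`farkas_int` : apply `farkas` with `𝕜 = ℚ`, `W = Fin s → ℚ`, `A_l(n) = Σ_k n_k a_{l,k}`; clear the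
denominators of `n` (multiply by a common positive denominator).
-/

namespace WNV

private theorem FAR_scale {𝕜 W : Type*} [Field 𝕜] [LinearOrder 𝕜] [IsStrictOrderedRing 𝕜]
    [AddCommGroup W] [Module 𝕜 W] {M : ℕ} (A : Fin (M + 1) → (W →ₗ[𝕜] 𝕜)) (b : W →ₗ[𝕜] 𝕜)
    (h : ∀ w, (∀ l, 0 ≤ A l w) → 0 ≤ b w)
    (hc : ¬ ∀ w, (∀ l : Fin M, 0 ≤ A l.castSucc w) → 0 ≤ b w) :
    ∃ w, (∀ l : Fin M, 0 ≤ A l.castSucc w) ∧ b w < 0 ∧ A (Fin.last M) w = -1 := by
  push Not at hc
  obtain ⟨w, hw, hb⟩ := hc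
  have ha : A (Fin.last M) w < 0 := by
    by_contra hn
    push Not at hn
    have := h w (fun l => Fin.lastCases hn (fun l => hw l) l)
    exact absurd this (not_le.2 hb)
  have hp : 0 < -(A (Fin.last M) w) := neg_pos.2 ha
  refine ⟨(-(A (Fin.last M) w))⁻¹ • w, fun l => ?_, ?_, ?_⟩
  · rw [map_smul, smul_eq_mul]
    exact mul_nonneg (inv_nonneg.2 hp.le) (hw l)
  · rw [map_smul, smul_eq_mul]
    exact mul_neg_of_pos_of_neg (inv_pos.2 hp) hb
  · rw [map_smul, smul_eq_mul, inv_neg, neg_mul, inv_mul_cancel₀ ha.ne]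

theorem farkas {𝕜 W : Type*} [Field 𝕜] [LinearOrder 𝕜] [IsStrictOrderedRing 𝕜] [AddCommGroup W]
    [Module 𝕜 W] {M : ℕ} (A : Fin M → (W →ₗ[𝕜] 𝕜)) (b : W →ₗ[𝕜] 𝕜)
    (h : ∀ w, (∀ l, 0 ≤ A l w) → 0 ≤ b w) :
    ∃ x : Fin M → 𝕜, (∀ l, 0 ≤ x l) ∧ b = ∑ l, x l • A l := by
  induction M generalizing b with
  | zero =>
    refine ⟨fun _ => 0, fun l => le_rfl, ?_⟩
    ext w
    have h1 := h w (fun l => l.elim0)
    have h2 := h (-w) (fun l => l.elim0)
    rw [map_neg] at h2
    have : b w = 0 := le_antisymm (neg_nonneg.1 h2) h1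
    simp [this]
  | succ M ih =>
    by_cases hc : ∀ w, (∀ l : Fin M, 0 ≤ A l.castSucc w) → 0 ≤ b w
    · obtain ⟨x, hx, hb⟩ := ih (fun l => A l.castSucc) b hc
      refine ⟨Fin.snoc x 0, fun l => ?_, ?_⟩
      · refine Fin.lastCases ?_ (fun l => ?_) l
        · rw [Fin.snoc_last]
        · rw [Fin.snoc_castSucc]
          exact hx l
      · rw [Fin.sum_univ_castSucc]
        simp only [Fin.snoc_castSucc, Fin.snoc_last, zero_smul, add_zero]
        exact hb
    · obtain ⟨w₀, h1, h2, h3⟩ := FAR_scale A b h hc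
      obtain ⟨x, hx, hb⟩ := ih
        (fun l => A l.castSucc + (A l.castSucc w₀) • A (Fin.last M))
        (b + (b w₀) • A (Fin.last M)) (by
          intro w hw
          have h4 := h (w + A (Fin.last M) w • w₀) (fun l => by
            refine Fin.lastCases ?_ (fun l => ?_) l
            · rw [map_add, map_smul, h3, smul_eq_mul]
              apply le_of_eq
              ring
            · have := hw l
              rw [LinearMap.add_apply, LinearMap.smul_apply, smul_eq_mul] at this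
              rw [map_add, map_smul, smul_eq_mul]
              linarith)
          rw [map_add, map_smul, smul_eq_mul] at h4
          rw [LinearMap.add_apply, LinearMap.smul_apply, smul_eq_mul]
          linarith)
      refine ⟨Fin.snoc x (∑ l, x l * A l.castSucc w₀ - b w₀), fun l => ?_, ?_⟩
      · refine Fin.lastCases ?_ (fun l => ?_) l
        · rw [Fin.snoc_last]
          have : 0 ≤ ∑ l, x l * A l.castSucc w₀ :=
            Finset.sum_nonneg fun l _ => mul_nonneg (hx l) (h1 l)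
          linarith
        · rw [Fin.snoc_castSucc]
          exact hx l
      · rw [Fin.sum_univ_castSucc]
        simp only [Fin.snoc_castSucc, Fin.snoc_last]
        ext w
        have h5 := congrArg (fun g : W →ₗ[𝕜] 𝕜 => g w) hb
        simp only [LinearMap.add_apply, LinearMap.smul_apply, smul_eq_mul, LinearMap.sum_apply,
          mul_add, Finset.sum_add_distrib] at h5
        simp only [LinearMap.add_apply, LinearMap.smul_apply, smul_eq_mul, LinearMap.sum_apply]
        have h6 : ∑ l, x l * (A l.castSucc w₀ * A (Fin.last M) w)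
            = (∑ l, x l * A l.castSucc w₀) * A (Fin.last M) w := by
          rw [Finset.sum_mul]
          exact Finset.sum_congr rfl fun l _ => by ring
        rw [h6] at h5
        linear_combination h5

theorem farkas_fintype {𝕜 W ι : Type*} [Field 𝕜] [LinearOrder 𝕜] [IsStrictOrderedRing 𝕜]
    [AddCommGroup W] [Module 𝕜 W] [Fintype ι] (A : ι → (W →ₗ[𝕜] 𝕜)) (b : W →ₗ[𝕜] 𝕜)
    (h : ∀ w, (∀ l, 0 ≤ A l w) → 0 ≤ b w) :
    ∃ x : ι → 𝕜, (∀ l, 0 ≤ x l) ∧ b = ∑ l, x l • A l := by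
  obtain ⟨x, hx, hb⟩ := farkas (fun l => A ((Fintype.equivFin ι).symm l)) b (by
    intro w hw
    refine h w fun l => ?_
    have := hw (Fintype.equivFin ι l)
    rwa [Equiv.symm_apply_apply] at this)
  refine ⟨fun l => x (Fintype.equivFin ι l), fun l => hx _, ?_⟩
  rw [hb]
  rw [← Equiv.sum_comp (Fintype.equivFin ι)]
  refine Finset.sum_congr rfl fun l _ => ?_
  rw [Equiv.symm_apply_apply]

private theorem FAR_clear {κ : Type*} [Fintype κ] (w : κ → ℚ) :
    ∃ (D : ℚ) (n : κ → ℤ), 0 < D ∧ ∀ k, (n k : ℚ) = D * w k := by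
  classical
  have h : ∀ k, ∃ c : ℕ, ∏ j, (w j).den = (w k).den * c := fun k =>
    (Finset.dvd_prod_of_mem (fun j => (w j).den) (Finset.mem_univ k))
  choose c hc using h
  refine ⟨((∏ j, (w j).den : ℕ) : ℚ), fun k => (w k).num * c k, ?_, fun k => ?_⟩
  · have : 0 < ∏ j, (w j).den := Finset.prod_pos fun j _ => (w j).den_pos
    exact_mod_cast this
  · rw [hc k]
    push_cast
    have h1 : ((w k).num : ℚ) = (w k).den * w k := by
      rw [mul_comm]
      exact (Rat.mul_den_eq_num (w k)).symm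
    rw [h1]
    ring

theorem farkas_int {ι κ : Type*} [Fintype ι] [Fintype κ] (A : ι → κ → ℤ) (b : κ → ℤ)
    (h : ∀ n : κ → ℤ, (∀ l, 0 ≤ ∑ k, n k * A l k) → 0 ≤ ∑ k, n k * b k) :
    ∃ x : ι → ℚ, (∀ l, 0 ≤ x l) ∧ ∀ k, (b k : ℚ) = ∑ l, x l * A l k := by
  classical
  obtain ⟨x, hx, hb⟩ := farkas_fintype (𝕜 := ℚ) (W := κ → ℚ) (ι := ι)
    (fun l => ∑ k, (A l k : ℚ) • LinearMap.proj k) (∑ k, (b k : ℚ) • LinearMap.proj k) (by
      intro w hw
      obtain ⟨D, n, hD, hn⟩ := FAR_clear w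
      have e1 : ∀ a : κ → ℤ, ((∑ k, n k * a k : ℤ) : ℚ)
          = D * ((∑ k, (a k : ℚ) • (LinearMap.proj k : (κ → ℚ) →ₗ[ℚ] ℚ) :
            (κ → ℚ) →ₗ[ℚ] ℚ) w) := by
        intro a
        rw [Int.cast_sum, LinearMap.sum_apply, Finset.mul_sum]
        refine Finset.sum_congr rfl fun k _ => ?_
        rw [Int.cast_mul, hn k, LinearMap.smul_apply, LinearMap.proj_apply, smul_eq_mul]
        ring
      have h1 := h n (fun l => by
        have h2 : (0 : ℚ) ≤ ((∑ k, n k * A l k : ℤ) : ℚ) := by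
          rw [e1 (A l)]
          exact mul_nonneg hD.le (hw l)
        exact_mod_cast h2)
      have h3 : (0 : ℚ) ≤ ((∑ k, n k * b k : ℤ) : ℚ) := by exact_mod_cast h1
      rw [e1 b] at h3
      exact nonneg_of_mul_nonneg_right h3 hD)
  refine ⟨x, hx, fun k => ?_⟩
  have h2 := congrArg (fun g : (κ → ℚ) →ₗ[ℚ] ℚ => g (Pi.single k 1)) hb
  simp only [LinearMap.sum_apply, LinearMap.smul_apply, LinearMap.proj_apply, smul_eq_mul,
    Pi.single_apply, mul_ite, mul_one, mul_zero, Finset.sum_ite_eq', Finset.mem_univ,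
    if_true] at h2
  exact h2

end WNV
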