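import Pool.Agent.WNV.VAL

/-!
FNP. Only finitely many prime divisors of `Spec A` have a nonzero value at `f`.

PROOF. Write `f = a / b` with `a, b ∈ A` nonzero: `E f ≠ 0` implies `E a > 0` or `E b > 0`
(values on `A` are `≥ 0`). So it is enough to treat `a ∈ A`, `a ≠ 0`, `E a > 0`.
For `E` with `IsPrimeOf A E` let `𝔮 = {b ∈ A : b = 0 ∨ 0 < E b}`, a prime ideal of `A`
containing `a`. It is minimal over `(a)`: let `a ∈ 𝔭 ⊂ 𝔮`, `𝔭` prime, and `b ∈ 𝔮`, `b ≠ 0`,
`k = E b > 0`, `l = E a > 0`. Then `E (b^l / a^k) = 0`, so `b^l / a^k = s / t` with `s, t ∈ A`,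
`t ≠ 0`, `E t = 0`: `b^l t = a^k s ∈ 𝔭` (`k > 0`), `t ∉ 𝔮 ⊃ 𝔭`, so `b^l ∈ 𝔭`, `b ∈ 𝔭`.
`Ideal.span {a}` has only finitely many minimal primes (`Ideal.finite_minimalPrimes_of_isNoetherianRing`).
Finally `E` is determined by `𝔮` (`E ↦ 𝔮` is injective on the primes of `Spec A`): the valuation
ring of `E` is `{s / t : s, t ∈ A, t ∉ 𝔮}`, and a normalised discrete valuation is determined by its
valuation ring: if `E` and `E'` have the same one, then `E f = 0 ↔ E' f = 0` (`f` and `f⁻¹` in the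
ring), so for a uniformizer `π` of `E`, `k = E' π > 0` (`π` in the ring, `π⁻¹` not), `E' f = k * E f`
for all `f ≠ 0` (`f / π^(E f)` is a unit), and `k = 1` because `E'` is surjective.
-/

namespace WNV

/-- A normalised discrete valuation is determined by its valuation ring. -/
theorem dval_eq_of_ring {F : Type} [Field F] [Algebra ℂ F] (E E' : DVal F)
    (h : ∀ f, f ≠ 0 → 0 ≤ E f → 0 ≤ E' f) : E = E' := by
  obtain ⟨π, hπ0, hπ⟩ := DVal.exists_unif E
  have key : ∀ f, f ≠ 0 → E' f = E f * E' π := by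
    intro f hf
    have hz : π ^ (-(E f)) ≠ 0 := zpow_ne_zero _ hπ0
    have hu0 : f * π ^ (-(E f)) ≠ 0 := mul_ne_zero hf hz
    have hu : E (f * π ^ (-(E f))) = 0 := by
      rw [E.toQVal.mul hf hz, E.toQVal.zpow hπ0, hπ]
      ring
    have h1 := h _ hu0 hu.ge
    have h2 := h _ (inv_ne_zero hu0) (by rw [E.toQVal.inv, hu]; simp)
    rw [E'.toQVal.inv] at h2
    rw [E'.toQVal.mul hf hz, E'.toQVal.zpow hπ0] at h1 h2
    linarith
  obtain ⟨g, hg0, hg⟩ := DVal.exists_unif E'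
  have h1 := key g hg0
  rw [hg] at h1
  have h2 : 0 ≤ E' π := h π hπ0 (by rw [hπ]; norm_num)
  have h3 : E' π = 1 := by
    rcases Int.eq_one_or_neg_one_of_mul_eq_one' h1.symm with h4 | h4
    · exact h4.2
    · omega
  refine DVal.ext_of fun f hf => ?_
  rw [key f hf, h3, mul_one]

/-- The centre of a prime divisor. -/
private def FNP_q {F : Type} [Field F] [Algebra ℂ F] (A : Subalgebra ℂ F) (E : DVal F)
    (hE : IsPrimeOf A E) : Ideal A where
  carrier := {c : A | Ge E 1 (c : F)}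
  zero_mem' := Or.inl rfl
  add_mem' := by
    intro a b ha hb
    exact E.toQVal.ge_add ha hb
  smul_mem' := by
    intro c x hx
    have h0 : Ge E 0 (c : F) := by
      by_cases hc : (c : F) = 0
      · exact Or.inl hc
      · exact Or.inr (hE.1 _ c.2 hc)
    have := E.toQVal.ge_mul h0 hx
    rw [zero_add] at this
    exact this

private theorem FNP_mem {F : Type} [Field F] [Algebra ℂ F] (A : Subalgebra ℂ F) (E : DVal F)
    (hE : IsPrimeOf A E) (c : A) : c ∈ FNP_q A E hE ↔ Ge E 1 (c : F) := Iff.rfl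

private theorem FNP_prime {F : Type} [Field F] [Algebra ℂ F] (A : Subalgebra ℂ F) (E : DVal F)
    (hE : IsPrimeOf A E) : (FNP_q A E hE).IsPrime := by
  refine ⟨?_, ?_⟩
  · intro h
    have h1 : (1 : A) ∈ FNP_q A E hE := by rw [h]; trivial
    rw [FNP_mem] at h1
    rcases h1 with h1 | h1
    · exact one_ne_zero h1
    · rw [show ((1 : A) : F) = 1 from rfl] at h1
      have := E.toQVal.one
      omega
  · intro x y hxy
    rw [FNP_mem, FNP_mem]
    rw [FNP_mem] at hxy
    by_cases hx : (x : F) = 0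
    · exact Or.inl (Or.inl hx)
    by_cases hy : (y : F) = 0
    · exact Or.inr (Or.inl hy)
    have h1 := hE.1 _ x.2 hx
    have h2 := hE.1 _ y.2 hy
    rcases hxy with hxy | hxy
    · exact absurd hxy (mul_ne_zero hx hy)
    · rw [show ((x * y : A) : F) = (x : F) * (y : F) from rfl, E.toQVal.mul hx hy] at hxy
      by_cases h3 : 1 ≤ E (x : F)
      · exact Or.inl (Or.inr h3)
      · exact Or.inr (Or.inr (by omega))

private theorem FNP_min {F : Type} [Field F] [Algebra ℂ F] (A : Subalgebra ℂ F) (E : DVal F)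
    (hE : IsPrimeOf A E) (a : A) (ha0 : (a : F) ≠ 0) (ha : 0 < E (a : F)) :
    FNP_q A E hE ∈ (Ideal.span {a}).minimalPrimes := by
  refine ⟨⟨FNP_prime A E hE, ?_⟩, ?_⟩
  · rw [Ideal.span_le]
    intro x hx
    rw [Set.mem_singleton_iff] at hx
    subst hx
    exact Or.inr ha
  · rintro p ⟨hp, hap⟩ hpq b hb
    have hap' : a ∈ p := hap (Ideal.mem_span_singleton_self a)
    by_cases hb0 : b = 0
    · rw [hb0]; exact p.zero_mem
    have hb0' : (b : F) ≠ 0 := fun h => hb0 (Subtype.ext h)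
    have hbE : 1 ≤ E (b : F) := by
      rcases (FNP_mem A E hE b).1 hb with h | h
      · exact absurd h hb0'
      · exact h
    obtain ⟨l, hl⟩ : ∃ l : ℕ, E (a : F) = l := Int.eq_ofNat_of_zero_le ha.le
    obtain ⟨k, hk⟩ : ∃ k : ℕ, E (b : F) = k := Int.eq_ofNat_of_zero_le (by omega)
    have hk0 : k ≠ 0 := by
      rintro rfl
      rw [hk] at hbE
      norm_num at hbE
    have hf0 : (b : F) ^ l / (a : F) ^ k ≠ 0 :=
      div_ne_zero (pow_ne_zero _ hb0') (pow_ne_zero _ ha0)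
    have hf : E ((b : F) ^ l / (a : F) ^ k) = 0 := by
      rw [E.toQVal.div (pow_ne_zero _ hb0') (pow_ne_zero _ ha0), E.toQVal.pow hb0',
        E.toQVal.pow ha0, hl, hk]
      ring
    obtain ⟨s, hs, t, ht, ht0, hEt, hst⟩ := hE.2 _ hf0 hf.ge
    rw [div_eq_div_iff (pow_ne_zero _ ha0) ht0] at hst
    have h1 : b ^ l * (⟨t, ht⟩ : A) = (⟨s, hs⟩ : A) * a ^ k := by
      apply Subtype.ext
      exact hst
    have h2 : b ^ l * (⟨t, ht⟩ : A) ∈ p := by
      rw [h1]
      exact p.mul_mem_left _ (Ideal.pow_mem_of_mem p hap' k (Nat.pos_of_ne_zero hk0))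
    rcases hp.mem_or_mem h2 with h3 | h3
    · exact hp.mem_of_pow_mem l h3
    · exfalso
      rcases (FNP_mem A E hE _).1 (hpq h3) with h4 | h4
      · exact ht0 h4
      · rw [show (((⟨t, ht⟩ : A) : A) : F) = t from rfl, hEt] at h4
        norm_num at h4

private theorem FNP_fin {F : Type} [Field F] [Algebra ℂ F] (A : Subalgebra ℂ F)
    [IsNoetherianRing A] (a : A) (ha0 : (a : F) ≠ 0) :
    {E : DVal F | IsPrimeOf A E ∧ 0 < E (a : F)}.Finite := by
  have hfin : ((Ideal.span {a}).minimalPrimes).Finite :=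
    Ideal.finite_minimalPrimes_of_isNoetherianRing A _
  have h2 : ((fun I : Ideal A => (I : Set A)) '' (Ideal.span {a}).minimalPrimes).Finite :=
    hfin.image _
  refine Set.Finite.of_finite_image (f := fun E : DVal F => {c : A | Ge E 1 (c : F)})
    (h2.subset ?_) ?_
  · rintro _ ⟨E, ⟨hE, ha⟩, rfl⟩
    exact ⟨FNP_q A E hE, FNP_min A E hE a ha0 ha, rfl⟩
  · rintro E ⟨hE, -⟩ E' ⟨hE', -⟩ hEE
    refine dval_eq_of_ring E E' fun f hf hfE => ?_
    obtain ⟨s, hs, t, ht, ht0, hEt, hst⟩ := hE.2 f hf hfE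
    have hs0 : s ≠ 0 := by
      rintro rfl
      rw [zero_div] at hst
      exact hf hst
    have h1 : (⟨t, ht⟩ : A) ∉ {c : A | Ge E 1 (c : F)} := by
      rintro (h | h)
      · exact ht0 h
      · rw [show (((⟨t, ht⟩ : A) : A) : F) = t from rfl, hEt] at h
        norm_num at h
    have hEE' : {c : A | Ge E 1 (c : F)} = {c : A | Ge E' 1 (c : F)} := hEE
    rw [hEE'] at h1
    have h3 : E' t = 0 := by
      have h4 := hE'.1 t ht ht0
      by_contra h5
      exact h1 (Or.inr (show (1 : ℤ) ≤ E' t by omega))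
    rw [hst, E'.toQVal.div hs0 ht0, h3, sub_zero]
    exact hE'.1 s hs hs0

theorem finite_primes {F : Type} [Field F] [Algebra ℂ F] (A : Subalgebra ℂ F)
    [IsNoetherianRing A] [IsFractionRing A F] (f : F) (hf0 : f ≠ 0) :
    {E : DVal F | IsPrimeOf A E ∧ E f ≠ 0}.Finite := by
  obtain ⟨a, b, hb, hab⟩ := IsFractionRing.div_surjective (A := A) f
  have hb0 : (b : F) ≠ 0 := fun h =>
    (nonZeroDivisors.ne_zero hb) (Subtype.ext h)
  have ha0 : (a : F) ≠ 0 := by
    intro h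
    apply hf0
    rw [← hab, show algebraMap A F a = (a : F) from rfl, h, zero_div]
  refine ((FNP_fin A a ha0).union (FNP_fin A b hb0)).subset ?_
  rintro E ⟨hE, hEf⟩
  rw [← hab, show algebraMap A F a = (a : F) from rfl,
    show algebraMap A F b = (b : F) from rfl, E.toQVal.div ha0 hb0] at hEf
  have h1 := hE.1 _ a.2 ha0
  have h2 := hE.1 _ b.2 hb0
  by_cases h3 : 0 < E (a : F)
  · exact Or.inl ⟨hE, h3⟩
  · exact Or.inr ⟨hE, by omega⟩

end WNV
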