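import Pool.Agent.WNV.KRL
import Pool.Agent.WNV.FNP
import Pool.Agent.WNV.FAR

/-!
CAR. A real combination of rational functions which is nonnegative on all prime divisors through
`P` is nonnegative at every valuation centred at `P`.

PROOF. Let `f_k` (`k ∈ κ`) be the nonzero elements of the support of `ψ`. The set `ι` of prime
divisors `E` through `P` (`IsPrimeOf A E`, `E a = 0` for `a ∉ P`) with `E f_k ≠ 0` for some `k` is
finite (`finite_primes`, finite union). Apply `farkas_int` with `A l k = E_l f_k`,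
`b k = E₀ f_k`: for `n : κ → ℤ` with `Σ n_k E_l(f_k) ≥ 0` for all `l ∈ ι` put `f = ∏ f_k^{n_k} ≠ 0`.
`E f = Σ n_k E f_k ≥ 0` for all prime divisors `E` through `P` (the ones not in `ι` have value `0`),
so by `krull` `f = a / b` with `a, b ∈ A`, `b ∉ P`; `a ≠ 0`, `E₀ a ≥ 0`, `E₀ b = 0`, so
`0 ≤ E₀ f = Σ n_k E₀ f_k`. Hence `E₀ f_k = Σ_l x_l E_l f_k` with rational `x_l ≥ 0` and
`val ψ E₀ = Σ_l x_l val ψ E_l ≥ 0` (the element `0` of the support does not contribute, all
valuations are `0` at `0`).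
-/

namespace WNV

theorem rcartier_nonneg {F : Type} [Field F] [Algebra ℂ F] (A : Subalgebra ℂ F)
    [IsNoetherianRing A] [IsIntegrallyClosed A] [IsFractionRing A F] (P : Ideal A)
    (hP : P.IsPrime) (E₀ : QVal F) (h0 : ∀ a ∈ A, a ≠ 0 → 0 ≤ E₀ a)
    (h1 : ∀ a : A, a ∉ P → E₀ (a : F) = 0) (ψ : F →₀ ℝ)
    (h : ∀ E : DVal F, IsPrimeOf A E → (∀ a : A, a ∉ P → E (a : F) = 0) → 0 ≤ val ψ E) :
    0 ≤ val ψ E₀ := by
  classical
  let κ := {f : F // f ∈ ψ.support.filter (fun f => f ≠ 0)}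
  haveI : Fintype κ := Finset.fintypeCoeSort _
  have hκ : ∀ k : κ, (k : F) ≠ 0 := fun k => (Finset.mem_filter.1 k.2).2
  let S : Set (DVal F) := {E | IsPrimeOf A E ∧ (∀ a : A, a ∉ P → E (a : F) = 0) ∧
    ∃ k : κ, E (k : F) ≠ 0}
  have hS : S.Finite := by
    have hfin : (⋃ k : κ, {E : DVal F | IsPrimeOf A E ∧ E (k : F) ≠ 0}).Finite :=
      Set.finite_iUnion fun k => finite_primes A (k : F) (hκ k)
    refine hfin.subset ?_
    rintro E ⟨hE1, -, k, hk⟩
    exact Set.mem_iUnion.2 ⟨k, hE1, hk⟩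
  haveI : Fintype S := hS.fintype
  have hb : ∀ n : κ → ℤ, (∀ l : S, 0 ≤ ∑ k, n k * (l : DVal F) (k : F)) →
      0 ≤ ∑ k, n k * E₀ (k : F) := by
    intro n hn
    let f : F := ∏ k : κ, (k : F) ^ n k
    have hf0 : f ≠ 0 := Finset.prod_ne_zero_iff.2 fun k _ => zpow_ne_zero _ (hκ k)
    have hEf : ∀ E : QVal F, E f = ∑ k, n k * E (k : F) := by
      intro E
      show E (∏ k : κ, (k : F) ^ n k) = _
      rw [E.prod _ _ fun k _ => zpow_ne_zero _ (hκ k)]
      exact Finset.sum_congr rfl fun k _ => E.zpow (hκ k) _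
    have hfrac : ∃ a b : A, b ∉ P ∧ f = (a : F) / b := by
      by_contra hcon
      push Not at hcon
      obtain ⟨E, hE1, hE2, hE3⟩ := krull A P hP f hf0 hcon
      have hEf' : E f = ∑ k, n k * E (k : F) := hEf E.toQVal
      by_cases hmem : ∃ k : κ, E (k : F) ≠ 0
      · have := hn ⟨E, hE1, hE2, hmem⟩
        rw [hEf'] at hE3
        exact absurd hE3 (not_lt.2 this)
      · push Not at hmem
        rw [hEf'] at hE3
        simp [hmem] at hE3
    obtain ⟨a, b, hbP, hfab⟩ := hfrac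
    have hb0 : (b : F) ≠ 0 := by
      intro hb0
      apply hbP
      have : b = 0 := by exact_mod_cast hb0
      rw [this]
      exact P.zero_mem
    have ha0 : (a : F) ≠ 0 := by
      intro ha0
      rw [ha0, zero_div] at hfab
      exact hf0 hfab
    rw [← hEf E₀, hfab, E₀.div ha0 hb0, h1 b hbP, sub_zero]
    exact h0 _ a.2 ha0
  obtain ⟨x, hx, hxb⟩ := farkas_int (fun (l : S) (k : κ) => (l : DVal F) (k : F))
    (fun k : κ => E₀ (k : F)) hb
  have hreal : ∀ f ∈ ψ.support, (E₀ f : ℝ) = ∑ l : S, (x l : ℝ) * ((l : DVal F) f : ℝ) := by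
    intro f hf
    by_cases hf0 : f = 0
    · subst hf0
      have h2 : ∀ l : S, ((l : DVal F) (0 : F)) = 0 := fun l => (l : DVal F).zero'
      simp [h2]
    · have h3 := hxb ⟨f, Finset.mem_filter.2 ⟨hf, hf0⟩⟩
      have h4 : ((E₀ f : ℚ) : ℝ) = ((∑ l : S, x l * (((l : DVal F) f : ℤ) : ℚ) : ℚ) : ℝ) := by
        rw [← h3]
      push_cast at h4
      exact h4
  have hval : val ψ E₀ = ∑ l : S, (x l : ℝ) * val ψ (l : DVal F) := by
    rw [val_eq_sum]
    rw [Finset.sum_congr rfl fun f hf => by rw [hreal f hf, Finset.mul_sum]]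
    rw [Finset.sum_comm]
    refine Finset.sum_congr rfl fun l _ => ?_
    rw [val_eq_sum, Finset.mul_sum]
    refine Finset.sum_congr rfl fun f _ => ?_
    ring
  rw [hval]
  refine Finset.sum_nonneg fun l _ => mul_nonneg ?_ ?_
  · exact_mod_cast hx l
  · exact h l l.2.1 l.2.2.1

end WNV
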