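import Pool.Agent.WNV.VAL

/-!
NOE. The charts are Noetherian (finitely generated `ℂ`-algebras): `Subalgebra.fg_adjoin_finset` /
`Algebra.FiniteType`, `Algebra.FiniteType.isNoetherianRing`.

Centre of a valuation. PROOF of `exists_chart`: choose `i` with `E (x i)` minimal
(`Finite.exists_min`), so `E (x j / x i) ≥ 0`; then `Algebra.adjoin_induction` with `Ge E 0`
(closed under addition, multiplication, constants).
PROOF of `exists_centre`: `P = {a : a = 0 ∨ 0 < E a}` is a prime ideal of `A`.
-/

namespace WNV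

variable {F : Type} [Field F] [Algebra ℂ F] {N : ℕ}

theorem chart_noetherian (x : Fin (N + 1) → F) (i : Fin (N + 1)) :
    IsNoetherianRing (chart x i) := by
  have hfg : (chart x i).FG := by
    have h : (Set.range fun j => x j / x i).Finite := Set.finite_range _
    exact ⟨h.toFinset, by simp [chart]⟩
  have : Algebra.FiniteType ℂ (chart x i) := (chart x i).fg_iff_finiteType.1 hfg
  exact Algebra.FiniteType.isNoetherianRing ℂ (chart x i)

theorem exists_chart (x : Fin (N + 1) → F) (hx : ∀ j, x j ≠ 0) (E : QVal F) :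
    ∃ i, ∀ a ∈ chart x i, a ≠ 0 → 0 ≤ E a := by
  obtain ⟨i, hi⟩ := Finite.exists_min (fun j => E (x j))
  refine ⟨i, ?_⟩
  have key : ∀ a ∈ chart x i, Ge E 0 a := by
    intro a ha
    induction ha using Algebra.adjoin_induction with
    | mem y hy =>
      obtain ⟨j, rfl⟩ := hy
      right
      show 0 ≤ E (x j / x i)
      rw [E.div (hx j) (hx i)]
      have := hi j
      omega
    | algebraMap c => exact E.ge_const c
    | add a b _ _ h1 h2 => exact E.ge_add h1 h2
    | mul a b _ _ h1 h2 => simpa using E.ge_mul h1 h2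
  intro a ha ha0
  exact (key a ha).resolve_left ha0

theorem exists_centre (A : Subalgebra ℂ F) (E : QVal F) (h0 : ∀ a ∈ A, a ≠ 0 → 0 ≤ E a) :
    ∃ P : Ideal A, P.IsPrime ∧ ∀ a : A, a ∉ P ↔ (a : F) ≠ 0 ∧ E (a : F) = 0 := by
  have hge : ∀ a : A, Ge E 0 (a : F) := by
    intro a
    by_cases ha : (a : F) = 0
    · exact Or.inl ha
    · exact Or.inr (h0 _ a.2 ha)
  let P : Ideal A :=
    { carrier := {a : A | Ge E 1 (a : F)}
      add_mem' := by
        intro a b ha hb
        show Ge E 1 ((a + b : A) : F)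
        rw [Subalgebra.coe_add]
        exact E.ge_add ha hb
      zero_mem' := Or.inl (by simp)
      smul_mem' := by
        intro c a ha
        show Ge E 1 ((c • a : A) : F)
        have := E.ge_mul (hge c) ha
        simpa using this }
  have hP : ∀ a : A, a ∈ P ↔ Ge E 1 (a : F) := fun a => Iff.rfl
  have hnot : ∀ a : A, a ∉ P ↔ (a : F) ≠ 0 ∧ E (a : F) = 0 := by
    intro a
    rw [hP a]
    unfold Ge
    push Not
    constructor
    · rintro ⟨h1, h2⟩
      refine ⟨h1, ?_⟩
      have := h0 _ a.2 h1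
      omega
    · rintro ⟨h1, h2⟩
      exact ⟨h1, by omega⟩
  refine ⟨P, ?_, hnot⟩
  refine ⟨?_, ?_⟩
  · rw [Ideal.ne_top_iff_one]
    rw [hnot]
    simp
  · intro a b hab
    by_contra hcon
    push Not at hcon
    obtain ⟨ha, hb⟩ := hcon
    rw [hnot] at ha hb
    have : (a * b : A) ∉ P := by
      rw [hnot]
      rw [Subalgebra.coe_mul]
      refine ⟨mul_ne_zero ha.1 hb.1, ?_⟩
      rw [E.mul ha.1 hb.1, ha.2, hb.2]
      rfl
    exact this hab

end WNV
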