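import Pool.Agent.WNV.Defs

/-! Basic lemmas on valuations. -/

set_option linter.unusedSectionVars false

namespace WNV

variable {K : Type} [Field K] [Algebra ℂ K]

/-- `f` has value at least `a` (with the convention that `0` has infinite value). -/
def Ge (E : K → ℤ) (a : ℤ) (f : K) : Prop := f = 0 ∨ a ≤ E f

namespace QVal

variable (E : QVal K)

@[simp] lemma zero : E 0 = 0 := E.zero'

@[simp] lemma one : E 1 = 0 := by
  have := E.const' 1
  simpa using this

@[simp] lemma const (c : ℂ) : E (algebraMap ℂ K c) = 0 := E.const' c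

lemma mul {a b : K} (ha : a ≠ 0) (hb : b ≠ 0) : E (a * b) = E a + E b := E.mul' a b ha hb

@[simp] lemma neg (a : K) : E (-a) = E a := by
  by_cases ha : a = 0
  · simp [ha]
  · have h1 : E (algebraMap ℂ K (-1)) = 0 := E.const' (-1)
    have h2 : (-a) = algebraMap ℂ K (-1) * a := by simp
    rw [h2, E.mul (by simp) ha, h1, zero_add]

@[simp] lemma inv (a : K) : E a⁻¹ = - E a := by
  by_cases ha : a = 0
  · simp [ha]
  · have h := E.mul ha (inv_ne_zero ha)
    rw [mul_inv_cancel₀ ha, E.one] at h
    omega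

lemma div {a b : K} (ha : a ≠ 0) (hb : b ≠ 0) : E (a / b) = E a - E b := by
  rw [div_eq_mul_inv, E.mul ha (inv_ne_zero hb), E.inv]; ring

lemma pow {a : K} (ha : a ≠ 0) (n : ℕ) : E (a ^ n) = n * E a := by
  induction n with
  | zero => simp
  | succ n ih => rw [pow_succ, E.mul (pow_ne_zero _ ha) ha, ih]; push_cast; ring

lemma zpow {a : K} (ha : a ≠ 0) (n : ℤ) : E (a ^ n) = n * E a := by
  cases n with
  | ofNat n => simpa using E.pow ha n
  | negSucc n =>
    rw [zpow_negSucc, E.inv, E.pow ha]
    rw [Int.negSucc_eq]; push_cast; ring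

lemma prod {ι : Type*} (s : Finset ι) (f : ι → K) (hf : ∀ i ∈ s, f i ≠ 0) :
    E (∏ i ∈ s, f i) = ∑ i ∈ s, E (f i) := by
  classical
  induction s using Finset.induction_on with
  | empty => simp
  | insert a s ha ih =>
    rw [Finset.prod_insert ha, Finset.sum_insert ha,
      E.mul (hf a (Finset.mem_insert_self a s))
        (Finset.prod_ne_zero_iff.2 fun i hi => hf i (Finset.mem_insert_of_mem hi)),
      ih fun i hi => hf i (Finset.mem_insert_of_mem hi)]

lemma ne_zero_of_ne {a : K} (h : E a ≠ 0) : a ≠ 0 := by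
  rintro rfl; simp at h

lemma ge_zero (a : ℤ) : Ge E a 0 := Or.inl rfl

lemma ge_mono {a b : ℤ} (h : a ≤ b) {f : K} (hf : Ge E b f) : Ge E a f :=
  hf.imp id fun h' => h.trans h'

lemma ge_add {a : ℤ} {f g : K} (hf : Ge E a f) (hg : Ge E a g) : Ge E a (f + g) := by
  rcases hf with rfl | hf
  · rwa [zero_add]
  rcases hg with rfl | hg
  · rw [add_zero]; exact Or.inr hf
  by_cases hf0 : f = 0
  · subst hf0; rw [zero_add]; exact Or.inr hg
  by_cases hg0 : g = 0
  · subst hg0; rw [add_zero]; exact Or.inr hf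
  by_cases h : f + g = 0
  · exact Or.inl h
  · exact Or.inr ((le_min hf hg).trans (E.add' f g hf0 hg0 h))

lemma ge_neg {a : ℤ} {f : K} (hf : Ge E a f) : Ge E a (-f) := by
  rcases hf with rfl | hf
  · simp [Ge]
  · exact Or.inr (by rwa [E.neg])

lemma ge_sub {a : ℤ} {f g : K} (hf : Ge E a f) (hg : Ge E a g) : Ge E a (f - g) := by
  rw [sub_eq_add_neg]; exact E.ge_add hf (E.ge_neg hg)

lemma ge_mul {a b : ℤ} {f g : K} (hf : Ge E a f) (hg : Ge E b g) : Ge E (a + b) (f * g) := by
  rcases hf with rfl | hf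
  · simp [Ge]
  rcases hg with rfl | hg
  · simp [Ge]
  by_cases hf0 : f = 0
  · subst hf0; simp [Ge]
  by_cases hg0 : g = 0
  · subst hg0; simp [Ge]
  · exact Or.inr (by rw [E.mul hf0 hg0]; omega)

lemma ge_sum {ι : Type*} {a : ℤ} (s : Finset ι) (f : ι → K) (hf : ∀ i ∈ s, Ge E a (f i)) :
    Ge E a (∑ i ∈ s, f i) := by
  classical
  induction s using Finset.induction_on with
  | empty => simp [Ge]
  | insert b s hb ih =>
    rw [Finset.sum_insert hb]
    exact E.ge_add (hf b (Finset.mem_insert_self b s))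
      (ih fun i hi => hf i (Finset.mem_insert_of_mem hi))

lemma ge_const (c : ℂ) : Ge E 0 (algebraMap ℂ K c) := Or.inr (by simp)

lemma ge_one : Ge E 0 (1 : K) := Or.inr (by simp)

lemma ge_smul {a : ℤ} {f : K} (c : ℂ) (hf : Ge E a f) : Ge E a (c • f) := by
  rw [Algebra.smul_def]
  simpa using E.ge_mul (E.ge_const c) hf

lemma ge_natCast (n : ℕ) : Ge E 0 (n : K) := by
  simpa using E.ge_const (n : ℂ)

lemma ge_intCast (n : ℤ) : Ge E 0 (n : K) := by
  simpa using E.ge_const (n : ℂ)

lemma ge_self (f : K) : Ge E (E f) f := Or.inr le_rfl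

/-- If `g` has value bigger than `f` then `f + g` has the value of `f`. -/
lemma add_of_gt {f g : K} (hf : f ≠ 0) (hg : Ge E (E f + 1) g) :
    f + g ≠ 0 ∧ E (f + g) = E f := by
  rcases hg with rfl | hg
  · simp [hf]
  by_cases hg0 : g = 0
  · subst hg0; simp [hf]
  have hne : f + g ≠ 0 := by
    intro h
    have : f = -g := by linear_combination h
    rw [this, E.neg] at hg
    omega
  refine ⟨hne, le_antisymm ?_ ?_⟩
  · by_contra hlt
    push Not at hlt
    have h1 : Ge E (E f + 1) (f + g) := Or.inr (by omega)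
    have h2 : Ge E (E f + 1) f := by
      have := E.ge_sub h1 (Or.inr hg : Ge E (E f + 1) g)
      simpa using this
    rcases h2 with h2 | h2
    · exact hf h2
    · omega
  · have := E.add' f g hf hg0 hne
    omega

/-- The trivial valuation. -/
def triv (K : Type) [Field K] [Algebra ℂ K] : QVal K where
  v := fun _ => 0
  zero' := rfl
  mul' := by intros; rfl
  add' := by intros; simp
  const' := by intros; rfl

@[simp] lemma triv_apply (a : K) : triv K a = 0 := rfl

end QVal

namespace DVal

variable (E : DVal K)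

lemma exists_unif : ∃ π : K, π ≠ 0 ∧ E π = 1 := by
  obtain ⟨a, ha⟩ := E.surj'
  refine ⟨a, ?_, ha⟩
  rintro rfl
  have := E.zero'
  omega

lemma ext_of {E E' : DVal K} (h : ∀ f, f ≠ 0 → E f = E' f) : E = E' := by
  obtain ⟨⟨v, h0, h1, h2, h3⟩, h4⟩ := E
  obtain ⟨⟨v', h0', h1', h2', h3'⟩, h4'⟩ := E'
  have : v = v' := by
    funext f
    by_cases hf : f = 0
    · subst hf
      exact h0.trans h0'.symm
    · exact h f hf
  subst this
  rfl

end DVal

section

variable {F : Type} [Field F] [Algebra ℂ F] [Algebra K F] [IsScalarTower ℂ K F]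

/-- The restriction of a valuation of `F` to `K`. -/
def QVal.restr (K : Type) [Field K] [Algebra ℂ K] [Algebra K F] [IsScalarTower ℂ K F]
    (E : QVal F) : QVal K where
  v := fun a => E (algebraMap K F a)
  zero' := by simp
  mul' := by
    intro a b ha hb
    rw [map_mul]
    exact E.mul' _ _ (by simpa using ha) (by simpa using hb)
  add' := by
    intro a b ha hb hab
    rw [map_add]
    refine E.add' _ _ (by simpa using ha) (by simpa using hb) ?_
    rw [← map_add]
    exact (map_ne_zero_iff _ (algebraMap K F).injective).2 hab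
  const' := by
    intro c
    rw [← IsScalarTower.algebraMap_apply ℂ K F]
    exact E.const' c

@[simp] lemma QVal.restr_apply (E : QVal F) (a : K) :
    QVal.restr K E a = E (algebraMap K F a) := rfl

end

section val

omit [Algebra ℂ K]

lemma val_add (φ ψ : K →₀ ℝ) (E : K → ℤ) : val (φ + ψ) E = val φ E + val ψ E := by
  unfold val
  exact Finsupp.sum_add_index' (by simp) (by intros; ring)

lemma val_smul (a : ℝ) (φ : K →₀ ℝ) (E : K → ℤ) : val (a • φ) E = a * val φ E := by
  unfold val
  rw [Finsupp.sum_smul_index' (by simp), Finsupp.sum, Finsupp.sum, Finset.mul_sum]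
  refine Finset.sum_congr rfl fun f _ => ?_
  simp [smul_eq_mul, mul_assoc]

@[simp] lemma val_zero (E : K → ℤ) : val (0 : K →₀ ℝ) E = 0 := by
  unfold val; simp

@[simp] lemma val_single (f : K) (a : ℝ) (E : K → ℤ) :
    val (Finsupp.single f a) E = a * E f := by
  unfold val
  rw [Finsupp.sum_single_index (by simp)]

lemma val_neg (φ : K →₀ ℝ) (E : K → ℤ) : val (-φ) E = - val φ E := by
  have := val_smul (-1) φ E
  simpa using this

lemma val_sub (φ ψ : K →₀ ℝ) (E : K → ℤ) : val (φ - ψ) E = val φ E - val ψ E := by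
  rw [sub_eq_add_neg, val_add, val_neg]; ring

lemma val_sum {ι : Type*} (s : Finset ι) (φ : ι → K →₀ ℝ) (E : K → ℤ) :
    val (∑ i ∈ s, φ i) E = ∑ i ∈ s, val (φ i) E := by
  classical
  induction s using Finset.induction_on with
  | empty => simp
  | insert b s hb ih => rw [Finset.sum_insert hb, Finset.sum_insert hb, val_add, ih]

/-- Only the values at the elements of the support matter. -/
lemma val_congr (φ : K →₀ ℝ) {E E' : K → ℤ} (h : ∀ f ∈ φ.support, E f = E' f) :
    val φ E = val φ E' := by
  unfold val Finsupp.sum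
  exact Finset.sum_congr rfl fun f hf => by simp only [h f hf]

lemma val_eq_sum (φ : K →₀ ℝ) (E : K → ℤ) :
    val φ E = ∑ f ∈ φ.support, φ f * (E f : ℝ) := rfl

end val

end WNV
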