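import Pool.Agent.WNV.ORQ

/-!
FAM. The finitely many non-invariant horizontal components of `Δ`.

PROOF. `T = {E : IsPrimeOf (chart x 0) E, Δ E ≠ 0, ∃ q irreducible, NotMono q, IsOrdP E q}` is
finite. Enumerate it as `E : Fin s → DVal F` (injective, range `T`; `Finite.equivFin` or
`hfin.toFinset.equivFin`) and choose `p j`. If `p j`, `p j'` are associated then `E j = E j'`
(`ordP_assoc`, `ordP_unique`), so `j = j'`. If `IsOrdP E' q` and `Δ E' ≠ 0` then `E'` is prime
on the chart `0` (`ordP_prime`), so `E' = E j` for some `j`; then `q` and `p j` are associated: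
`E' (q) > 0` and `E' = ord_{p j}`, so `p j ∣ q` (`ordP_pos_iff`), both irreducible
(`Irreducible.associated_of_dvd`).
-/

set_option linter.unusedSectionVars false

namespace WNV

variable {r N : ℕ} {K F : Type} [Field K] [Algebra ℂ K] [Field F] [Algebra ℂ F]
    [Algebra K F] [IsScalarTower ℂ K F]
    [Algebra (MvPolynomial (Fin r) K) F] [IsScalarTower K (MvPolynomial (Fin r) K) F]
    [IsFractionRing (MvPolynomial (Fin r) K) F]

theorem exists_family (x : Fin (N + 1) → F)
    (hx : ∀ j, ∃ (a : K) (m : Fin r → ℤ), a ≠ 0 ∧ x j = hom F a m)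
    [IsFractionRing (chart x 0) F] (Δ : DVal F → ℝ)
    (hfin : {E : DVal F | IsPrimeOf (chart x 0) E ∧ Δ E ≠ 0}.Finite) :
    ∃ (s : ℕ) (p : Fin s → MvPolynomial (Fin r) K) (E : Fin s → DVal F),
      (∀ j, Irreducible (p j)) ∧ (∀ j, NotMono (p j)) ∧
      (∀ j j', j ≠ j' → ¬ Associated (p j) (p j')) ∧
      (∀ j, IsOrdP (F := F) (E j) (p j)) ∧
      ∀ (q : MvPolynomial (Fin r) K) (E' : DVal F), Irreducible q → NotMono q →
        IsOrdP (F := F) E' q → Δ E' ≠ 0 → ∃ j, Associated q (p j) := by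
  classical
  have hT : {E : DVal F | (IsPrimeOf (chart x 0) E ∧ Δ E ≠ 0) ∧
      ∃ q : MvPolynomial (Fin r) K, Irreducible q ∧ NotMono q ∧ IsOrdP (F := F) E q}.Finite :=
    hfin.subset fun E hE => hE.1
  have hmem : ∀ j : Fin hT.toFinset.card, ((hT.toFinset.equivFin.symm j : DVal F)) ∈
      {E : DVal F | (IsPrimeOf (chart x 0) E ∧ Δ E ≠ 0) ∧
      ∃ q : MvPolynomial (Fin r) K, Irreducible q ∧ NotMono q ∧ IsOrdP (F := F) E q} := fun j =>
    hT.mem_toFinset.1 (hT.toFinset.equivFin.symm j).2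
  choose p hp using fun j => (hmem j).2
  refine ⟨hT.toFinset.card, p, fun j => (hT.toFinset.equivFin.symm j : DVal F),
    fun j => (hp j).1, fun j => (hp j).2.1, ?_, fun j => (hp j).2.2, ?_⟩
  · intro j j' hjj hass
    apply hjj
    have h1 := ordP_assoc (hp j).2.2 hass
    have h2 := ordP_unique (hp j').1 h1 (hp j').2.2
    exact hT.toFinset.equivFin.symm.injective (Subtype.ext h2)
  · intro q E' hq hm hE' hΔ
    have hprime := ordP_prime x hx 0 E' q hq hm hE'
    have hE'T : E' ∈ hT.toFinset := hT.mem_toFinset.2 ⟨⟨hprime, hΔ⟩, q, hq, hm, hE'⟩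
    refine ⟨hT.toFinset.equivFin ⟨E', hE'T⟩, ?_⟩
    have h1 := (hp (hT.toFinset.equivFin ⟨E', hE'T⟩)).2.2
    have h0 := (hp (hT.toFinset.equivFin ⟨E', hE'T⟩)).1
    rw [Equiv.symm_apply_apply] at h1
    have h2 : 0 < E' (algebraMap _ F (p (hT.toFinset.equivFin ⟨E', hE'T⟩))) := by
      rw [ordP_self h0 h1]
      exact one_pos
    exact hq.associated_of_dvd h0 ((ordP_pos_iff hq hE' _ h0.ne_zero).1 h2)

end WNV
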