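import Pool.Agent.WNV.FAC
import Pool.Agent.WNV.GVL

/-!
HOM. Upper bound of `φ` at toric valuations by a linear function.

PROOF. Apply `exists_factor` to `S` = the nonzero elements of the support of `φ`: for `f ∈ S`,
`f = hom a_f m_f * ∏ p_j^(α_{f,j}) * ∏ q_j^(β_{f,j})`. So for every valuation `E` (`QVal.mul`,
`QVal.prod`, `QVal.zpow`, `QVal.inv`)
`val φ E = Σ_f φ_f E(hom a_f m_f) + Σ_j A_j E(p_j) + Σ_j B_j E(q_j)`, with
`A_j = Σ_f φ_f α_{f,j}`, `B_j = Σ_f φ_f β_{f,j}` (an element `0` of the support contributes `0`).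
For `E = ord_{p_j}` (`exists_ordP`): homogeneous elements have value `0` (`ordP_hom`), `E(p_j) = 1`,
all other `p_k`, `q_k` have value `0` (`ordP_of_not_dvd`: an irreducible dividing an irreducible is
associated to it), so `A_j = val φ E ≥ -δ_j`. In the same way `B_j ≥ 0` (by `h2`).
Choose `s_j ∈ supp p_j` and `s'_j ∈ supp q_j`. For `E` toric with vector `v`:
`E(hom a m) = ⟨m, v⟩` (`gauss_hom`), `E(p_j) ≤ ⟨s_j, v⟩`, `E(q_j) ≤ ⟨s'_j, v⟩`, so
`val φ E + Σ δ_j E(p_j) = Σ_f φ_f ⟨m_f, v⟩ + Σ (A_j + δ_j) E(p_j) + Σ B_j E(q_j)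
  ≤ ⟨Σ φ_f m_f + Σ (A_j + δ_j) s_j + Σ B_j s'_j, v⟩`.
-/

set_option linter.unusedSectionVars false

namespace WNV

variable {r : ℕ} {K F : Type} [Field K] [Algebra ℂ K] [Field F] [Algebra ℂ F]
    [Algebra K F] [IsScalarTower ℂ K F]
    [Algebra (MvPolynomial (Fin r) K) F] [IsScalarTower K (MvPolynomial (Fin r) K) F]
    [IsFractionRing (MvPolynomial (Fin r) K) F]

theorem hom_bound {s : ℕ} (p : Fin s → MvPolynomial (Fin r) K)
    (hp : ∀ j, Irreducible (p j)) (hm : ∀ j, NotMono (p j))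
    (hpp : ∀ j j', j ≠ j' → ¬ Associated (p j) (p j')) (δ : Fin s → ℝ) (φ : F →₀ ℝ)
    (h1 : ∀ j, ∀ E : DVal F, IsOrdP (F := F) E (p j) → -(δ j) ≤ val φ E)
    (h2 : ∀ q : MvPolynomial (Fin r) K, Irreducible q → NotMono q →
      (∀ j, ¬ Associated q (p j)) → ∀ E : DVal F, IsOrdP (F := F) E q → 0 ≤ val φ E) :
    ∃ m : Fin r → ℝ, ∀ (E : DVal F) (v : Fin r → ℤ), IsGauss (F := F) E (QVal.triv K) v →
      val φ E + ∑ j, δ j * (E (algebraMap _ F (p j)) : ℝ) ≤ ∑ i, m i * (v i : ℝ) := by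
  classical
  have hinj := IsFractionRing.injective (MvPolynomial (Fin r) K) F
  have hne : ∀ g : MvPolynomial (Fin r) K, g ≠ 0 → algebraMap (MvPolynomial (Fin r) K) F g ≠ 0 :=
    fun g hg => (map_ne_zero_iff _ hinj).2 hg
  obtain ⟨M, q, hq, hqm, hqq, hqp, hfac⟩ := exists_factor (F := F) p hp hm hpp
    (φ.support.erase 0) (fun f hf => (Finset.mem_erase.1 hf).1)
  choose! a m α β hfa using hfac
  have hval : ∀ E : QVal F, val φ E =
      ∑ f ∈ φ.support.erase 0, φ f * (E (hom F (a f) (m f)) : ℝ)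
      + ∑ j, (∑ f ∈ φ.support.erase 0, φ f * (α f j : ℝ)) * (E (algebraMap _ F (p j)) : ℝ)
      + ∑ j, (∑ f ∈ φ.support.erase 0, φ f * (β f j : ℝ)) * (E (algebraMap _ F (q j)) : ℝ) := by
    intro E
    have e1 : val φ E = ∑ f ∈ φ.support.erase 0, φ f * (E f : ℝ) := by
      rw [val_eq_sum]
      refine (Finset.sum_subset (Finset.erase_subset _ _) fun f hf hf' => ?_).symm
      have hf0 : f = 0 := by
        by_contra h0
        exact hf' (Finset.mem_erase.2 ⟨h0, hf⟩)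
      subst hf0
      rw [E.zero]
      simp
    have e2 : ∀ f ∈ φ.support.erase 0, (E f : ℝ) = (E (hom F (a f) (m f)) : ℝ)
        + ∑ j, (α f j : ℝ) * (E (algebraMap _ F (p j)) : ℝ)
        + ∑ j, (β f j : ℝ) * (E (algebraMap _ F (q j)) : ℝ) := by
      intro f hf
      obtain ⟨ha, hf1⟩ := hfa f hf
      have n1 : hom F (a f) (m f) ≠ 0 := hom_ne_zero ha _
      have n2 : (∏ j, algebraMap (MvPolynomial (Fin r) K) F (p j) ^ α f j) ≠ 0 :=
        Finset.prod_ne_zero_iff.2 fun j _ => zpow_ne_zero _ (hne _ (hp j).ne_zero)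
      have n3 : (∏ j, algebraMap (MvPolynomial (Fin r) K) F (q j) ^ β f j) ≠ 0 :=
        Finset.prod_ne_zero_iff.2 fun j _ => zpow_ne_zero _ (hne _ (hq j).ne_zero)
      have e3 : E f = E (hom F (a f) (m f))
          + ∑ j, α f j * E (algebraMap _ F (p j)) + ∑ j, β f j * E (algebraMap _ F (q j)) := by
        conv_lhs => rw [hf1]
        rw [E.mul (mul_ne_zero n1 n2) n3, E.mul n1 n2,
          E.prod _ _ (fun j _ => zpow_ne_zero _ (hne _ (hp j).ne_zero)),
          E.prod _ _ (fun j _ => zpow_ne_zero _ (hne _ (hq j).ne_zero))]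
        congr 1
        · congr 1
          exact Finset.sum_congr rfl fun j _ => E.zpow (hne _ (hp j).ne_zero) _
        · exact Finset.sum_congr rfl fun j _ => E.zpow (hne _ (hq j).ne_zero) _
      rw [e3]
      push_cast
      ring
    rw [e1, Finset.sum_congr rfl fun f hf => by rw [e2 f hf]]
    simp only [mul_add, Finset.sum_add_distrib, Finset.mul_sum, Finset.sum_mul]
    rw [Finset.sum_comm (s := φ.support.erase 0), Finset.sum_comm (s := φ.support.erase 0)]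
    simp only [mul_assoc]
  have hA : ∀ j, 0 ≤ (∑ f ∈ φ.support.erase 0, φ f * (α f j : ℝ)) + δ j := by
    intro j
    obtain ⟨E, hE⟩ := exists_ordP (F := F) (p j) (hp j)
    have k1 := h1 j E hE
    have k2 := hval E.toQVal
    rw [Finset.sum_eq_zero (fun f hf => by rw [ordP_hom (hp j) (hm j) hE]; simp),
      Finset.sum_eq_single j ?_ (fun h => absurd (Finset.mem_univ j) h),
      Finset.sum_eq_zero (s := Finset.univ) (fun k _ => by
        rw [ordP_of_not_dvd hE (q k) (hq k).ne_zero (fun hd =>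
          hqp k j ((hp j).associated_of_dvd (hq k) hd).symm)]; simp),
      ordP_self (hp j) hE] at k2
    · push_cast at k2
      linarith
    · intro k _ hk
      rw [ordP_of_not_dvd hE (p k) (hp k).ne_zero (fun hd =>
          hpp k j hk ((hp j).associated_of_dvd (hp k) hd).symm)]
      simp
  have hB : ∀ j, 0 ≤ ∑ f ∈ φ.support.erase 0, φ f * (β f j : ℝ) := by
    intro j
    obtain ⟨E, hE⟩ := exists_ordP (F := F) (q j) (hq j)
    have k1 := h2 (q j) (hq j) (hqm j) (fun k => hqp j k) E hE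
    have k2 := hval E.toQVal
    rw [Finset.sum_eq_zero (fun f hf => by rw [ordP_hom (hq j) (hqm j) hE]; simp),
      Finset.sum_eq_zero (s := Finset.univ) (fun k _ => by
        rw [ordP_of_not_dvd hE (p k) (hp k).ne_zero (fun hd =>
          hqp j k ((hq j).associated_of_dvd (hp k) hd))]; simp),
      Finset.sum_eq_single j ?_ (fun h => absurd (Finset.mem_univ j) h),
      ordP_self (hq j) hE] at k2
    · push_cast at k2
      linarith
    · intro k _ hk
      rw [ordP_of_not_dvd hE (q k) (hq k).ne_zero (fun hd =>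
          hqq k j hk ((hq j).associated_of_dvd (hq k) hd).symm)]
      simp
  have hs : ∀ j, ∃ s : Fin r →₀ ℕ, s ∈ (p j).support := fun j =>
    Finset.nonempty_iff_ne_empty.2 (fun h => (hp j).ne_zero (MvPolynomial.support_eq_empty.1 h))
  have hs' : ∀ j, ∃ s : Fin r →₀ ℕ, s ∈ (q j).support := fun j =>
    Finset.nonempty_iff_ne_empty.2 (fun h => (hq j).ne_zero (MvPolynomial.support_eq_empty.1 h))
  choose sp hsp using hs
  choose sq hsq using hs'
  refine ⟨fun i => ∑ f ∈ φ.support.erase 0, φ f * (m f i : ℝ)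
    + ∑ j, ((∑ f ∈ φ.support.erase 0, φ f * (α f j : ℝ)) + δ j) * (sp j i : ℝ)
    + ∑ j, (∑ f ∈ φ.support.erase 0, φ f * (β f j : ℝ)) * (sq j i : ℝ), ?_⟩
  intro E v hE
  have g1 : ∀ f ∈ φ.support.erase 0, (E (hom F (a f) (m f)) : ℝ) = ∑ i, (m f i : ℝ) * (v i : ℝ) := by
    intro f hf
    have := gauss_hom (G := E.toQVal) hE (hfa f hf).1 (m f)
    rw [QVal.triv_apply, zero_add] at this
    rw [this]
    push_cast
    rfl
  have g2 : ∀ j, (E (algebraMap _ F (p j)) : ℝ) ≤ ∑ i, (sp j i : ℝ) * (v i : ℝ) := by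
    intro j
    have := (hE (p j) (hp j).ne_zero).1 (sp j) (hsp j)
    rw [QVal.triv_apply, zero_add] at this
    exact_mod_cast this
  have g3 : ∀ j, (E (algebraMap _ F (q j)) : ℝ) ≤ ∑ i, (sq j i : ℝ) * (v i : ℝ) := by
    intro j
    have := (hE (q j) (hq j).ne_zero).1 (sq j) (hsq j)
    rw [QVal.triv_apply, zero_add] at this
    exact_mod_cast this
  rw [hval E.toQVal, Finset.sum_congr rfl fun f hf => by rw [g1 f hf]]
  have t1 : ∑ j, ((∑ f ∈ φ.support.erase 0, φ f * (α f j : ℝ)) + δ j)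
      * (E (algebraMap _ F (p j)) : ℝ) ≤
      ∑ j, ((∑ f ∈ φ.support.erase 0, φ f * (α f j : ℝ)) + δ j)
      * ∑ i, (sp j i : ℝ) * (v i : ℝ) :=
    Finset.sum_le_sum fun j _ => mul_le_mul_of_nonneg_left (g2 j) (hA j)
  have t2 : ∑ j, (∑ f ∈ φ.support.erase 0, φ f * (β f j : ℝ))
      * (E (algebraMap _ F (q j)) : ℝ) ≤
      ∑ j, (∑ f ∈ φ.support.erase 0, φ f * (β f j : ℝ))
      * ∑ i, (sq j i : ℝ) * (v i : ℝ) :=
    Finset.sum_le_sum fun j _ => mul_le_mul_of_nonneg_left (g3 j) (hB j)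
  have t3 : ∑ j, ((∑ f ∈ φ.support.erase 0, φ f * (α f j : ℝ)) + δ j)
      * (E (algebraMap _ F (p j)) : ℝ) =
      ∑ j, (∑ f ∈ φ.support.erase 0, φ f * (α f j : ℝ)) * (E (algebraMap _ F (p j)) : ℝ)
      + ∑ j, δ j * (E (algebraMap _ F (p j)) : ℝ) := by
    rw [← Finset.sum_add_distrib]
    exact Finset.sum_congr rfl fun j _ => by ring
  have t4 : ∑ i, (∑ f ∈ φ.support.erase 0, φ f * (m f i : ℝ)
      + ∑ j, ((∑ f ∈ φ.support.erase 0, φ f * (α f j : ℝ)) + δ j) * (sp j i : ℝ)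
      + ∑ j, (∑ f ∈ φ.support.erase 0, φ f * (β f j : ℝ)) * (sq j i : ℝ)) * (v i : ℝ) =
      ∑ f ∈ φ.support.erase 0, φ f * ∑ i, (m f i : ℝ) * (v i : ℝ)
      + ∑ j, ((∑ f ∈ φ.support.erase 0, φ f * (α f j : ℝ)) + δ j)
      * ∑ i, (sp j i : ℝ) * (v i : ℝ)
      + ∑ j, (∑ f ∈ φ.support.erase 0, φ f * (β f j : ℝ))
      * ∑ i, (sq j i : ℝ) * (v i : ℝ) := by
    have u1 : ∀ (ι : Type _) (S : Finset ι) (c : ι → ℝ) (w : ι → Fin r → ℝ),
        ∑ i, (∑ j ∈ S, c j * w j i) * (v i : ℝ) = ∑ j ∈ S, c j * ∑ i, w j i * (v i : ℝ) := by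
      intro ι S c w
      simp only [Finset.sum_mul, Finset.mul_sum]
      rw [Finset.sum_comm]
      simp only [mul_assoc]
    simp only [add_mul _ _ (Int.cast _ : ℝ), Finset.sum_add_distrib]
    rw [u1 _ _ φ fun f i => (m f i : ℝ), u1 _ _ (fun j => _) fun j i => (sp j i : ℝ),
      u1 _ _ (fun j => _) fun j i => (sq j i : ℝ)]
  linarith

end WNV
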