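import Pool.Agent.WNV.CAR
import Pool.Agent.WNV.NOE
import Pool.Agent.WNV.UPB
import Pool.Agent.WNV.HOM
import Pool.Agent.WNV.ORQ
import Pool.Agent.WNV.FAM

/-! ASA. Assembly, first part: the linear bounds at toric valuations. -/

set_option linter.unusedSectionVars false

namespace WNV

variable {c r N : ℕ} {K F : Type} [Field K] [Algebra ℂ K] [Field F] [Algebra ℂ F]
    [Algebra K F] [IsScalarTower ℂ K F]
    [Algebra (MvPolynomial (Fin r) K) F] [IsScalarTower K (MvPolynomial (Fin r) K) F]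
    [IsFractionRing (MvPolynomial (Fin r) K) F]

theorem psef_step (y : Fin c → K) (hy : IsTranscendenceBasis ℂ y) (x : Fin (N + 1) → F)
    (hx : ∀ j, ∃ (a : K) (m : Fin r → ℤ), a ≠ 0 ∧ x j = hom F a m)
    (hn : ∀ i, IsIntegrallyClosed (chart x i)) (hf : ∀ i, IsFractionRing (chart x i) F)
    (D : DVal F → ℝ) (hC : IsRCartier x D)
    (hlc : ∀ E : DVal F, IsToric r K E → LcAt x (form r F y) D E)
    {s : ℕ} (p : Fin s → MvPolynomial (Fin r) K)
    (hp : ∀ j, Irreducible (p j)) (hm : ∀ j, NotMono (p j))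
    (hpp : ∀ j j', j ≠ j' → ¬ Associated (p j) (p j')) (δ : Fin s → ℝ)
    (h1 : ∀ j, ∀ E : DVal F, IsOrdP (F := F) E (p j) → D E ≤ δ j)
    (h2 : ∀ q : MvPolynomial (Fin r) K, Irreducible q → NotMono q →
      (∀ j, ¬ Associated q (p j)) → ∀ E : DVal F, IsOrdP (F := F) E q → D E ≤ 0)
    (ε : ℝ) (hε : 0 < ε)
    (φ : F →₀ ℝ) (hφ : ∀ (i : Fin (N + 1)) (E : DVal F), IsPrimeOf (chart x i) E →
      0 ≤ D E + ε * (E (x 0 / x i) : ℝ) + val φ E) :
    ∃ m : Fin r → ℝ, ∀ (E : DVal F) (v : Fin r → ℤ), IsGauss (F := F) E (QVal.triv K) v →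
      (∑ j, δ j * (E (algebraMap _ F (p j)) : ℝ) ≤
        ∑ i, m i * (v i : ℝ) + ε * ∑ k, |((E (x 0 / x k) : ℤ) : ℝ)|) ∧
      ∀ i, IsPrimeOf (chart x i) E → ∑ j, δ j * (E (algebraMap _ F (p j)) : ℝ) - D E ≤
        ∑ i, m i * (v i : ℝ) + ε * ∑ k, |((E (x 0 / x k) : ℤ) : ℝ)| := by
  have hx0 : ∀ j, x j ≠ 0 := by
    intro j
    obtain ⟨a, m, ha, h⟩ := hx j
    rw [h]
    exact hom_ne_zero ha m
  have hbd : ∀ (E : DVal F) (i : Fin (N + 1)), ε * ((E (x 0 / x i) : ℤ) : ℝ) ≤
      ε * ∑ k, |((E (x 0 / x k) : ℤ) : ℝ)| := by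
    intro E i
    refine mul_le_mul_of_nonneg_left ?_ hε.le
    refine (le_abs_self _).trans ?_
    exact Finset.single_le_sum (f := fun k => |((E (x 0 / x k) : ℤ) : ℝ)|)
      (fun k _ => abs_nonneg _) (Finset.mem_univ i)
  have hord : ∀ (q : MvPolynomial (Fin r) K) (E : DVal F), Irreducible q → NotMono q →
      IsOrdP (F := F) E q → 0 ≤ D E + val φ E := by
    intro q E hq hqm hE
    haveI := hf 0
    have hpr : IsPrimeOf (chart x 0) E := ordP_prime x hx 0 E q hq hqm hE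
    have := hφ 0 E hpr
    rw [div_self (hx0 0)] at this
    have h0 : E.toQVal (1 : F) = 0 := E.toQVal.one
    have h0' : ((E (1 : F) : ℤ) : ℝ) = 0 := by exact_mod_cast h0
    rw [h0'] at this
    linarith
  obtain ⟨m, hm'⟩ := hom_bound p hp hm hpp δ φ
    (fun j E hE => by
      have := hord (p j) E (hp j) (hm j) hE
      have := h1 j E hE
      linarith)
    (fun q hq hqm hqa E hE => by
      have := hord q E hq hqm hE
      have := h2 q hq hqm hqa E hE
      linarith)
  refine ⟨m, fun E v hv => ⟨?_, fun i hi => ?_⟩⟩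
  · have hb := hm' E v hv
    obtain ⟨i, hi⟩ := exists_chart x hx0 E.toQVal
    obtain ⟨P, hP, hPE⟩ := exists_centre (chart x i) E.toQVal hi
    obtain ⟨ψ, hψ⟩ := hC i P hP
    have hlc' : val ψ E ≤ ((-1 : ℤ) : ℝ) + 1 := by
      refine hlc E ((isToric_iff _).2 ⟨v, hv⟩) i hi ψ ?_ (-1) (form_toric y hy E v hv)
      intro E' hE' hc
      refine hψ E' hE' ?_
      intro a ha
      exact hc a a.2 ((hPE a).1 ha).1 ((hPE a).1 ha).2
    haveI := hn i
    haveI := hf i
    haveI := chart_noetherian x i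
    have hcar := rcartier_nonneg (chart x i) P hP E.toQVal hi (fun a ha => ((hPE a).1 ha).2)
      (ψ + ε • Finsupp.single (x 0 / x i) 1 + φ) (by
        intro E' hE' hc
        rw [val_add, val_add, val_smul, val_single, one_mul, ← hψ E' hE' hc]
        exact hφ i E' hE')
    rw [val_add, val_add, val_smul, val_single, one_mul] at hcar
    have := hbd E i
    push_cast at hlc'
    have e1 : val ψ E.toQVal = val ψ E := rfl
    have e2 : val φ E.toQVal = val φ E := rfl
    rw [e1, e2] at hcar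
    linarith
  · have hb := hm' E v hv
    have := hφ i E hi
    have := hbd E i
    linarith

end WNV
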