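import Pool.Agent.WNV.GRD
import Pool.Agent.WNV.TOR

/-!
CLS. A prime divisor of `X` along which some homogeneous element has a nonzero value is the
Gauss valuation over its restriction to `K`.

PROOF. Let `w = QVal.restr K E.toQVal`, `v_i = E (t_i)` and let `G` be the Gauss valuation
`exists_gauss w v` (`scalarTower_poly`). `G` and `E` agree on homogeneous elements (`gauss_hom`,
`qval_hom`).
(1) `G f ≥ 0` whenever `E f ≥ 0`, `f ≠ 0`: write `f = a / b` with `a, b` in the chart, `E b = 0`.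
    By `chart_graded` `b = lau c` with components in the chart, so `E(hom (c m) m) ≥ 0` for all `m`
    in the support and hence `G b ≥ 0` (`gauss_lau`). Also `G b ≤ E b`: `b` is the sum of its
    components and `E b ≥ min_m E(hom (c m) m) = G b` (`QVal.ge_sum`, the minimum is `gauss_lau`).
    So `G b = 0`. In the same way `G a ≥ 0`. So `G f = G a - G b ≥ 0`.
(2) If `E f = 0` then `G f ≥ 0` and `G f⁻¹ ≥ 0`, so `G f = 0`. Let `π` be a uniformizer of `E`,
    `k = G π ≥ 0`. Every `f ≠ 0` is `u π^n` with `E u = 0`, `n = E f`, so `G f = k * E f`.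
    Apply this to the homogeneous element `h` with `E h ≠ 0`: `E h = G h = k * E h`, so `k = 1`.
    Hence `G f = E f` for all `f`, and `IsGauss E w v` follows from `IsGauss G w v`.
-/

set_option linter.unusedSectionVars false

namespace WNV

variable {r N : ℕ} {K F : Type} [Field K] [Algebra ℂ K] [Field F] [Algebra ℂ F]
    [Algebra K F] [IsScalarTower ℂ K F]
    [Algebra (MvPolynomial (Fin r) K) F] [IsScalarTower K (MvPolynomial (Fin r) K) F]
    [IsFractionRing (MvPolynomial (Fin r) K) F]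

/-- On the chart the Gauss valuation is nonnegative and at most `E`. -/
private lemma chart_bounds (x : Fin (N + 1) → F)
    (hx : ∀ j, ∃ (a : K) (m : Fin r → ℤ), a ≠ 0 ∧ x j = hom F a m) (i : Fin (N + 1))
    (E : QVal F) (hE : ∀ a ∈ chart x i, a ≠ 0 → 0 ≤ E a) (G : QVal F) (w : QVal K)
    (v : Fin r → ℤ) (hG : IsGauss (F := F) G w v)
    (hGE : ∀ (a : K) (m : Fin r → ℤ), a ≠ 0 → G (hom F a m) = E (hom F a m))
    (b : F) (hb : b ∈ chart x i) (hb0 : b ≠ 0) : 0 ≤ G b ∧ G b ≤ E b := by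
  obtain ⟨c, hc, hcm⟩ := chart_graded x hx i b hb
  have hc0 : c ≠ 0 := by
    rintro rfl
    apply hb0
    rw [hc]
    simp [lau]
  obtain ⟨g1, m₀, hm₀, g2⟩ := gauss_lau hG c hc0
  have hhom : ∀ m ∈ c.support, w (c m) + ∑ i, m i * v i = E (hom F (c m) m) := by
    intro m hm
    rw [← hGE _ _ (Finsupp.mem_support_iff.1 hm), gauss_hom hG (Finsupp.mem_support_iff.1 hm)]
  constructor
  · rw [hc, g2, hhom m₀ hm₀]
    exact hE _ (hcm m₀) (hom_ne_zero (Finsupp.mem_support_iff.1 hm₀) _)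
  · have h1 : Ge E (G b) b := by
      have h2 : Ge E (G b) (∑ m ∈ c.support, hom F (c m) m) := by
        apply E.ge_sum
        intro m hm
        right
        have h3 := g1 m hm
        rw [hhom m hm, ← hc] at h3
        exact h3
      have h4 : b = ∑ m ∈ c.support, hom F (c m) m := by
        conv_lhs => rw [hc]
        rfl
      rw [← h4] at h2
      exact h2
    rcases h1 with h1 | h1
    · exact absurd h1 hb0
    · exact h1

theorem prime_gauss (x : Fin (N + 1) → F)
    (hx : ∀ j, ∃ (a : K) (m : Fin r → ℤ), a ≠ 0 ∧ x j = hom F a m) (i : Fin (N + 1))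
    (E : DVal F) (hE : IsPrimeOf (chart x i) E)
    (h : ∃ (a : K) (m : Fin r → ℤ), a ≠ 0 ∧ E (hom F a m) ≠ 0) :
    IsGauss (F := F) E (QVal.restr K E.toQVal) (fun i => E (tt r K F i)) := by
  have : IsScalarTower ℂ (MvPolynomial (Fin r) K) F := scalarTower_poly r K F
  obtain ⟨G, hG⟩ := exists_gauss (F := F) (QVal.restr K E.toQVal)
    (fun i : Fin r => E (tt r K F i))
  have hGE : ∀ (a : K) (m : Fin r → ℤ), a ≠ 0 → G (hom F a m) = E.toQVal (hom F a m) := by
    intro a m ha
    rw [gauss_hom hG ha, qval_hom E.toQVal ha]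
    rfl
  have hbd := chart_bounds x hx i E.toQVal hE.1 G _ _ hG hGE
  have h1 : ∀ f : F, f ≠ 0 → 0 ≤ E f → 0 ≤ G f := by
    intro f hf hEf
    obtain ⟨a, ha, b, hb, hb0, hEb, rfl⟩ := hE.2 f hf hEf
    have ha0 : a ≠ 0 := by
      rintro rfl
      exact hf (zero_div _)
    obtain ⟨b1, b2⟩ := hbd b hb hb0
    obtain ⟨a1, -⟩ := hbd a ha ha0
    have hEb' : E.toQVal b = 0 := hEb
    rw [G.div ha0 hb0]
    omega
  obtain ⟨π, hπ0, hπ⟩ := E.exists_unif
  have hπ' : E.toQVal π = 1 := hπ
  have h2 : ∀ f : F, f ≠ 0 → G f = E.toQVal f * G π := by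
    intro f hf
    have hz : π ^ (E.toQVal f) ≠ 0 := zpow_ne_zero _ hπ0
    have h3 : E.toQVal (f / π ^ (E.toQVal f)) = 0 := by
      rw [E.toQVal.div hf hz, E.toQVal.zpow hπ0, hπ', mul_one, sub_self]
    have h4 : f / π ^ (E.toQVal f) ≠ 0 := div_ne_zero hf hz
    have h5 : 0 ≤ G (f / π ^ (E.toQVal f)) := h1 _ h4 (le_of_eq h3.symm)
    have h6 : 0 ≤ G (f / π ^ (E.toQVal f))⁻¹ := by
      apply h1 _ (inv_ne_zero h4)
      show 0 ≤ E.toQVal _
      rw [E.toQVal.inv, h3, neg_zero]
    rw [G.inv] at h6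
    have h7 : G (f / π ^ (E.toQVal f)) = 0 := by omega
    rw [G.div hf hz, G.zpow hπ0] at h7
    linarith
  obtain ⟨a, m, ha, hne⟩ := h
  have hne' : E.toQVal (hom F a m) ≠ 0 := hne
  have h3 : G π = 1 := by
    have h4 := h2 (hom F a m) (hom_ne_zero ha m)
    rw [hGE a m ha] at h4
    have h5 : E.toQVal (hom F a m) * (G π - 1) = 0 := by linarith
    rcases mul_eq_zero.1 h5 with h6 | h6
    · exact absurd h6 hne'
    · linarith
  have h4 : ∀ f : F, f ≠ 0 → G f = E f := by
    intro f hf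
    rw [h2 f hf, h3, mul_one]
  intro p hp
  have hp' : algebraMap (MvPolynomial (Fin r) K) F p ≠ 0 := by
    intro h0
    apply hp
    apply IsFractionRing.injective (MvPolynomial (Fin r) K) F
    rw [h0, map_zero]
  rw [← h4 _ hp']
  exact hG p hp

end WNV
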