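import Mathlib

/-!
LIM. Compactness.
-/

namespace WNV

private theorem lim_lo {r : ℕ} (m : Fin r → ℝ) (i : Fin r) (v : Fin r → ℤ) (hv : v = Pi.single i 1) :
    ∑ j, m j * (v j : ℝ) = m i := by
  subst hv
  simp [Pi.single_apply]

private theorem lim_hi {r : ℕ} (m : Fin r → ℝ) (i : Fin r) (v : Fin r → ℤ) (hv : v = -Pi.single i 1) :
    ∑ j, m j * (v j : ℝ) = -m i := by
  subst hv
  simp [Pi.single_apply]

theorem exists_limit {r : ℕ} {κ : Type*} (a : κ → ℝ) (v : κ → Fin r → ℤ) (C : κ → ℝ)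
    (hp : ∀ i, ∃ k, v k = Pi.single i 1) (hn : ∀ i, ∃ k, v k = -Pi.single i 1)
    (h : ∀ ε : ℝ, 0 < ε → ∃ m : Fin r → ℝ, ∀ k, a k ≤ ∑ i, m i * (v k i : ℝ) + ε * C k) :
    ∃ m : Fin r → ℝ, ∀ k, a k ≤ ∑ i, m i * (v k i : ℝ) := by
  choose kp hkp using hp
  choose kn hkn using hn
  have hε : ∀ n : ℕ, (0 : ℝ) < 1 / ((n : ℝ) + 1) := fun n => by positivity
  choose M hM using fun n : ℕ => h (1 / ((n : ℝ) + 1)) (hε n)
  have hle : ∀ n : ℕ, 1 / ((n : ℝ) + 1) ≤ 1 := fun n => by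
    rw [div_le_one (by positivity)]
    have : (0 : ℝ) ≤ n := Nat.cast_nonneg n
    linarith
  have hb : ∀ (n : ℕ) (k : κ), 1 / ((n : ℝ) + 1) * C k ≤ |C k| := fun n k => by
    calc 1 / ((n : ℝ) + 1) * C k ≤ 1 / ((n : ℝ) + 1) * |C k| :=
          mul_le_mul_of_nonneg_left (le_abs_self _) (hε n).le
      _ ≤ 1 * |C k| := mul_le_mul_of_nonneg_right (hle n) (abs_nonneg _)
      _ = |C k| := one_mul _
  have hbox : ∀ n, M n ∈ Set.pi Set.univ
      (fun i => Set.Icc (a (kp i) - |C (kp i)|) (-(a (kn i) - |C (kn i)|))) := by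
    intro n i _
    have h1 := hM n (kp i)
    have h2 := hM n (kn i)
    rw [lim_lo (M n) i _ (hkp i)] at h1
    rw [lim_hi (M n) i _ (hkn i)] at h2
    have h3 := hb n (kp i)
    have h4 := hb n (kn i)
    constructor <;> linarith
  obtain ⟨m, -, φ, hφ, hlim⟩ := (isCompact_univ_pi (fun i => isCompact_Icc)).tendsto_subseq hbox
  refine ⟨m, fun k => ?_⟩
  have hl : Filter.Tendsto (fun n => ∑ i, M (φ n) i * (v k i : ℝ) + 1 / (((φ n : ℕ) : ℝ) + 1) * C k)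
      Filter.atTop (nhds (∑ i, m i * (v k i : ℝ) + 0 * C k)) := by
    refine Filter.Tendsto.add (tendsto_finsetSum _ fun i _ => ?_) ?_
    · exact ((tendsto_pi_nhds.1 hlim) i).mul_const _
    · exact (tendsto_one_div_add_atTop_nhds_zero_nat.comp hφ.tendsto_atTop).mul_const _
  rw [zero_mul, add_zero] at hl
  exact ge_of_tendsto' hl fun n => hM (φ n) k

end WNV
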