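import Pool.Agent.WNV.GRD
import Pool.Agent.WNV.ORP

/-!
ORR. A prime divisor along which all homogeneous elements have value `0` is some `ord_p`.
The proof is in the header of ORQ (`PROOF of prime_ordP`).
-/

set_option linter.unusedSectionVars false

namespace WNV

variable {r N : ℕ} {K F : Type} [Field K] [Algebra ℂ K] [Field F] [Algebra ℂ F]
    [Algebra K F] [IsScalarTower ℂ K F]
    [Algebra (MvPolynomial (Fin r) K) F] [IsScalarTower K (MvPolynomial (Fin r) K) F]
    [IsFractionRing (MvPolynomial (Fin r) K) F]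

private theorem orr_inj : Function.Injective (algebraMap (MvPolynomial (Fin r) K) F) :=
  IsFractionRing.injective _ _

private theorem orr_ne {p : MvPolynomial (Fin r) K} (hp : p ≠ 0) :
    algebraMap (MvPolynomial (Fin r) K) F p ≠ 0 := by
  intro h
  exact hp (orr_inj (F := F) (by rw [h, map_zero]))

private theorem orr_lau (E : DVal F)
    (h : ∀ (a : K) (m : Fin r → ℤ), a ≠ 0 → E (hom F a m) = 0) (c : (Fin r → ℤ) →₀ K) :
    Ge E 0 (lau F c) := by
  unfold lau Finsupp.sum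
  refine E.toQVal.ge_sum _ _ fun m hm => Or.inr ?_
  have := h (c m) m (Finsupp.mem_support_iff.1 hm)
  exact this.ge

private theorem orr_poly (E : DVal F)
    (h : ∀ (a : K) (m : Fin r → ℤ), a ≠ 0 → E (hom F a m) = 0)
    (p : MvPolynomial (Fin r) K) (hp : p ≠ 0) : 0 ≤ E (algebraMap _ F p) := by
  obtain ⟨c, hc, -⟩ := lau_of_poly (F := F) p
  have h1 := orr_lau E h c
  rw [← hc] at h1
  rcases h1 with h1 | h1
  · exact absurd h1 (orr_ne hp)
  · exact h1

private theorem orr_unit (E : DVal F)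
    (h : ∀ (a : K) (m : Fin r → ℤ), a ≠ 0 → E (hom F a m) = 0)
    (u : MvPolynomial (Fin r) K) (hu : IsUnit u) : E (algebraMap _ F u) = 0 := by
  obtain ⟨u, rfl⟩ := hu
  have h1 := orr_poly E h (u : MvPolynomial (Fin r) K) u.ne_zero
  have h2 := orr_poly E h ((u⁻¹ : (MvPolynomial (Fin r) K)ˣ) : MvPolynomial (Fin r) K) u⁻¹.ne_zero
  have h3 := E.toQVal.mul (orr_ne (F := F) u.ne_zero) (orr_ne (F := F) u⁻¹.ne_zero)
  rw [← map_mul, Units.mul_inv, map_one, QVal.one] at h3
  omega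

private theorem orr_factor (E : DVal F)
    (h : ∀ (a : K) (m : Fin r → ℤ), a ≠ 0 → E (hom F a m) = 0)
    (q : MvPolynomial (Fin r) K) : q ≠ 0 → 0 < E (algebraMap _ F q) →
    ∃ p : MvPolynomial (Fin r) K, Irreducible p ∧ 0 < E (algebraMap _ F p) := by
  refine UniqueFactorizationMonoid.induction_on_prime q ?_ ?_ ?_
  · intro h0
    exact absurd rfl h0
  · intro u hu _ hpos
    rw [orr_unit E h u hu] at hpos
    exact absurd hpos (lt_irrefl _)
  · intro a p ha hp ih _ hpos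
    have h1 := E.toQVal.mul (orr_ne (F := F) hp.ne_zero) (orr_ne (F := F) ha)
    rw [← map_mul] at h1
    by_cases h2 : 0 < E (algebraMap _ F p)
    · exact ⟨p, hp.irreducible, h2⟩
    · refine ih ha ?_
      have h3 := orr_poly E h p hp.ne_zero
      omega

private theorem orr_notMono (E : DVal F)
    (h : ∀ (a : K) (m : Fin r → ℤ), a ≠ 0 → E (hom F a m) = 0)
    (p : MvPolynomial (Fin r) K) (hp0 : p ≠ 0) (hp : 0 < E (algebraMap _ F p)) : NotMono p := by
  rintro i ⟨u, hu⟩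
  have h1 := E.toQVal.mul (orr_ne (F := F) hp0) (orr_ne (F := F) u.ne_zero)
  rw [← map_mul, hu] at h1
  have h2 := orr_unit E h _ u.isUnit
  have h3 : E (algebraMap _ F (MvPolynomial.X i : MvPolynomial (Fin r) K)) = 0 := by
    have h4 : (MvPolynomial.X i : MvPolynomial (Fin r) K) =
      MvPolynomial.monomial (Finsupp.single i 1) 1 := rfl
    rw [h4, algebraMap_monomial]
    exact h 1 _ one_ne_zero
  omega

/-- An element of the chart times a power product is a polynomial. -/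
private theorem orr_clear (x : Fin (N + 1) → F)
    (hx : ∀ j, ∃ (a : K) (m : Fin r → ℤ), a ≠ 0 ∧ x j = hom F a m) (i : Fin (N + 1))
    (a : F) (ha : a ∈ chart x i) :
    ∃ (t p : MvPolynomial (Fin r) K), t ≠ 0 ∧
      (∃ M : Fin r → ℕ, algebraMap _ F t = hom F (1 : K) (fun i => (M i : ℤ))) ∧
      a * algebraMap _ F t = algebraMap _ F p := by
  obtain ⟨c, hc, -⟩ := chart_graded x hx i a ha
  obtain ⟨M, p, h1, -⟩ := exists_poly (F := F) c
  have h2 : algebraMap (MvPolynomial (Fin r) K) F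
      (MvPolynomial.monomial (Finsupp.equivFunOnFinite.symm M) 1) =
      hom F (1 : K) (fun i => (M i : ℤ)) := by
    rw [algebraMap_monomial]
    rfl
  refine ⟨MvPolynomial.monomial (Finsupp.equivFunOnFinite.symm M) 1, p, ?_, ⟨M, h2⟩, ?_⟩
  · rw [Ne, MvPolynomial.monomial_eq_zero]
    exact one_ne_zero
  · rw [h2, hc, h1]

private theorem orr_zero (x : Fin (N + 1) → F)
    (hx : ∀ j, ∃ (a : K) (m : Fin r → ℤ), a ≠ 0 ∧ x j = hom F a m) (i : Fin (N + 1))
    (E : DVal F) (hE : IsPrimeOf (chart x i) E)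
    (h : ∀ (a : K) (m : Fin r → ℤ), a ≠ 0 → E (hom F a m) = 0)
    (p : MvPolynomial (Fin r) K) (hp : Irreducible p) (hpos : 0 < E (algebraMap _ F p))
    (q : MvPolynomial (Fin r) K) (hq : q ≠ 0) (hpq : ¬ p ∣ q) :
    E (algebraMap _ F q) = 0 := by
  by_contra hne
  have hq0 := orr_poly E h q hq
  have hp0 : p ≠ 0 := hp.ne_zero
  obtain ⟨e, he⟩ := Int.eq_ofNat_of_zero_le hpos.le
  obtain ⟨e', he'⟩ := Int.eq_ofNat_of_zero_le hq0
  have hιp := orr_ne (F := F) hp0
  have hιq := orr_ne (F := F) hq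
  set f : F := algebraMap _ F p ^ e' / algebraMap _ F q ^ e with hf
  have hf0 : f ≠ 0 := div_ne_zero (pow_ne_zero _ hιp) (pow_ne_zero _ hιq)
  have hEf : E f = 0 := by
    have h1 := E.toQVal.div (pow_ne_zero e' hιp) (pow_ne_zero e hιq)
    have h2 := E.toQVal.pow hιp e'
    have h3 := E.toQVal.pow hιq e
    have h4 : E f = (e' : ℤ) * E (algebraMap _ F p) - (e : ℤ) * E (algebraMap _ F q) := by
      rw [← h2, ← h3]
      exact h1
    rw [h4, he, he']
    ring
  obtain ⟨a, ha, b, hb, hb0, hEb, hab⟩ := hE.2 f hf0 hEf.ge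
  have hmain : algebraMap _ F p ^ e' * b = algebraMap _ F q ^ e * a := by
    rw [hf, div_eq_div_iff (pow_ne_zero _ hιq) hb0] at hab
    rw [hab]
    ring
  obtain ⟨ta, pa, hta, ⟨Ma, hMa⟩, hpa⟩ := orr_clear x hx i a ha
  obtain ⟨tb, pb, htb, ⟨Mb, hMb⟩, hpb⟩ := orr_clear x hx i b hb
  have hpoly : p ^ e' * (pb * ta) = q ^ e * (pa * tb) := by
    apply orr_inj (F := F)
    simp only [map_mul, map_pow]
    rw [← hpa, ← hpb]
    linear_combination (algebraMap _ F ta * algebraMap _ F tb) * hmain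
  have hprime : Prime p := hp.prime
  have hdvd : p ^ e' ∣ pa * tb :=
    hprime.pow_dvd_of_dvd_mul_left e' (fun hd => hpq (hprime.dvd_of_dvd_pow hd))
      ⟨pb * ta, hpoly.symm⟩
  obtain ⟨c, hc⟩ := hdvd
  have hc2 : pb * ta = q ^ e * c := by
    apply mul_left_cancel₀ (pow_ne_zero e' hp0)
    rw [hpoly, hc]
    ring
  have hbt : b * algebraMap _ F tb * algebraMap _ F ta = algebraMap _ F q ^ e * algebraMap _ F c := by
    rw [hpb, ← map_mul, hc2, map_mul, map_pow]
  have hιta := orr_ne (F := F) hta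
  have hιtb := orr_ne (F := F) htb
  have hc0 : c ≠ 0 := by
    rintro rfl
    rw [map_zero, mul_zero] at hbt
    exact (mul_ne_zero (mul_ne_zero hb0 hιtb) hιta) hbt
  have e1 := E.toQVal.mul (mul_ne_zero hb0 hιtb) hιta
  have e2 := E.toQVal.mul hb0 hιtb
  have e3 := E.toQVal.mul (pow_ne_zero e hιq) (orr_ne (F := F) hc0)
  have e4 := E.toQVal.pow hιq e
  have e5 : E (algebraMap _ F ta) = 0 := by rw [hMa]; exact h 1 _ one_ne_zero
  have e6 : E (algebraMap _ F tb) = 0 := by rw [hMb]; exact h 1 _ one_ne_zero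
  have e7 := orr_poly E h c hc0
  rw [hbt] at e1
  have e8 : E (algebraMap _ F q ^ e * algebraMap _ F c) = 0 := by
    have : E (algebraMap _ F q ^ e * algebraMap _ F c) =
      E (b * algebraMap _ F tb) + E (algebraMap _ F ta) := e1
    rw [this, e5, add_zero]
    have h9 : E (b * algebraMap _ F tb) = E b + E (algebraMap _ F tb) := e2
    rw [h9, e6, hEb, add_zero]
  have e9 : E (algebraMap _ F q ^ e * algebraMap _ F c) =
      (e : ℤ) * E (algebraMap _ F q) + E (algebraMap _ F c) := by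
    have h9 : E (algebraMap _ F q ^ e * algebraMap _ F c) =
      E (algebraMap _ F q ^ e) + E (algebraMap _ F c) := e3
    rw [h9]
    have h10 : E (algebraMap _ F q ^ e) = (e : ℤ) * E (algebraMap _ F q) := e4
    rw [h10]
  have hepos : (0 : ℤ) < e := by rw [he] at hpos; exact_mod_cast hpos
  have hqpos : 0 < E (algebraMap _ F q) := lt_of_le_of_ne hq0 (Ne.symm hne)
  have := mul_pos hepos hqpos
  omega

theorem prime_ordP (x : Fin (N + 1) → F)
    (hx : ∀ j, ∃ (a : K) (m : Fin r → ℤ), a ≠ 0 ∧ x j = hom F a m) (i : Fin (N + 1))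
    (E : DVal F) (hE : IsPrimeOf (chart x i) E)
    (h : ∀ (a : K) (m : Fin r → ℤ), a ≠ 0 → E (hom F a m) = 0) :
    ∃ p : MvPolynomial (Fin r) K, Irreducible p ∧ NotMono p ∧ IsOrdP (F := F) E p := by
  obtain ⟨f, hf0, hf1⟩ := E.exists_unif
  obtain ⟨p₁, q₁, hp₁, hq₁, hfe⟩ := exists_div (K := K) (r := r) f hf0
  have hdiv : E f = E (algebraMap _ F p₁) - E (algebraMap _ F q₁) := by
    rw [hfe]
    exact E.toQVal.div (orr_ne hp₁) (orr_ne hq₁)
  have hq₁0 := orr_poly E h q₁ hq₁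
  obtain ⟨p, hp, hpos⟩ := orr_factor E h p₁ hp₁ (by omega)
  have hz := orr_zero x hx i E hE h p hp hpos
  have hval : ∀ (n : ℕ) (q : MvPolynomial (Fin r) K), q ≠ 0 → ¬ p ∣ q →
      E (algebraMap _ F (p ^ n * q)) = n * E (algebraMap _ F p) := by
    intro n q hq hpq
    rw [map_mul, map_pow]
    have h1 : E (algebraMap _ F p ^ n * algebraMap _ F q) =
      E (algebraMap _ F p ^ n) + E (algebraMap _ F q) :=
      E.toQVal.mul (pow_ne_zero _ (orr_ne hp.ne_zero)) (orr_ne hq)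
    have h2 : E (algebraMap _ F p ^ n) = (n : ℤ) * E (algebraMap _ F p) :=
      E.toQVal.pow (orr_ne hp.ne_zero) n
    rw [h1, h2, hz q hq hpq, add_zero]
  refine ⟨p, hp, orr_notMono E h p hp.ne_zero hpos, ?_⟩
  obtain ⟨a, p₂, hp₂, hpp₂, ha⟩ := exists_pow_mul p hp p₁ hp₁
  obtain ⟨b, q₂, hq₂, hpq₂, hb⟩ := exists_pow_mul p hp q₁ hq₁
  have h1 := hval a p₂ hp₂ hpp₂
  have h2 := hval b q₂ hq₂ hpq₂
  rw [← ha] at h1
  rw [← hb] at h2
  have he : E (algebraMap _ F p) = 1 := by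
    have h3 : E (algebraMap _ F p) * ((a : ℤ) - b) = 1 := by
      rw [hf1, h1, h2] at hdiv
      linarith
    rcases Int.eq_one_or_neg_one_of_mul_eq_one h3 with h4 | h4
    · exact h4
    · omega
  intro n q hq hpq
  rw [hval n q hq hpq, he, mul_one]

end WNV
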