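import Pool.Agent.WNV.FAR

/-!
SEP. Separation: if `⟨m, v⟩ ≥ Σ_j δ_j min_{t ∈ S_j} ⟨t, v⟩` for all primitive integral `v` then
`m ∈ Σ_j δ_j conv(S_j)`.

PROOF. (1) `G(v) = ⟨m, v⟩ - Σ_j δ_j min_{t ∈ S_j} ⟨t, v⟩` (`Finset.inf'`) is `≥ 0` for primitive
integral `v` (`min ≤` the value at the chosen `t j`, `δ_j ≥ 0`), hence for every nonzero integral `v`
(divide by the gcd of the coordinates: `v = d v'`, `v'` primitive by Bezout
(`Finset.gcd_eq_...`, `exists_gcd_eq_...`; or use that the subgroup `{Σ u_i v_i}` of `ℤ` is `dℤ`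
(`Int.subgroup_cyclic`/`AddSubgroup`), `d > 0`, every `v_i ∈ dℤ`)), trivially for `v = 0`, hence for
rational `v` (multiply by a common denominator), hence for all real `v`: `G` is continuous
(`Finset.inf'` of continuous functions: `Continuous.finset_inf'`) and rational vectors are dense
(`DenseRange.pi`/`Rat.denseRange_cast` ; `DenseRange.induction_on` or `isClosed_property`).
(2) Let `W = (Fin s → ℝ) × (Fin r → ℝ)`, index set `ι = Σ j, {t // t ∈ S j}`,
`A_{(j,t)}(τ, v) = τ_j + δ_j ⟨t, v⟩`, `b(τ, v) = Σ τ_j + ⟨m, v⟩`. If all `A_{(j,t)}(τ, v) ≥ 0` then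
`τ_j ≥ - δ_j min_t ⟨t, v⟩`, so `b(τ, v) ≥ G(v) ≥ 0`. `farkas_fintype` gives `x_{(j,t)} ≥ 0` with
`b = Σ x A`. Evaluate at `(e_j, 0)`: `1 = Σ_t x_{(j,t)}`; at `(0, e_i)`: `m_i = Σ δ_j x_{(j,t)} t_i`.
-/

namespace WNV

private def SP {r s : ℕ} (S : Fin s → Finset (Fin r →₀ ℕ)) (δ : Fin s → ℝ) (m : Fin r → ℝ)
    (v : Fin r → ℝ) : Prop :=
  ∃ t : Fin s → (Fin r →₀ ℕ), (∀ j, t j ∈ S j) ∧
    ∑ j, δ j * ∑ i, (t j i : ℝ) * v i ≤ ∑ i, m i * v i

private theorem SP_smul {r s : ℕ} {S : Fin s → Finset (Fin r →₀ ℕ)} {δ : Fin s → ℝ}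
    {m : Fin r → ℝ} (c : ℝ) (hc : 0 ≤ c) {v w : Fin r → ℝ} (hw : ∀ i, w i = c * v i)
    (h : SP S δ m v) : SP S δ m w := by
  obtain ⟨t, ht, hle⟩ := h
  refine ⟨t, ht, ?_⟩
  have e1 : ∑ j, δ j * ∑ i, (t j i : ℝ) * w i = c * ∑ j, δ j * ∑ i, (t j i : ℝ) * v i := by
    rw [Finset.mul_sum]
    refine Finset.sum_congr rfl fun j _ => ?_
    rw [Finset.mul_sum, Finset.mul_sum, Finset.mul_sum]
    refine Finset.sum_congr rfl fun i _ => ?_
    rw [hw]
    ring
  have e2 : ∑ i, m i * w i = c * ∑ i, m i * v i := by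
    rw [Finset.mul_sum]
    refine Finset.sum_congr rfl fun i _ => ?_
    rw [hw]
    ring
  rw [e1, e2]
  exact mul_le_mul_of_nonneg_left hle hc

private theorem int_prim {r : ℕ} (v : Fin r → ℤ) (hv : v ≠ 0) :
    ∃ (d : ℤ) (w : Fin r → ℤ), 0 < d ∧ (∀ i, v i = d * w i) ∧
      ∃ u : Fin r → ℤ, ∑ i, u i * w i = 1 := by
  obtain ⟨d, hd⟩ := (IsPrincipalIdealRing.principal (Ideal.span (Set.range v))).principal
  have hd' : Ideal.span (Set.range v) = Ideal.span {d} := hd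
  have hmem : ∀ i, ∃ w, v i = d * w := by
    intro i
    have h1 : v i ∈ Ideal.span {d} := by
      rw [← hd']
      exact Ideal.subset_span ⟨i, rfl⟩
    exact Ideal.mem_span_singleton.1 h1
  choose w hw using hmem
  have hdm : d ∈ Ideal.span (Set.range v) := by
    rw [hd']
    exact Ideal.mem_span_singleton_self d
  obtain ⟨u, hu⟩ := Ideal.mem_span_range_iff_exists_fun.1 hdm
  have hd0 : d ≠ 0 := by
    intro h0
    apply hv
    funext i
    rw [hw i, h0, zero_mul]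
    rfl
  have h1 : d * (∑ i, u i * w i) = d * 1 := by
    rw [Finset.mul_sum, mul_one]
    conv_rhs => rw [← hu]
    refine Finset.sum_congr rfl fun i _ => ?_
    rw [hw i]
    ring
  have h2 : ∑ i, u i * w i = 1 := mul_left_cancel₀ hd0 h1
  rcases lt_or_gt_of_ne hd0 with h | h
  · refine ⟨-d, fun i => -(w i), by omega, fun i => by rw [hw i]; ring, fun i => -(u i), ?_⟩
    rw [← h2]
    refine Finset.sum_congr rfl fun i _ => ?_
    ring
  · exact ⟨d, w, h, hw, u, h2⟩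

private theorem SP_all {r s : ℕ} {S : Fin s → Finset (Fin r →₀ ℕ)} (hS : ∀ j, (S j).Nonempty)
    {δ : Fin s → ℝ} {m : Fin r → ℝ}
    (h : ∀ v : Fin r → ℤ, (∃ u : Fin r → ℤ, ∑ i, u i * v i = 1) →
      SP S δ m (fun i => (v i : ℝ))) (v : Fin r → ℝ) : SP S δ m v := by
  have hint : ∀ v : Fin r → ℤ, SP S δ m (fun i => (v i : ℝ)) := by
    intro v
    by_cases hv : v = 0
    · refine ⟨fun j => (hS j).choose, fun j => (hS j).choose_spec, ?_⟩
      simp [hv]
    · obtain ⟨d, w, hd, hw, hu⟩ := int_prim v hv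
      refine SP_smul (d : ℝ) (by exact_mod_cast hd.le) (fun i => ?_) (h w hu)
      rw [hw i]
      push_cast
      ring
  have hrat : ∀ q : Fin r → ℚ, SP S δ m (fun i => (q i : ℝ)) := by
    intro q
    have hk : ∀ i, ∃ k : ℕ, (∏ j, (q j).den) = (q i).den * k :=
      fun i => Finset.dvd_prod_of_mem (fun j => (q j).den) (Finset.mem_univ i)
    choose k hk using hk
    have hD : (0 : ℝ) < ((∏ j, (q j).den : ℕ) : ℝ) := by
      exact_mod_cast Finset.prod_pos fun j _ => (q j).den_pos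
    refine SP_smul (((∏ j, (q j).den : ℕ) : ℝ)⁻¹) (inv_nonneg.2 hD.le) (fun i => ?_)
      (hint fun i => (q i).num * k i)
    rw [eq_inv_mul_iff_mul_eq₀ hD.ne']
    have h1 : ((q i) : ℝ) * ((q i).den : ℝ) = ((q i).num : ℝ) := by
      exact_mod_cast Rat.mul_den_eq_num (q i)
    rw [hk i]
    push_cast
    rw [← h1]
    ring
  have hcl : IsClosed {v : Fin r → ℝ | SP S δ m v} := by
    have : {v : Fin r → ℝ | SP S δ m v} =
        ⋃ t ∈ (Fintype.piFinset S : Finset (Fin s → (Fin r →₀ ℕ))),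
          {v : Fin r → ℝ | ∑ j, δ j * ∑ i, (t j i : ℝ) * v i ≤ ∑ i, m i * v i} := by
      ext v
      simp only [Set.mem_setOf_eq, Set.mem_iUnion, Fintype.mem_piFinset, SP]
      constructor
      · rintro ⟨t, ht, hle⟩
        exact ⟨t, ht, hle⟩
      · rintro ⟨t, ht, hle⟩
        exact ⟨t, ht, hle⟩
    rw [this]
    refine Set.Finite.isClosed_biUnion (Finset.finite_toSet _) fun t _ => ?_
    refine isClosed_le ?_ ?_
    · fun_prop
    · fun_prop
  have hdense : DenseRange (fun q : Fin r → ℚ => fun i => ((q i : ℚ) : ℝ)) :=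
    DenseRange.piMap (fun _ => Rat.denseRange_cast)
  have hsub : Set.range (fun q : Fin r → ℚ => fun i => ((q i : ℚ) : ℝ)) ⊆
      {v : Fin r → ℝ | SP S δ m v} := by
    rintro _ ⟨q, rfl⟩
    exact hrat q
  have := hcl.closure_subset_iff.2 hsub (hdense v)
  exact this

theorem exists_convex {r s : ℕ} (S : Fin s → Finset (Fin r →₀ ℕ)) (hS : ∀ j, (S j).Nonempty)
    (δ : Fin s → ℝ) (hδ : ∀ j, 0 ≤ δ j) (m : Fin r → ℝ)
    (h : ∀ v : Fin r → ℤ, (∃ u : Fin r → ℤ, ∑ i, u i * v i = 1) →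
      ∃ t : Fin s → (Fin r →₀ ℕ), (∀ j, t j ∈ S j) ∧
        ∑ j, δ j * ∑ i, (t j i : ℝ) * v i ≤ ∑ i, m i * v i) :
    ∃ lam : Fin s → (Fin r →₀ ℕ) → ℝ, (∀ j t, 0 ≤ lam j t) ∧
      (∀ j, ∑ t ∈ S j, lam j t = 1) ∧
      ∀ i, m i = ∑ j, δ j * ∑ t ∈ S j, lam j t * (t i : ℝ) := by
  classical
  have hall := SP_all hS (δ := δ) (m := m) h
  let A : (Σ j, {t // t ∈ S j}) → (((Fin s → ℝ) × (Fin r → ℝ)) →ₗ[ℝ] ℝ) := fun p =>
    (LinearMap.proj p.1).comp (LinearMap.fst ℝ (Fin s → ℝ) (Fin r → ℝ)) +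
      δ p.1 • ∑ i, ((p.2 : Fin r →₀ ℕ) i : ℝ) •
        (LinearMap.proj i).comp (LinearMap.snd ℝ (Fin s → ℝ) (Fin r → ℝ))
  have hA : ∀ p w, A p w = w.1 p.1 + δ p.1 * ∑ i, ((p.2 : Fin r →₀ ℕ) i : ℝ) * w.2 i := by
    intro p w
    simp [A]
  let b : ((Fin s → ℝ) × (Fin r → ℝ)) →ₗ[ℝ] ℝ :=
    (∑ j, (LinearMap.proj j).comp (LinearMap.fst ℝ (Fin s → ℝ) (Fin r → ℝ))) +
      ∑ i, (m i) • (LinearMap.proj i).comp (LinearMap.snd ℝ (Fin s → ℝ) (Fin r → ℝ))
  have hb : ∀ w, b w = ∑ j, w.1 j + ∑ i, m i * w.2 i := by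
    intro w
    simp [b]
  obtain ⟨x, hx, hbx⟩ := farkas_fintype A b (by
    intro w hw
    obtain ⟨t, ht, hle⟩ := hall w.2
    rw [hb]
    have h1 : ∀ j, -(δ j * ∑ i, (t j i : ℝ) * w.2 i) ≤ w.1 j := by
      intro j
      have := hw ⟨j, ⟨t j, ht j⟩⟩
      rw [hA] at this
      simp only at this
      linarith
    have h2 := Finset.sum_le_sum fun j (_ : j ∈ Finset.univ) => h1 j
    rw [Finset.sum_neg_distrib] at h2
    linarith)
  have hval : ∀ w, b w = ∑ j, ∑ t : {t // t ∈ S j}, x ⟨j, t⟩ *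
      (w.1 j + δ j * ∑ i, ((t : Fin r →₀ ℕ) i : ℝ) * w.2 i) := by
    intro w
    rw [hbx, LinearMap.sum_apply, Fintype.sum_sigma]
    refine Finset.sum_congr rfl fun j _ => Finset.sum_congr rfl fun t _ => ?_
    rw [LinearMap.smul_apply, hA, smul_eq_mul]
  have hsum : ∀ j (g : (Fin r →₀ ℕ) → ℝ),
      ∑ t ∈ S j, (if ht : t ∈ S j then x ⟨j, ⟨t, ht⟩⟩ else 0) * g t =
        ∑ t : {t // t ∈ S j}, x ⟨j, t⟩ * g t := by
    intro j g
    rw [← Finset.sum_attach, Finset.univ_eq_attach]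
    refine Finset.sum_congr rfl fun t _ => ?_
    rw [dif_pos t.2]
  refine ⟨fun j t => if ht : t ∈ S j then x ⟨j, ⟨t, ht⟩⟩ else 0, ?_, ?_, ?_⟩
  · intro j t
    simp only
    split_ifs with ht
    · exact hx _
    · exact le_rfl
  · intro j
    have h1 := hval (Pi.single j 1, 0)
    rw [hb] at h1
    simp only [Finset.sum_pi_single', Finset.mem_univ, if_true, Pi.zero_apply, mul_zero,
      Finset.sum_const_zero, add_zero] at h1
    have h2 := hsum j (fun _ => 1)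
    simp only [mul_one] at h2
    rw [h2]
    rw [Finset.sum_eq_single j] at h1
    · simp only [Pi.single_eq_same, mul_one] at h1
      exact h1.symm
    · intro j' _ hj'
      refine Finset.sum_eq_zero fun t _ => ?_
      rw [Pi.single_eq_of_ne hj', mul_zero]
    · intro h
      exact absurd (Finset.mem_univ j) h
  · intro i
    have h1 := hval (0, Pi.single i 1)
    rw [hb] at h1
    simp only [Pi.zero_apply, Finset.sum_const_zero, zero_add, Pi.single_apply, mul_ite, mul_one,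
      mul_zero, Finset.sum_ite_eq', Finset.mem_univ, if_true] at h1
    rw [h1]
    refine Finset.sum_congr rfl fun j _ => ?_
    rw [hsum j (fun t => (t i : ℝ)), Finset.mul_sum]
    refine Finset.sum_congr rfl fun t _ => ?_
    ring

end WNV
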