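import Pool.Agent.WNV.ASA
import Pool.Agent.WNV.LIM
import Pool.Agent.WNV.SEP
import Pool.Agent.WNV.LOG
import Pool.Agent.WNV.TRV
import Pool.Agent.WNV.CLS
import Pool.Agent.WNV.ORR

/-! ASB. Assembly, second part. -/

set_option linter.unusedSectionVars false

namespace WNV

variable {c r N : ℕ} {K F : Type} [Field K] [Algebra ℂ K] [Field F] [Algebra ℂ F]
    [Algebra K F] [IsScalarTower ℂ K F]
    [Algebra (MvPolynomial (Fin r) K) F] [IsScalarTower K (MvPolynomial (Fin r) K) F]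
    [IsFractionRing (MvPolynomial (Fin r) K) F]

/-- The exponent and the multipliers. -/
theorem exists_lam (y : Fin c → K) (hy : IsTranscendenceBasis ℂ y) (x : Fin (N + 1) → F)
    (hx : ∀ j, ∃ (a : K) (m : Fin r → ℤ), a ≠ 0 ∧ x j = hom F a m)
    (hn : ∀ i, IsIntegrallyClosed (chart x i)) (hf : ∀ i, IsFractionRing (chart x i) F)
    (D : DVal F → ℝ) (hC : IsRCartier x D)
    (hlc : ∀ E : DVal F, IsToric r K E → LcAt x (form r F y) D E)
    (hps : IsPsef x D)
    {s : ℕ} (p : Fin s → MvPolynomial (Fin r) K)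
    (hp : ∀ j, Irreducible (p j)) (hm : ∀ j, NotMono (p j))
    (hpp : ∀ j j', j ≠ j' → ¬ Associated (p j) (p j')) (δ : Fin s → ℝ) (hδ : ∀ j, 0 ≤ δ j)
    (h1 : ∀ j, ∀ E : DVal F, IsOrdP (F := F) E (p j) → D E ≤ δ j)
    (h2 : ∀ q : MvPolynomial (Fin r) K, Irreducible q → NotMono q →
      (∀ j, ¬ Associated q (p j)) → ∀ E : DVal F, IsOrdP (F := F) E q → D E ≤ 0) :
    ∃ lam : Fin s → (Fin r →₀ ℕ) → ℝ, (∀ j t, 0 ≤ lam j t) ∧
      (∀ j, ∑ t ∈ (p j).support, lam j t = 1) ∧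
      ∀ (E : DVal F) (v : Fin r → ℤ), IsGauss (F := F) E (QVal.triv K) v →
        ∀ i, IsPrimeOf (chart x i) E → ∑ j, δ j * (E (algebraMap _ F (p j)) : ℝ) - D E ≤
          ∑ j, δ j * ∑ t ∈ (p j).support, lam j t * ∑ i, (t i : ℝ) * (v i : ℝ) := by
  classical
  -- index set of the constraints
  let κ := {q : DVal F × (Fin r → ℤ) × Bool // IsGauss (F := F) q.1 (QVal.triv K) q.2.1 ∧
    (q.2.2 = true → ∃ i, IsPrimeOf (chart x i) q.1)}
  obtain ⟨m, hm'⟩ := exists_limit (κ := κ)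
    (fun k => ∑ j, δ j * (k.1.1 (algebraMap _ F (p j)) : ℝ) -
      (if k.1.2.2 = true then D k.1.1 else 0))
    (fun k => k.1.2.1) (fun k => ∑ l, |((k.1.1 (x 0 / x l) : ℤ) : ℝ)|)
    (by
      intro i
      obtain ⟨E, hE⟩ := exists_toric K F (Pi.single i 1 : Fin r → ℤ) (Pi.single i 1) (by
        rw [Finset.sum_eq_single i]
        · simp
        · intro b _ hb
          simp [hb]
        · simp)
      exact ⟨⟨⟨E, Pi.single i 1, false⟩, hE, by simp⟩, rfl⟩)
    (by
      intro i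
      obtain ⟨E, hE⟩ := exists_toric K F (-Pi.single i 1 : Fin r → ℤ) (-Pi.single i 1) (by
        rw [Finset.sum_eq_single i]
        · simp
        · intro b _ hb
          simp [hb]
        · simp)
      exact ⟨⟨⟨E, -Pi.single i 1, false⟩, hE, by simp⟩, rfl⟩)
    (by
      intro ε hε
      obtain ⟨φ, hφ⟩ := hps ε hε
      obtain ⟨m, hm'⟩ := psef_step y hy x hx hn hf D hC hlc p hp hm hpp δ h1 h2 ε hε φ hφ
      refine ⟨m, ?_⟩
      rintro ⟨⟨E, v, b⟩, hE, hb⟩
      obtain ⟨ha, hb'⟩ := hm' E v hE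
      cases b with
      | false => simpa using ha
      | true =>
        obtain ⟨i, hi⟩ := hb rfl
        simpa using hb' i hi)
  have hsupp : ∀ j, (p j).support.Nonempty := by
    intro j
    rw [Finset.nonempty_iff_ne_empty]
    intro h
    exact (hp j).ne_zero (MvPolynomial.support_eq_empty.1 h)
  obtain ⟨lam, hl0, hl1, hlm⟩ := exists_convex (fun j => (p j).support) hsupp δ hδ m (by
    intro v hv
    obtain ⟨u, hu⟩ := hv
    obtain ⟨E, hE⟩ := exists_toric K F v u hu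
    have hk := hm' ⟨⟨E, v, false⟩, hE, by simp⟩
    have hch : ∀ j, ∃ t ∈ (p j).support, E (algebraMap _ F (p j)) = ∑ i, (t i : ℤ) * v i := by
      intro j
      obtain ⟨-, t, ht, h⟩ := hE (p j) (hp j).ne_zero
      refine ⟨t, ht, ?_⟩
      rw [h]
      simp
    choose t ht htE using hch
    refine ⟨t, ht, ?_⟩
    simp only [Bool.false_eq_true, if_false, sub_zero] at hk
    refine le_trans (le_of_eq ?_) hk
    refine Finset.sum_congr rfl fun j _ => ?_
    rw [htE j]
    push_cast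
    rfl)
  refine ⟨lam, hl0, hl1, ?_⟩
  intro E v hE i hi
  have hk := hm' ⟨⟨E, v, true⟩, hE, fun _ => ⟨i, hi⟩⟩
  simp only [if_true] at hk
  refine hk.trans (le_of_eq ?_)
  have : ∀ i, m i * (v i : ℝ) = ∑ j, δ j * ∑ t ∈ (p j).support, lam j t * ((t i : ℝ) * v i) := by
    intro i
    rw [hlm i, Finset.sum_mul]
    refine Finset.sum_congr rfl fun j _ => ?_
    rw [mul_assoc, Finset.sum_mul]
    congr 1
    refine Finset.sum_congr rfl fun t _ => ?_
    ring
  simp only [this]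
  rw [Finset.sum_comm]
  refine Finset.sum_congr rfl fun j _ => ?_
  rw [← Finset.mul_sum]
  congr 1
  rw [Finset.sum_comm]
  refine Finset.sum_congr rfl fun t _ => ?_
  rw [Finset.mul_sum]

end WNV
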