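import Pool.Agent.WNV.VAL

/-!
ODB. Basic properties of the order of a form.

PROOFS. `OrdGE E ω a` is membership in an additive subgroup, `AddSubgroup.closure_induction`.
* `ordGE_smul`: generators: `g • (f • ι) = (g f) • ι`, `E (g f) ≥ a + b` (`QVal.ge_mul`).
* `ordGE_mono`: the generating sets are nested.
* `ordGE_reg`: if every `θ j` is in the additive subgroup generated by the `f • D x` with
  `E f ≥ 0` (or `f = 0`) and `E x ≥ 0` (or `x = 0`), then `ιMulti θ` has order `≥ 0`.
  Expand by multilinearity, one slot at a time: prove by induction on `k ≤ n` that the statement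
  holds when the slots `j ≥ k` are already of the form `D x_j` (up to a factor `f`), more precisely:
  for all `k ≤ n`, all `g` with `Ge E 0 g` and all `θ` with `θ j` in the subgroup for `j < k` and
  `θ j = D (x j)` for `j ≥ k`: `OrdGE E (g • ιMulti θ) 0`. For `k + 1`: closure induction on
  `θ k` (write `θ = Function.update θ k τ`; `AlternatingMap.map_update_add`,
  `map_update_smul`).
-/

set_option linter.unusedSectionVars false

namespace WNV

open exteriorPower

variable {F : Type} [Field F] [Algebra ℂ F] {n : ℕ}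

theorem ordGE_zero (E : F → ℤ) (a : ℤ) :
    OrdGE E (0 : ⋀[F]^n (KaehlerDifferential ℂ F)) a :=
  AddSubgroup.zero_mem _

theorem ordGE_add {E : F → ℤ} {ω τ : ⋀[F]^n (KaehlerDifferential ℂ F)} {a : ℤ}
    (h : OrdGE E ω a) (h' : OrdGE E τ a) : OrdGE E (ω + τ) a :=
  AddSubgroup.add_mem _ h h'

theorem ordGE_neg {E : F → ℤ} {ω : ⋀[F]^n (KaehlerDifferential ℂ F)} {a : ℤ}
    (h : OrdGE E ω a) : OrdGE E (-ω) a :=
  AddSubgroup.neg_mem _ h

theorem ordGE_sum {ι : Type*} (s : Finset ι) {E : F → ℤ}
    {ω : ι → ⋀[F]^n (KaehlerDifferential ℂ F)} {a : ℤ}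
    (h : ∀ i ∈ s, OrdGE E (ω i) a) : OrdGE E (∑ i ∈ s, ω i) a :=
  AddSubgroup.sum_mem _ h

theorem ordGE_mono {E : F → ℤ} {ω : ⋀[F]^n (KaehlerDifferential ℂ F)} {a b : ℤ}
    (hab : a ≤ b) (h : OrdGE E ω b) : OrdGE E ω a := by
  refine AddSubgroup.closure_mono ?_ h
  rintro τ ⟨f, x, hf, hx, rfl⟩
  exact ⟨f, x, hf.imp id fun h' => hab.trans h', hx, rfl⟩

theorem ordGE_smul (E : QVal F) {ω : ⋀[F]^n (KaehlerDifferential ℂ F)} {a b : ℤ} {g : F}
    (hg : Ge E a g) (h : OrdGE E ω b) : OrdGE E (g • ω) (a + b) := by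
  unfold OrdGE at h
  induction h using AddSubgroup.closure_induction with
  | mem τ hτ =>
    obtain ⟨f, x, hf, hx, rfl⟩ := hτ
    refine AddSubgroup.subset_closure ⟨g * f, x, E.ge_mul hg hf, hx, ?_⟩
    rw [smul_smul]
  | zero =>
    rw [smul_zero]
    exact ordGE_zero _ _
  | add σ τ _ _ h1 h2 =>
    rw [smul_add]
    exact ordGE_add h1 h2
  | neg τ _ h1 =>
    rw [smul_neg]
    exact ordGE_neg h1

/-- The exact order is unique. -/
theorem isOrd_unique {E : F → ℤ} {ω : ⋀[F]^n (KaehlerDifferential ℂ F)} {a b : ℤ}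
    (h : IsOrd E ω a) (h' : IsOrd E ω b) : a = b := by
  rcases lt_trichotomy a b with hlt | heq | hlt
  · exact absurd (ordGE_mono (by omega) h'.1) h.2
  · exact heq
  · exact absurd (ordGE_mono (by omega) h.1) h'.2

theorem le_of_isOrd {E : F → ℤ} {ω : ⋀[F]^n (KaehlerDifferential ℂ F)} {a b : ℤ}
    (h : IsOrd E ω a) (h' : OrdGE E ω b) : b ≤ a := by
  by_contra hlt
  push Not at hlt
  exact h.2 (ordGE_mono (by omega) h')

/-- The additive group of regular differentials (image of the differentials of the valuation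
ring of `E`). -/
noncomputable def RegDiff (E : F → ℤ) : AddSubgroup (KaehlerDifferential ℂ F) :=
  AddSubgroup.closure {τ | ∃ f x : F, Ge E 0 f ∧ Ge E 0 x ∧ τ = f • KaehlerDifferential.D ℂ F x}

theorem regDiff_D {E : QVal F} {x : F} (hx : Ge E 0 x) :
    KaehlerDifferential.D ℂ F x ∈ RegDiff (F := F) E :=
  AddSubgroup.subset_closure ⟨1, x, E.ge_one, hx, (one_smul _ _).symm⟩

theorem regDiff_smul {E : QVal F} {g : F} (hg : Ge E 0 g) {τ : KaehlerDifferential ℂ F}
    (h : τ ∈ RegDiff (F := F) E) : g • τ ∈ RegDiff (F := F) E := by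
  unfold RegDiff at h
  induction h using AddSubgroup.closure_induction with
  | mem τ hτ =>
    obtain ⟨f, x, hf, hx, rfl⟩ := hτ
    refine AddSubgroup.subset_closure ⟨g * f, x, ?_, hx, ?_⟩
    · simpa using E.ge_mul hg hf
    · rw [smul_smul]
  | zero =>
    rw [smul_zero]
    exact AddSubgroup.zero_mem _
  | add σ τ _ _ h1 h2 =>
    rw [smul_add]
    exact AddSubgroup.add_mem _ h1 h2
  | neg τ _ h1 =>
    rw [smul_neg]
    exact AddSubgroup.neg_mem _ h1

private theorem ODB_aux (E : QVal F) (k : ℕ) : ∀ θ : Fin n → KaehlerDifferential ℂ F,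
    (∀ j, θ j ∈ RegDiff (F := F) E) →
    (∀ j : Fin n, k ≤ j.val → ∃ x, Ge E 0 x ∧ θ j = KaehlerDifferential.D ℂ F x) →
    ∀ g, Ge E 0 g → OrdGE E (g • ιMulti F n θ) 0 := by
  induction k with
  | zero =>
    intro θ _ h2 g hg
    choose x hx hθ using fun j => h2 j (Nat.zero_le _)
    refine AddSubgroup.subset_closure ⟨g, x, hg, hx, ?_⟩
    congr 2
    exact funext hθ
  | succ k ih =>
    intro θ h1 h2 g hg
    by_cases hk : k < n
    · have key : ∀ τ ∈ RegDiff (F := F) E, ∀ g, Ge E 0 g →
          OrdGE E (g • ιMulti F n (Function.update θ ⟨k, hk⟩ τ)) 0 := by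
        intro τ hτ
        unfold RegDiff at hτ
        induction hτ using AddSubgroup.closure_induction with
        | mem τ hτ =>
          obtain ⟨f, x, hf, hx, rfl⟩ := hτ
          intro g hg
          rw [AlternatingMap.map_update_smul, smul_smul]
          refine ih _ ?_ ?_ (g * f) ?_
          · intro j
            by_cases hj : j = ⟨k, hk⟩
            · subst hj
              rw [Function.update_self]
              exact regDiff_D hx
            · rw [Function.update_of_ne hj]
              exact h1 j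
          · intro j hj
            by_cases hj' : j = ⟨k, hk⟩
            · subst hj'
              rw [Function.update_self]
              exact ⟨x, hx, rfl⟩
            · rw [Function.update_of_ne hj']
              refine h2 j ?_
              have : j.val ≠ k := fun h => hj' (Fin.ext h)
              omega
          · simpa using E.ge_mul hg hf
        | zero =>
          intro g _
          rw [AlternatingMap.map_update_zero, smul_zero]
          exact ordGE_zero _ _
        | add σ τ _ _ a1 a2 =>
          intro g hg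
          rw [AlternatingMap.map_update_add, smul_add]
          exact ordGE_add (a1 g hg) (a2 g hg)
        | neg τ _ a1 =>
          intro g hg
          rw [AlternatingMap.map_update_neg, smul_neg]
          exact ordGE_neg (a1 g hg)
      have := key (θ ⟨k, hk⟩) (h1 _) g hg
      rwa [Function.update_eq_self] at this
    · exact ih θ h1 (fun j hj => absurd j.isLt (by omega)) g hg

theorem ordGE_reg (E : QVal F) (θ : Fin n → KaehlerDifferential ℂ F)
    (h : ∀ j, θ j ∈ RegDiff (F := F) E) : OrdGE E (ιMulti F n θ) 0 := by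
  have := ODB_aux E n θ h (fun j hj => absurd j.isLt (by omega)) 1 E.ge_one
  rwa [one_smul] at this

end WNV
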