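import Pool.Agent.WNV.Defs2
import Pool.Agent.WNV.ODB
import Pool.Agent.WNV.PAI
import Pool.Agent.WNV.DRV
import Pool.Agent.WNV.GVL

/-! BRG. Forms as elements of the exterior power and forms as functions of derivations. -/

set_option linter.unusedSectionVars false

namespace WNV

open exteriorPower

open scoped IntermediateField.algebraAdjoinAdjoin TensorProduct

section

variable {K : Type} [Field K] [Algebra ℂ K] {n : ℕ}

variable (K n) in
/-- The linear map which sends a form to its values on derivations. -/
noncomputable def pairMap : (⋀[K]^n (KaehlerDifferential ℂ K)) →ₗ[K] RForm K n :=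
  LinearMap.pi fun d => Classical.choose (exists_pair d)

theorem pairMap_iMulti (θ : Fin n → KaehlerDifferential ℂ K)
    (d : Fin n → Derivation ℂ K K) :
    pairMap K n (ιMulti K n θ) d =
      Matrix.det (Matrix.of fun i j => (d i).liftKaehlerDifferential (θ j)) :=
  Classical.choose_spec (exists_pair d) θ

theorem pairMap_D (x : Fin n → K) :
    pairMap K n (ιMulti K n fun i => KaehlerDifferential.D ℂ K (x i)) = wedge x := by
  funext d
  rw [pairMap_iMulti]
  unfold wedge
  congr 1
  ext i j
  rw [Matrix.of_apply, Derivation.liftKaehlerDifferential_comp_D, Matrix.of_apply]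

theorem pairMap_gen (f : K) (x : Fin n → K) :
    pairMap K n (f • ιMulti K n fun i => KaehlerDifferential.D ℂ K (x i)) =
      fun d => f * wedge x d := by
  rw [map_smul, pairMap_D]
  rfl

theorem fOrdGE_of {E : K → ℤ} {ω : ⋀[K]^n (KaehlerDifferential ℂ K)} {a : ℤ}
    (h : OrdGE E ω a) : FOrdGE E (pairMap K n ω) a := by
  unfold OrdGE at h
  unfold FOrdGE
  induction h using AddSubgroup.closure_induction with
  | mem τ hτ =>
    obtain ⟨f, x, hf, hx, rfl⟩ := hτ
    rw [pairMap_gen]
    exact AddSubgroup.subset_closure ⟨f, x, hf, hx, rfl⟩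
  | zero => rw [map_zero]; exact AddSubgroup.zero_mem _
  | add τ τ' _ _ h h' => rw [map_add]; exact AddSubgroup.add_mem _ h h'
  | neg τ _ h => rw [map_neg]; exact AddSubgroup.neg_mem _ h

theorem ordGE_of {E : K → ℤ} {ω : ⋀[K]^n (KaehlerDifferential ℂ K)} {a : ℤ}
    (hinj : Function.Injective (pairMap K n)) (h : FOrdGE E (pairMap K n ω) a) :
    OrdGE E ω a := by
  have key : ∀ τ : RForm K n, FOrdGE E τ a → ∃ ω' : ⋀[K]^n (KaehlerDifferential ℂ K),
      OrdGE E ω' a ∧ pairMap K n ω' = τ := by
    intro τ hτ
    unfold FOrdGE at hτ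
    induction hτ using AddSubgroup.closure_induction with
    | mem τ hτ =>
      obtain ⟨f, x, hf, hx, rfl⟩ := hτ
      exact ⟨f • ιMulti K n fun i => KaehlerDifferential.D ℂ K (x i),
        AddSubgroup.subset_closure ⟨f, x, hf, hx, rfl⟩, pairMap_gen f x⟩
    | zero => exact ⟨0, AddSubgroup.zero_mem _, map_zero _⟩
    | add τ τ' _ _ h h' =>
      obtain ⟨ω, hω, rfl⟩ := h
      obtain ⟨ω', hω', rfl⟩ := h'
      exact ⟨ω + ω', AddSubgroup.add_mem _ hω hω', map_add _ _ _⟩
    | neg τ _ h =>
      obtain ⟨ω, hω, rfl⟩ := h
      exact ⟨-ω, AddSubgroup.neg_mem _ hω, map_neg _ _⟩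
  obtain ⟨ω', hω', he⟩ := key _ h
  rw [← hinj he]
  exact hω'

theorem span_D {c : ℕ} (y : Fin c → K) (hy : IsTranscendenceBasis ℂ y) :
    Submodule.span K (Set.range fun j => KaehlerDifferential.D ℂ K (y j)) = ⊤ := by
  set A := Algebra.adjoin ℂ (Set.range y) with hA
  have h0 : Algebra.FormallyEtale A K := by
    have h1 : Algebra.FormallyEtale (Algebra.adjoin ℂ (Set.range y))
        (IntermediateField.adjoin ℂ (Set.range y)) := .of_isLocalization (nonZeroDivisors _)
    have h2 : Algebra.IsAlgebraic (IntermediateField.adjoin ℂ (Set.range y)) K :=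
      hy.isAlgebraic_field
    have h3 : Algebra.IsSeparable (IntermediateField.adjoin ℂ (Set.range y)) K := inferInstance
    have h4 : Algebra.FormallyEtale (IntermediateField.adjoin ℂ (Set.range y)) K :=
      Algebra.FormallyEtale.of_isSeparable _ K
    exact .comp _ (IntermediateField.adjoin ℂ (Set.range y)) _
  set S := Submodule.span K (Set.range fun j => KaehlerDifferential.D ℂ K (y j)) with hS
  have hgen : ∀ a ∈ A, KaehlerDifferential.D ℂ K a ∈ S := by
    intro a ha
    induction ha using Algebra.adjoin_induction with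
    | mem x hx =>
      obtain ⟨j, rfl⟩ := hx
      exact Submodule.subset_span ⟨j, rfl⟩
    | algebraMap z =>
      rw [Derivation.map_algebraMap]
      exact Submodule.zero_mem _
    | add x x' _ _ h h' => rw [map_add]; exact Submodule.add_mem _ h h'
    | mul x x' _ _ h h' =>
      rw [Derivation.leibniz]
      exact Submodule.add_mem _ (Submodule.smul_mem _ _ h') (Submodule.smul_mem _ _ h)
  have hsurj : Function.Surjective (KaehlerDifferential.mapBaseChange ℂ A K) := by
    rw [← LinearMap.range_eq_top, KaehlerDifferential.range_mapBaseChange, ← top_le_iff]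
    have : Subsingleton (KaehlerDifferential A K) := inferInstance
    intro x _
    exact LinearMap.mem_ker.2 (Subsingleton.elim _ _)
  have hmap : ∀ τ : KaehlerDifferential ℂ A, KaehlerDifferential.map ℂ ℂ A K τ ∈ S := by
    intro τ
    have hτ : τ ∈ Submodule.span A (Set.range (KaehlerDifferential.D ℂ A)) := by
      rw [KaehlerDifferential.span_range_derivation]; trivial
    induction hτ using Submodule.span_induction with
    | mem τ hτ =>
      obtain ⟨a, rfl⟩ := hτ
      rw [KaehlerDifferential.map_D]
      exact hgen _ a.2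
    | zero => rw [map_zero]; exact Submodule.zero_mem _
    | add τ τ' _ _ h h' => rw [map_add]; exact Submodule.add_mem _ h h'
    | smul a τ _ h =>
      rw [map_smul]
      have : a • (KaehlerDifferential.map ℂ ℂ A K τ) =
          (algebraMap A K a) • (KaehlerDifferential.map ℂ ℂ A K τ) :=
        (algebraMap_smul K a _).symm
      rw [this]
      exact Submodule.smul_mem _ _ h
  rw [eq_top_iff]
  intro τ _
  obtain ⟨z, rfl⟩ := hsurj τ
  induction z with
  | zero => rw [map_zero]; exact Submodule.zero_mem _
  | tmul k τ =>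
    rw [KaehlerDifferential.mapBaseChange_tmul]
    exact Submodule.smul_mem _ _ (hmap τ)
  | add z z' h h' => rw [map_add]; exact Submodule.add_mem _ (h trivial) (h' trivial)

theorem pairMap_injective (y : Fin n → K) (hy : IsTranscendenceBasis ℂ y) :
    Function.Injective (pairMap K n) := by
  classical
  set η := ιMulti K n fun i => KaehlerDifferential.D ℂ K (y i) with hη
  choose d hd using exists_deriv y hy
  have h1 : pairMap K n η d = 1 := by
    rw [hη, pairMap_D]
    unfold wedge
    have : (Matrix.of fun i j => d i (y j) : Matrix (Fin n) (Fin n) K) = 1 := by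
      ext i j
      rw [Matrix.of_apply, hd, Matrix.one_apply]
      by_cases h : j = i
      · rw [if_pos h, if_pos h.symm]
      · rw [if_neg h, if_neg (Ne.symm h)]
    rw [this, Matrix.det_one]
  have hspan : ∀ ω : ⋀[K]^n (KaehlerDifferential ℂ K), ∃ k : K, ω = k • η := by
    intro ω
    have hω : ω ∈ Submodule.span K (ιMulti K n ''
        {a | Set.range a ⊆ Set.range fun j => KaehlerDifferential.D ℂ K (y j)}) := by
      rw [ιMulti_span_of_span K n _ (span_D y hy)]; trivial
    induction hω using Submodule.span_induction with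
    | mem ω hω =>
      obtain ⟨a, ha, rfl⟩ := hω
      have : ∀ i, ∃ j, a i = KaehlerDifferential.D ℂ K (y j) := by
        intro i
        obtain ⟨j, hj⟩ := ha ⟨i, rfl⟩
        exact ⟨j, hj.symm⟩
      choose σ hσ using this
      by_cases hb : Function.Injective σ
      · have hbij : Function.Bijective σ := Finite.injective_iff_bijective.1 hb
        refine ⟨((Equiv.Perm.sign (Equiv.ofBijective σ hbij) : ℤˣ) : ℤ), ?_⟩
        have : a = (fun i => KaehlerDifferential.D ℂ K (y i)) ∘ (Equiv.ofBijective σ hbij) := by
          funext i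
          rw [hσ i]
          rfl
        rw [this, AlternatingMap.map_perm, ← hη]
        rcases Int.units_eq_one_or (Equiv.Perm.sign (Equiv.ofBijective σ hbij)) with h | h
        · rw [h]; simp
        · have e : ((((-1 : ℤˣ) : ℤ) : K)) = -1 := by simp
          rw [h, e, Units.neg_smul, one_smul]
          exact (neg_one_smul K η).symm
      · unfold Function.Injective at hb
        push Not at hb
        obtain ⟨i, i', hii, hne⟩ := hb
        refine ⟨0, ?_⟩
        rw [zero_smul]
        exact AlternatingMap.map_eq_zero_of_eq _ _ (by rw [hσ i, hσ i', hii]) hne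
    | zero => exact ⟨0, by rw [zero_smul]⟩
    | add ω ω' _ _ h h' =>
      obtain ⟨k, rfl⟩ := h
      obtain ⟨k', rfl⟩ := h'
      exact ⟨k + k', by rw [add_smul]⟩
    | smul k ω _ h =>
      obtain ⟨k', rfl⟩ := h
      exact ⟨k * k', by rw [mul_smul]⟩
  rw [injective_iff_map_eq_zero]
  intro ω hω
  obtain ⟨k, rfl⟩ := hspan ω
  have := congrFun hω d
  rw [map_smul, Pi.smul_apply, h1] at this
  have hk : k = 0 := by simpa using this
  rw [hk, zero_smul]

theorem fIsOrd_iff (y : Fin n → K) (hy : IsTranscendenceBasis ℂ y) (E : K → ℤ)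
    (ω : ⋀[K]^n (KaehlerDifferential ℂ K)) (a : ℤ) :
    FIsOrd E (pairMap K n ω) a ↔ IsOrd E ω a := by
  have hinj := pairMap_injective y hy
  unfold FIsOrd IsOrd
  constructor
  · rintro ⟨h1, h2⟩
    exact ⟨ordGE_of hinj h1, fun h => h2 (fOrdGE_of h)⟩
  · rintro ⟨h1, h2⟩
    exact ⟨fOrdGE_of h1, fun h => h2 (ordGE_of hinj h)⟩

end

section

variable {c r : ℕ} {K F : Type} [Field K] [Algebra ℂ K] [Field F] [Algebra ℂ F]
    [Algebra K F] [IsScalarTower ℂ K F]
    [Algebra (MvPolynomial (Fin r) K) F] [IsScalarTower K (MvPolynomial (Fin r) K) F]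
    [IsFractionRing (MvPolynomial (Fin r) K) F]

theorem pairMap_form (y : Fin c → K) : pairMap F (c + r) (form r F y) = tform r F y := by
  classical
  funext d
  unfold form tform wedge
  rw [pairMap_iMulti]
  have h1 : (Matrix.of fun i j => (d i).liftKaehlerDifferential
      (Fin.append (fun j => KaehlerDifferential.D ℂ F (algebraMap K F (y j)))
      (fun j => (tt r K F j)⁻¹ • KaehlerDifferential.D ℂ F (tt r K F j)) j)) =
      Matrix.of fun i j => (Fin.append (fun _ : Fin c => (1 : F)) (fun j => (tt r K F j)⁻¹) j) *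
        (d i (Fin.append (fun j => algebraMap K F (y j)) (tt r K F) j)) := by
    ext i j
    rw [Matrix.of_apply, Matrix.of_apply]
    refine Fin.addCases (fun j => ?_) (fun j => ?_) j
    · rw [Fin.append_left, Fin.append_left, Fin.append_left,
        Derivation.liftKaehlerDifferential_comp_D, one_mul]
    · rw [Fin.append_right, Fin.append_right, Fin.append_right, map_smul,
        Derivation.liftKaehlerDifferential_comp_D, smul_eq_mul]
  rw [h1, Matrix.det_mul_row]
  congr 1
  rw [Fin.prod_univ_add]
  simp

theorem transcendence_append (y : Fin c → K) (hy : IsTranscendenceBasis ℂ y) :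
    IsTranscendenceBasis ℂ (Fin.append (fun j => algebraMap K F (y j)) (tt r K F)) := by
  have hX : IsTranscendenceBasis K (MvPolynomial.X : Fin r → MvPolynomial (Fin r) K) :=
    IsTranscendenceBasis.mvPolynomial (Fin r) K
  have halg : Algebra.IsAlgebraic (MvPolynomial (Fin r) K) F :=
    IsLocalization.isAlgebraic F (nonZeroDivisors (MvPolynomial (Fin r) K))
  have ht : IsTranscendenceBasis K (tt r K F) :=
     hX.algebraMap_comp (A := F)
  have h := hy.sumElim_comp ht
  have h2 := (isTranscendenceBasis_equiv' ((Equiv.sumComm (Fin r) (Fin c)).trans finSumFinEquiv)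
    (f := Fin.append (fun j => algebraMap K F (y j)) (tt r K F))
    (g := Sum.elim (tt r K F) (algebraMap K F ∘ y)) (by
      funext s
      rcases s with j | j
      · simp
      · simp)).1 h
  exact h2

end

end WNV
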