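import Pool.Agent.WNV.GVL

/-!
DEX. Extension of derivations from `K` to `F = K(t_1,…,t_r)`, with prescribed logarithmic
derivatives of the `t_i`.

PROOF. Dual numbers. Let `T = TrivSqZeroExt F F` (`DualNumber F`). The ring homomorphism
`K → T`, `a ↦ (a, d a)` and `X i ↦ (t_i, e_i t_i)` define `φ : MvPolynomial (Fin r) K →+* T`
(`MvPolynomial.eval₂Hom`). `fst (φ p) = algebraMap p` (ring homomorphisms agreeing on generators),
so `φ p` is a unit of `T` for `p ≠ 0` (`TrivSqZeroExt.isUnit_iff_isUnit_fst`), so `φ` extends to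
`ψ : F →+* T` (`IsLocalization.lift` / `IsFractionRing`), `fst (ψ f) = f`; `D f = snd (ψ f)` is a
derivation: additive, Leibniz from `snd_mul`, `D (algebraMap ℂ F z) = snd (ψ (C z)) = d z = 0`.

`deriv_hom` : from Leibniz and `Derivation.leibniz_zpow` (or `leibniz_pow`, `leibniz_inv`).
`deriv_poly`: `D (algebraMap p) = Σ_{s ∈ supp p} hom (d p_s + (Σ e_i s_i) p_s) s`
(`MvPolynomial.as_sum`, `algebraMap_monomial`, `deriv_hom`).
-/

set_option linter.unusedSectionVars false

namespace WNV

variable {r : ℕ} {K F : Type} [Field K] [Algebra ℂ K] [Field F] [Algebra ℂ F]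
    [Algebra K F] [IsScalarTower ℂ K F]
    [Algebra (MvPolynomial (Fin r) K) F] [IsScalarTower K (MvPolynomial (Fin r) K) F]
    [IsFractionRing (MvPolynomial (Fin r) K) F]

/-- `a ↦ a + ε d a` -/
private noncomputable def dexHom (F : Type) [Field F] [Algebra K F] (d : Derivation ℂ K K) :
    K →+* TrivSqZeroExt F F where
  toFun a := TrivSqZeroExt.inl (algebraMap K F a) + TrivSqZeroExt.inr (algebraMap K F (d a))
  map_one' := by
    rw [map_one, Derivation.map_one_eq_zero, map_zero]
    ext <;> simp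
  map_mul' a b := by
    rw [Derivation.leibniz]
    ext
    · simp
    · simp
      rw [Algebra.smul_def, Algebra.smul_def]
      ring
  map_zero' := by
    rw [map_zero, map_zero, map_zero]
    ext <;> simp
  map_add' a b := by
    rw [map_add, map_add, map_add]
    ext
    · simp
    · simp
      rw [Algebra.smul_def, Algebra.smul_def, mul_one, mul_one]

theorem exists_extend (d : Derivation ℂ K K) (e : Fin r → ℤ) :
    ∃ D : Derivation ℂ F F, (∀ a, D (algebraMap K F a) = algebraMap K F (d a)) ∧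
      ∀ i, D (tt r K F i) = (e i : F) * tt r K F i := by
  classical
  obtain ⟨φ, hφ⟩ : ∃ φ : MvPolynomial (Fin r) K →+* TrivSqZeroExt F F,
      φ = MvPolynomial.eval₂Hom (dexHom F d) (fun i => TrivSqZeroExt.inl (tt r K F i) +
        TrivSqZeroExt.inr ((e i : F) * tt r K F i)) := ⟨_, rfl⟩
  have hφC : ∀ a, φ (MvPolynomial.C a) = TrivSqZeroExt.inl (algebraMap K F a) +
      TrivSqZeroExt.inr (algebraMap K F (d a)) := by
    intro a
    rw [hφ, MvPolynomial.eval₂Hom_C]
    rfl
  have hφX : ∀ i, φ (MvPolynomial.X i) = TrivSqZeroExt.inl (tt r K F i) +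
      TrivSqZeroExt.inr ((e i : F) * tt r K F i) := by
    intro i
    rw [hφ, MvPolynomial.eval₂Hom_X']
  have hfst : (TrivSqZeroExt.fstHom F F F).toRingHom.comp φ = algebraMap (MvPolynomial (Fin r) K) F := by
    refine MvPolynomial.ringHom_ext ?_ ?_
    · intro a
      have h0 : (TrivSqZeroExt.fstHom F F F).toRingHom.comp φ (MvPolynomial.C a) =
          TrivSqZeroExt.fst (φ (MvPolynomial.C a)) := rfl
      rw [h0, hφC, ← MvPolynomial.algebraMap_eq,
        ← IsScalarTower.algebraMap_apply K (MvPolynomial (Fin r) K) F]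
      simp
    · intro i
      have h0 : (TrivSqZeroExt.fstHom F F F).toRingHom.comp φ (MvPolynomial.X i) =
          TrivSqZeroExt.fst (φ (MvPolynomial.X i)) := rfl
      rw [h0, hφX]
      simp [tt]
  have hfst' : ∀ p, TrivSqZeroExt.fst (φ p) = algebraMap (MvPolynomial (Fin r) K) F p := by
    intro p
    have := congrArg (fun g => g p) hfst
    exact this
  have hunit : ∀ y : nonZeroDivisors (MvPolynomial (Fin r) K), IsUnit (φ y) := by
    intro y
    rw [TrivSqZeroExt.isUnit_iff_isUnit_fst, hfst', isUnit_iff_ne_zero]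
    exact (map_ne_zero_iff _ (IsFractionRing.injective (MvPolynomial (Fin r) K) F)).2
      (nonZeroDivisors.ne_zero y.2)
  obtain ⟨ψ, hψ⟩ : ∃ ψ : F →+* TrivSqZeroExt F F, ψ = IsLocalization.lift hunit := ⟨_, rfl⟩
  have hψa : ∀ p, ψ (algebraMap (MvPolynomial (Fin r) K) F p) = φ p := by
    intro p
    rw [hψ]
    exact IsLocalization.lift_eq hunit p
  have hψf : ∀ f, TrivSqZeroExt.fst (ψ f) = f := by
    have h0 : (TrivSqZeroExt.fstHom F F F).toRingHom.comp ψ = RingHom.id F := by
      refine IsLocalization.ringHom_ext (nonZeroDivisors (MvPolynomial (Fin r) K)) ?_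
      refine RingHom.ext fun p => ?_
      have h1 : ((TrivSqZeroExt.fstHom F F F).toRingHom.comp ψ).comp
          (algebraMap (MvPolynomial (Fin r) K) F) p =
          TrivSqZeroExt.fst (ψ (algebraMap (MvPolynomial (Fin r) K) F p)) := rfl
      rw [h1, hψa, hfst']
      rfl
    intro f
    exact congrArg (fun g => g f) h0
  have hK : ∀ a, algebraMap K F a = algebraMap (MvPolynomial (Fin r) K) F (MvPolynomial.C a) := by
    intro a
    rw [← MvPolynomial.algebraMap_eq, ← IsScalarTower.algebraMap_apply K (MvPolynomial (Fin r) K) F]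
  have hD1 : ∀ a, TrivSqZeroExt.snd (ψ (algebraMap K F a)) = algebraMap K F (d a) := by
    intro a
    rw [hK, hψa, hφC, TrivSqZeroExt.snd_add, TrivSqZeroExt.snd_inl, TrivSqZeroExt.snd_inr, zero_add]
  have hleib : ∀ f g, TrivSqZeroExt.snd (ψ (f * g)) =
      f * TrivSqZeroExt.snd (ψ g) + g * TrivSqZeroExt.snd (ψ f) := by
    intro f g
    rw [map_mul, TrivSqZeroExt.snd_mul, hψf, hψf]
    simp [mul_comm]
  let L : F →ₗ[ℂ] F :=
    { toFun := fun f => TrivSqZeroExt.snd (ψ f)
      map_add' := by
        intro f g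
        rw [map_add, TrivSqZeroExt.snd_add]
      map_smul' := by
        intro z f
        rw [Algebra.smul_def, hleib]
        have h0 : TrivSqZeroExt.snd (ψ (algebraMap ℂ F z)) = 0 := by
          rw [IsScalarTower.algebraMap_apply ℂ K F, hD1, Derivation.map_algebraMap, map_zero]
        rw [h0, mul_zero, add_zero, RingHom.id_apply, Algebra.smul_def] }
  refine ⟨Derivation.mk' L fun f g => ?_, fun a => hD1 a, fun i => ?_⟩
  · have h0 : L (f * g) = f * L g + g * L f := hleib f g
    rw [h0, smul_eq_mul, smul_eq_mul]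
  · have h0 : (Derivation.mk' L fun f g => by
        have h0 : L (f * g) = f * L g + g * L f := hleib f g
        rw [h0, smul_eq_mul, smul_eq_mul] : Derivation ℂ F F) (tt r K F i) =
        TrivSqZeroExt.snd (ψ (tt r K F i)) := rfl
    rw [h0]
    have h1 : tt r K F i = algebraMap (MvPolynomial (Fin r) K) F (MvPolynomial.X i) := rfl
    rw [h1, hψa, hφX]
    simp [tt]

theorem deriv_hom (d : Derivation ℂ K K) (e : Fin r → ℤ) (D : Derivation ℂ F F)
    (h1 : ∀ a, D (algebraMap K F a) = algebraMap K F (d a))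
    (h2 : ∀ i, D (tt r K F i) = (e i : F) * tt r K F i) (a : K) (m : Fin r → ℤ) :
    D (hom F a m) = hom F (d a + ((∑ i, m i * e i : ℤ) : K) * a) m := by
  classical
  have hz : ∀ i (k : ℤ), D (tt r K F i ^ k) = ((k * e i : ℤ) : F) * tt r K F i ^ k := by
    intro i k
    have ht : tt r K F i ≠ 0 := tt_ne_zero i
    rw [Derivation.leibniz_zpow, h2]
    rw [← Int.cast_smul_eq_zsmul F k, smul_eq_mul, smul_eq_mul, zpow_sub_one₀ ht]
    push_cast
    field_simp
  have hp : ∀ s : Finset (Fin r), D (∏ i ∈ s, tt r K F i ^ m i) =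
      ((∑ i ∈ s, m i * e i : ℤ) : F) * ∏ i ∈ s, tt r K F i ^ m i := by
    intro s
    induction s using Finset.induction_on with
    | empty => simp
    | insert b s hb ih =>
      rw [Finset.prod_insert hb, Finset.sum_insert hb, Derivation.leibniz, ih, hz,
        smul_eq_mul, smul_eq_mul]
      push_cast
      ring
  unfold hom
  rw [Derivation.leibniz, hp, h1, smul_eq_mul, smul_eq_mul, map_add, map_mul, map_intCast]
  ring

theorem deriv_poly (d : Derivation ℂ K K) (e : Fin r → ℤ) (D : Derivation ℂ F F)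
    (h1 : ∀ a, D (algebraMap K F a) = algebraMap K F (d a))
    (h2 : ∀ i, D (tt r K F i) = (e i : F) * tt r K F i) (p : MvPolynomial (Fin r) K) :
    D (algebraMap _ F p) = ∑ s ∈ p.support,
      hom F (d (p.coeff s) + ((∑ i, (s i : ℤ) * e i : ℤ) : K) * p.coeff s)
        (fun i => (s i : ℤ)) := by
  conv_lhs => rw [MvPolynomial.as_sum p]
  rw [map_sum, map_sum]
  refine Finset.sum_congr rfl fun s _ => ?_
  rw [algebraMap_monomial, deriv_hom d e D h1 h2]

/-- The derivative of (the image of) a polynomial is (the image of) a polynomial. -/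
theorem deriv_poly' (d : Derivation ℂ K K) (e : Fin r → ℤ) (D : Derivation ℂ F F)
    (h1 : ∀ a, D (algebraMap K F a) = algebraMap K F (d a))
    (h2 : ∀ i, D (tt r K F i) = (e i : F) * tt r K F i) (p : MvPolynomial (Fin r) K) :
    ∃ q : MvPolynomial (Fin r) K, D (algebraMap _ F p) = algebraMap _ F q := by
  refine ⟨∑ s ∈ p.support, MvPolynomial.monomial s
    (d (p.coeff s) + ((∑ i, (s i : ℤ) * e i : ℤ) : K) * p.coeff s), ?_⟩
  rw [deriv_poly d e D h1 h2, map_sum]
  exact Finset.sum_congr rfl fun s _ => (algebraMap_monomial s _).symm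

end WNV
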