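import Pool.Agent.WNV.DEX
import Pool.Agent.WNV.ORP

/-!
DRG. Derivations of `F` extended from `K` preserve the valuation rings of toric valuations and
of `ord_p`.

PROOFS. Let `E` be toric with vector `v` (`IsGauss E (triv K) v`).
* `toric_deriv`: `E f ≤ E (D f)` (or `D f = 0`). For a polynomial `p`: by `deriv_poly` `D p` is a sum
  of homogeneous elements with exponents `s ∈ supp p`, of value `⟨s, v⟩ ≥ E p` (`gauss_hom`, for
  nonzero coefficient) (`QVal.ge_sum`). For `f = p / q` (`exists_div` in LAU, or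
  `IsFractionRing.div_surjective`): `D f = (q D p - p D q) / q²` (`Derivation.leibniz_div`).
* `toric_euler`: `D = D_v` is the derivation with `d = 0`, `e = v`: for all `f ≠ 0`
  `Ge E (E f + 1) (D f - (E f) f)`. For a polynomial: `D p - (E p) p = Σ (⟨s,v⟩ - E p) p_s t^s`, the
  terms with `⟨s,v⟩ = E p` vanish, the others have value `⟨s,v⟩ ≥ E p + 1`. For `f = p/q`:
  `D f - E(f) f = (q (D p - E(p) p) - p (D q - E(q) q)) / q²`.
* `toric_euler'`: for `Ge E 0 f`: `Ge E 1 (D f)`: if `E f = 0` this is `toric_euler`; if `E f ≥ 1` use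
  `toric_deriv` (or `toric_euler` and `E ((E f) f) ≥ 1`).
* `ordP_deriv`: for `f` with `Ge E 0 f`, `E = ord_p`: `f = p₁ / q₁` with `p ∤ q₁` (cancel powers of
  `p`, `exists_pow_mul`), `D f = (q₁ D p₁ - p₁ D q₁)/q₁²`, numerator a polynomial (`deriv_poly'`),
  value `≥ 0`, `E q₁ = 0`.
-/

set_option linter.unusedSectionVars false

namespace WNV

variable {r : ℕ} {K F : Type} [Field K] [Algebra ℂ K] [Field F] [Algebra ℂ F]
    [Algebra K F] [IsScalarTower ℂ K F]
    [Algebra (MvPolynomial (Fin r) K) F] [IsScalarTower K (MvPolynomial (Fin r) K) F]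
    [IsFractionRing (MvPolynomial (Fin r) K) F]

private theorem drg_div (f : F) (hf : f ≠ 0) :
    ∃ p q : MvPolynomial (Fin r) K, p ≠ 0 ∧ q ≠ 0 ∧ f = algebraMap _ F p / algebraMap _ F q := by
  obtain ⟨p, q, hq, h⟩ := IsFractionRing.div_surjective (A := MvPolynomial (Fin r) K) f
  refine ⟨p, q, ?_, nonZeroDivisors.ne_zero hq, h.symm⟩
  rintro rfl
  apply hf
  rw [← h, map_zero, zero_div]

private theorem drg_ne {p : MvPolynomial (Fin r) K} (hp : p ≠ 0) :
    algebraMap (MvPolynomial (Fin r) K) F p ≠ 0 :=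
  (map_ne_zero_iff _ (IsFractionRing.injective (MvPolynomial (Fin r) K) F)).2 hp

private theorem drg_hom0 (m : Fin r → ℤ) : hom F (0 : K) m = 0 := by
  unfold hom
  rw [map_zero, zero_mul]

private theorem drg_poly (E : QVal F) (v : Fin r → ℤ) (hE : IsGauss (F := F) E (QVal.triv K) v)
    (d : Derivation ℂ K K) (e : Fin r → ℤ) (D : Derivation ℂ F F)
    (h1 : ∀ a, D (algebraMap K F a) = algebraMap K F (d a))
    (h2 : ∀ i, D (tt r K F i) = (e i : F) * tt r K F i) (p : MvPolynomial (Fin r) K) (hp : p ≠ 0) :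
    Ge E (E (algebraMap _ F p)) (D (algebraMap _ F p)) := by
  rw [deriv_poly d e D h1 h2 p]
  refine E.ge_sum _ _ ?_
  intro s hs
  by_cases hc : d (p.coeff s) + ((∑ i, (s i : ℤ) * e i : ℤ) : K) * p.coeff s = 0
  · rw [hc]
    exact Or.inl (drg_hom0 _)
  · refine Or.inr ?_
    rw [gauss_hom hE hc, QVal.triv_apply]
    have := (hE p hp).1 s hs
    rwa [QVal.triv_apply] at this

/-- the quotient rule for the values -/
private theorem drg_quot (E : QVal F) {P Q A B : F} {n : ℤ} (hP : P ≠ 0) (hQ : Q ≠ 0)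
    (hA : Ge E (E P + n) A) (hB : Ge E (E Q + n) B) :
    Ge E (E (P / Q) + n) (Q⁻¹ ^ 2 * (Q * A - P * B)) := by
  have h1 : Ge E (-(2 * E Q)) (Q⁻¹ ^ 2) := by
    refine Or.inr ?_
    rw [E.pow (inv_ne_zero hQ), E.inv]
    push_cast
    linarith
  have h2 := E.ge_mul (E.ge_self Q) hA
  have h3 := E.ge_mul (E.ge_self P) hB
  have e : E P + (E Q + n) = E Q + (E P + n) := by ring
  rw [e] at h3
  have h4 := E.ge_mul h1 (E.ge_sub h2 h3)
  have e2 : -(2 * E Q) + (E Q + (E P + n)) = E (P / Q) + n := by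
    rw [E.div hP hQ]
    ring
  rwa [e2] at h4

theorem toric_deriv (E : QVal F) (v : Fin r → ℤ) (hE : IsGauss (F := F) E (QVal.triv K) v)
    (d : Derivation ℂ K K) (e : Fin r → ℤ) (D : Derivation ℂ F F)
    (h1 : ∀ a, D (algebraMap K F a) = algebraMap K F (d a))
    (h2 : ∀ i, D (tt r K F i) = (e i : F) * tt r K F i) (f : F) : Ge E (E f) (D f) := by
  by_cases hf : f = 0
  · subst hf
    exact Or.inl (map_zero D)
  · obtain ⟨p, q, hp, hq, rfl⟩ := drg_div (r := r) (K := K) f hf
    have hA := drg_poly E v hE d e D h1 h2 p hp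
    have hB := drg_poly E v hE d e D h1 h2 q hq
    have h3 := drg_quot E (n := 0) (drg_ne (F := F) hp) (drg_ne (F := F) hq) (by rwa [add_zero]) (by rwa [add_zero])
    rw [add_zero] at h3
    rw [Derivation.leibniz_div]
    exact h3

private theorem drg_euler (E : QVal F) (v : Fin r → ℤ) (hE : IsGauss (F := F) E (QVal.triv K) v)
    (D : Derivation ℂ F F) (h1 : ∀ a, D (algebraMap K F a) = 0)
    (h2 : ∀ i, D (tt r K F i) = (v i : F) * tt r K F i) (p : MvPolynomial (Fin r) K) (hp : p ≠ 0) :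
    Ge E (E (algebraMap _ F p) + 1)
      (D (algebraMap _ F p) - (E (algebraMap _ F p) : F) * algebraMap _ F p) := by
  have h1' : ∀ a, D (algebraMap K F a) = algebraMap K F ((0 : Derivation ℂ K K) a) := by
    intro a
    rw [h1, Derivation.zero_apply, map_zero]
  obtain ⟨c, hc⟩ : ∃ c : ℤ, c = E (algebraMap _ F p) := ⟨_, rfl⟩
  have hP : algebraMap (MvPolynomial (Fin r) K) F p =
      ∑ s ∈ p.support, hom F (p.coeff s) (fun i => (s i : ℤ)) := by
    conv_lhs => rw [p.as_sum]
    rw [map_sum]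
    exact Finset.sum_congr rfl fun s _ => algebraMap_monomial s _
  have e : D (algebraMap _ F p) - (c : F) * algebraMap _ F p =
      ∑ s ∈ p.support, hom F (((∑ i, (s i : ℤ) * v i - c : ℤ) : K) * p.coeff s) (fun i => (s i : ℤ)) := by
    rw [deriv_poly 0 v D h1' h2 p, hP, Finset.mul_sum, ← Finset.sum_sub_distrib]
    refine Finset.sum_congr rfl fun s _ => ?_
    unfold hom
    rw [Derivation.zero_apply, zero_add, map_mul, map_mul, map_intCast, map_intCast]
    push_cast
    ring
  rw [← hc, e]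
  refine E.ge_sum _ _ ?_
  intro s hs
  have h3 := (hE p hp).1 s hs
  rw [QVal.triv_apply, zero_add, ← hc] at h3
  by_cases h4 : ∑ i, (s i : ℤ) * v i = c
  · rw [h4, sub_self]
    refine Or.inl ?_
    rw [Int.cast_zero, zero_mul]
    exact drg_hom0 _
  · by_cases h5 : ((∑ i, (s i : ℤ) * v i - c : ℤ) : K) * p.coeff s = 0
    · rw [h5]
      exact Or.inl (drg_hom0 _)
    · refine Or.inr ?_
      rw [gauss_hom hE h5, QVal.triv_apply, zero_add]
      omega

theorem toric_euler (E : QVal F) (v : Fin r → ℤ) (hE : IsGauss (F := F) E (QVal.triv K) v)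
    (D : Derivation ℂ F F) (h1 : ∀ a, D (algebraMap K F a) = 0)
    (h2 : ∀ i, D (tt r K F i) = (v i : F) * tt r K F i) (f : F) :
    Ge E (E f + 1) (D f - (E f : F) * f) := by
  by_cases hf : f = 0
  · subst hf
    refine Or.inl ?_
    rw [map_zero, mul_zero, sub_zero]
  · obtain ⟨p, q, hp, hq, rfl⟩ := drg_div (r := r) (K := K) f hf
    have hA := drg_euler E v hE D h1 h2 p hp
    have hB := drg_euler E v hE D h1 h2 q hq
    have h3 := drg_quot E (n := 1) (drg_ne (F := F) hp) (drg_ne (F := F) hq) hA hB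
    have e : D (algebraMap (MvPolynomial (Fin r) K) F p / algebraMap (MvPolynomial (Fin r) K) F q) -
        (E (algebraMap (MvPolynomial (Fin r) K) F p / algebraMap (MvPolynomial (Fin r) K) F q) : F) *
          (algebraMap (MvPolynomial (Fin r) K) F p / algebraMap (MvPolynomial (Fin r) K) F q) =
        (algebraMap (MvPolynomial (Fin r) K) F q)⁻¹ ^ 2 *
        (algebraMap (MvPolynomial (Fin r) K) F q *
          (D (algebraMap _ F p) - (E (algebraMap _ F p) : F) * algebraMap _ F p) -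
        algebraMap (MvPolynomial (Fin r) K) F p *
          (D (algebraMap _ F q) - (E (algebraMap _ F q) : F) * algebraMap _ F q)) := by
      rw [Derivation.leibniz_div, E.div (drg_ne (F := F) hp) (drg_ne (F := F) hq), smul_eq_mul, smul_eq_mul,
        smul_eq_mul]
      have hq0 := drg_ne (F := F) hq
      push_cast
      field_simp
      ring
    rw [e]
    exact h3

theorem toric_euler' (E : QVal F) (v : Fin r → ℤ) (hE : IsGauss (F := F) E (QVal.triv K) v)
    (D : Derivation ℂ F F) (h1 : ∀ a, D (algebraMap K F a) = 0)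
    (h2 : ∀ i, D (tt r K F i) = (v i : F) * tt r K F i) (f : F) (hf : Ge E 0 f) :
    Ge E 1 (D f) := by
  rcases hf with rfl | hf
  · exact Or.inl (map_zero D)
  have h3 := toric_euler E v hE D h1 h2 f
  have e : D f = (D f - (E f : F) * f) + (E f : F) * f := by ring
  rw [e]
  refine E.ge_add (E.ge_mono (by omega) h3) ?_
  by_cases h0 : E f = 0
  · rw [h0, Int.cast_zero, zero_mul]
    exact Or.inl rfl
  · have h4 := E.ge_mul (E.ge_intCast (E f)) (E.ge_self f)
    exact E.ge_mono (by omega) h4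

theorem ordP_deriv (E : DVal F) (p : MvPolynomial (Fin r) K) (hp : Irreducible p)
    (hE : IsOrdP (F := F) E p)
    (d : Derivation ℂ K K) (e : Fin r → ℤ) (D : Derivation ℂ F F)
    (h1 : ∀ a, D (algebraMap K F a) = algebraMap K F (d a))
    (h2 : ∀ i, D (tt r K F i) = (e i : F) * tt r K F i) (f : F) (hf : Ge E 0 f) :
    Ge E 0 (D f) := by
  rcases hf with rfl | hf
  · exact Or.inl (map_zero D)
  by_cases hf0 : f = 0
  · subst hf0
    exact Or.inl (map_zero D)
  obtain ⟨a, b, ha, hb, rfl⟩ := drg_div (r := r) (K := K) f hf0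
  obtain ⟨n, a', ha0, hpa, rfl⟩ := exists_pow_mul p hp a ha
  obtain ⟨m, b', hb0, hpb, rfl⟩ := exists_pow_mul p hp b hb
  have hEa := hE n a' ha0 hpa
  have hEb := hE m b' hb0 hpb
  have hE0 : E.toQVal (algebraMap (MvPolynomial (Fin r) K) F b') = 0 := by
    have := hE 0 b' hb0 hpb
    rw [pow_zero, one_mul] at this
    exact_mod_cast this
  have hle : m ≤ n := by
    have h3 := E.toQVal.div (drg_ne (F := F) ha) (drg_ne (F := F) hb)
    have h4 : E.toQVal (algebraMap (MvPolynomial (Fin r) K) F (p ^ n * a')) = n := hEa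
    have h5 : E.toQVal (algebraMap (MvPolynomial (Fin r) K) F (p ^ m * b')) = m := hEb
    rw [h4, h5] at h3
    have h6 : (0 : ℤ) ≤ E.toQVal (algebraMap (MvPolynomial (Fin r) K) F (p ^ n * a') /
      algebraMap (MvPolynomial (Fin r) K) F (p ^ m * b')) := hf
    omega
  obtain ⟨k, rfl⟩ := Nat.exists_eq_add_of_le hle
  have ef : algebraMap (MvPolynomial (Fin r) K) F (p ^ (m + k) * a') /
      algebraMap (MvPolynomial (Fin r) K) F (p ^ m * b') =
      algebraMap (MvPolynomial (Fin r) K) F (p ^ k * a') / algebraMap (MvPolynomial (Fin r) K) F b' := by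
    have hp0 : algebraMap (MvPolynomial (Fin r) K) F p ≠ 0 := drg_ne hp.ne_zero
    have hb1 : algebraMap (MvPolynomial (Fin r) K) F b' ≠ 0 := drg_ne hb0
    rw [map_mul, map_mul, map_mul, map_pow, map_pow, map_pow, pow_add]
    field_simp
  rw [ef, Derivation.leibniz_div]
  obtain ⟨A, hA⟩ := deriv_poly' d e D h1 h2 (p ^ k * a')
  obtain ⟨B, hB⟩ := deriv_poly' d e D h1 h2 b'
  rw [hA, hB, smul_eq_mul, smul_eq_mul, smul_eq_mul, ← map_mul, ← map_mul, ← map_sub]
  have h3 : Ge E.toQVal 0 ((algebraMap (MvPolynomial (Fin r) K) F b')⁻¹ ^ 2) := by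
    refine Or.inr ?_
    rw [E.toQVal.pow (inv_ne_zero (drg_ne hb0)), E.toQVal.inv, hE0]
    simp
  have h4 : Ge E.toQVal 0 (algebraMap (MvPolynomial (Fin r) K) F (b' * A - p ^ k * a' * B)) :=
    Or.inr (ordP_nonneg hp hE _)
  have h5 := E.toQVal.ge_mul h3 h4
  rwa [add_zero] at h5

end WNV
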