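import Mathlib

/-!
Definitions for the weak non-vanishing theorem on varieties with a torus action.

`K` is a field over the complex numbers (the function field of the rational quotient `Y`) and `F`
is the field of fractions of the polynomial ring `K[t_1,…,t_r]` (the function field of `X`).
-/

namespace WNV

/-- An additive valuation `K → ℤ` (possibly trivial) which is trivial on `ℂ`; the value at `0` is
the junk value `0`. -/
structure QVal (K : Type) [Field K] [Algebra ℂ K] where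
  /-- the valuation -/
  v : K → ℤ
  zero' : v 0 = 0
  mul' : ∀ a b, a ≠ 0 → b ≠ 0 → v (a * b) = v a + v b
  add' : ∀ a b, a ≠ 0 → b ≠ 0 → a + b ≠ 0 → min (v a) (v b) ≤ v (a + b)
  const' : ∀ c : ℂ, v (algebraMap ℂ K c) = 0

instance (K : Type) [Field K] [Algebra ℂ K] : CoeFun (QVal K) (fun _ => K → ℤ) := ⟨QVal.v⟩

/-- A normalised discrete valuation of `K` which is trivial on `ℂ`. -/
structure DVal (K : Type) [Field K] [Algebra ℂ K] extends QVal K where
  surj' : ∃ a, v a = 1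

instance (K : Type) [Field K] [Algebra ℂ K] : CoeFun (DVal K) (fun _ => K → ℤ) :=
  ⟨fun E => E.v⟩

/-- The value of the real combination `Σ φ(f) log f` of (logarithms of) rational functions along
a valuation. -/
noncomputable def val {K : Type} [Field K] (φ : K →₀ ℝ) (E : K → ℤ) : ℝ :=
  φ.sum fun f c => c * (E f : ℝ)

/-- The form `ω` has order at least `a` along `E`: it is a sum of forms `f dx_1 ∧ … ∧ dx_n` with
`E f ≥ a` and all `x_i` in the valuation ring of `E`. -/
def OrdGE {K : Type} [Field K] [Algebra ℂ K] {n : ℕ} (E : K → ℤ)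
    (ω : ⋀[K]^n (KaehlerDifferential ℂ K)) (a : ℤ) : Prop :=
  ω ∈ AddSubgroup.closure {τ | ∃ (f : K) (x : Fin n → K), (f = 0 ∨ a ≤ E f) ∧
    (∀ i, x i = 0 ∨ 0 ≤ E (x i)) ∧
    τ = f • exteriorPower.ιMulti K n (fun i => KaehlerDifferential.D ℂ K (x i))}

/-- The form `ω` has order exactly `a` along `E`. -/
def IsOrd {K : Type} [Field K] [Algebra ℂ K] {n : ℕ} (E : K → ℤ)
    (ω : ⋀[K]^n (KaehlerDifferential ℂ K)) (a : ℤ) : Prop :=
  OrdGE E ω a ∧ ¬ OrdGE E ω (a + 1)

/-- The form `dy_1 ∧ … ∧ dy_c`. -/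
noncomputable def formY {K : Type} [Field K] [Algebra ℂ K] {c : ℕ} (y : Fin c → K) :
    ⋀[K]^c (KaehlerDifferential ℂ K) :=
  exteriorPower.ιMulti K c (fun i => KaehlerDifferential.D ℂ K (y i))

section

variable {c r : ℕ} {K F : Type} [Field K] [Algebra ℂ K] [Field F] [Algebra ℂ F]
  [Algebra K F] [Algebra (MvPolynomial (Fin r) K) F]

variable (r K F) in
/-- The variable `t_i` as an element of `F`. -/
noncomputable def tt (i : Fin r) : F := algebraMap (MvPolynomial (Fin r) K) F (MvPolynomial.X i)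

variable (F) in
/-- The homogeneous element `a t^m`. -/
noncomputable def hom (a : K) (m : Fin r → ℤ) : F :=
  algebraMap K F a * ∏ i, tt r K F i ^ m i

variable (r F) in
/-- The form `dy_1 ∧ … ∧ dy_c ∧ dt_1/t_1 ∧ … ∧ dt_r/t_r`. -/
noncomputable def form (y : Fin c → K) : ⋀[F]^(c + r) (KaehlerDifferential ℂ F) :=
  exteriorPower.ιMulti F (c + r)
    (Fin.append (fun j => KaehlerDifferential.D ℂ F (algebraMap K F (y j)))
      (fun j => (tt r K F j)⁻¹ • KaehlerDifferential.D ℂ F (tt r K F j)))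

/-- `G` is the Gauss valuation `G(Σ p_s t^s) = min_s (w(p_s) + ⟨s, v⟩)`. -/
def IsGauss (G : F → ℤ) (w : K → ℤ) (v : Fin r → ℤ) : Prop :=
  ∀ p : MvPolynomial (Fin r) K, p ≠ 0 →
    (∀ s ∈ p.support, G (algebraMap _ F p) ≤ w (p.coeff s) + ∑ i, (s i : ℤ) * v i) ∧
    ∃ s ∈ p.support, G (algebraMap _ F p) = w (p.coeff s) + ∑ i, (s i : ℤ) * v i

variable (r K) in
/-- `E` is a torus invariant valuation which is trivial on `K`:
`E(Σ p_s t^s) = min_s ⟨s, v⟩` for some `v`. -/
def IsToric (E : F → ℤ) : Prop :=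
  ∃ v : Fin r → ℤ, ∀ p : MvPolynomial (Fin r) K, p ≠ 0 →
    (∀ s ∈ p.support, E (algebraMap _ F p) ≤ ∑ i, (s i : ℤ) * v i) ∧
    ∃ s ∈ p.support, E (algebraMap _ F p) = ∑ i, (s i : ℤ) * v i

end

section

variable {F : Type} [Field F] [Algebra ℂ F] {N : ℕ}

/-- The coordinate ring `ℂ[x_0/x_i,…,x_N/x_i]` of the `i`-th affine chart of `X`. -/
def chart (x : Fin (N + 1) → F) (i : Fin (N + 1)) : Subalgebra ℂ F :=
  Algebra.adjoin ℂ (Set.range fun j => x j / x i)

/-- `E` is (the valuation of) a prime divisor of `Spec A`: it is nonnegative on `A` and its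
valuation ring is the localisation of `A` at its centre. -/
def IsPrimeOf (A : Subalgebra ℂ F) (E : F → ℤ) : Prop :=
  (∀ a ∈ A, a ≠ 0 → 0 ≤ E a) ∧
  ∀ f, f ≠ 0 → 0 ≤ E f → ∃ a ∈ A, ∃ b ∈ A, b ≠ 0 ∧ E b = 0 ∧ f = a / b

/-- The divisor `D` (a real number for every prime divisor) is `ℝ`-Cartier: near every point
(given by a prime ideal `P` of a chart) it is the divisor of a real combination of rational
functions. -/
def IsRCartier (x : Fin (N + 1) → F) (D : DVal F → ℝ) : Prop :=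
  ∀ (i : Fin (N + 1)) (P : Ideal (chart x i)), P.IsPrime →
    ∃ ψ : F →₀ ℝ, ∀ E : DVal F, IsPrimeOf (chart x i) E →
      (∀ a : chart x i, a ∉ P → E (a : F) = 0) → D E = val ψ E

/-- The pair with `D = K_X + Δ` has log discrepancy at least `0` at the valuation `E`; here `ω` is
the form defining `K_X`: if `ψ` is a local equation of `D` at the centre of `E` and `a` is the
order of `ω` along `E`, then `ψ(E) ≤ a + 1`. -/
def LcAt (x : Fin (N + 1) → F) {n : ℕ} (ω : ⋀[F]^n (KaehlerDifferential ℂ F)) (D : DVal F → ℝ)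
    (E : DVal F) : Prop :=
  ∀ i : Fin (N + 1), (∀ a ∈ chart x i, a ≠ 0 → 0 ≤ E a) →
    ∀ ψ : F →₀ ℝ, (∀ E' : DVal F, IsPrimeOf (chart x i) E' →
      (∀ a ∈ chart x i, a ≠ 0 → E a = 0 → E' a = 0) → D E' = val ψ E') →
    ∀ a : ℤ, IsOrd E ω a → val ψ E ≤ a + 1

/-- `D` is pseudo-effective: for every `ε > 0` the divisor `D + ε H` (`H` the hyperplane section
`x_0 = 0`) is `ℝ`-linearly equivalent to an effective divisor. -/
def IsPsef (x : Fin (N + 1) → F) (D : DVal F → ℝ) : Prop :=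
  ∀ ε : ℝ, 0 < ε → ∃ φ : F →₀ ℝ, ∀ (i : Fin (N + 1)) (E : DVal F),
    IsPrimeOf (chart x i) E → 0 ≤ D E + ε * (E (x 0 / x i) : ℝ) + val φ E

end

end WNV
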