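import Pool.Agent.WNV.Defs

/-!
Definitions used in the statement of the final theorem. An `n`-form on `K / ℂ` is given by its
values on `n`-tuples of derivations.
-/

namespace WNV

section

variable {K : Type} [Field K] [Algebra ℂ K] {n : ℕ}

variable (n K) in
/-- Rational `n`-forms, as functions of `n` derivations (vector fields). -/
abbrev RForm := (Fin n → Derivation ℂ K K) → K

/-- The form `dx_1 ∧ … ∧ dx_n`. -/
noncomputable def wedge (x : Fin n → K) : RForm K n :=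
  fun d => Matrix.det (Matrix.of fun i j => d i (x j))

/-- The form `ω` has order at least `a` along `E`: it is a sum of forms `f dx_1 ∧ … ∧ dx_n` with
`E f ≥ a` and all `x_i` in the valuation ring of `E`. -/
def FOrdGE (E : K → ℤ) (ω : RForm K n) (a : ℤ) : Prop :=
  ω ∈ AddSubgroup.closure {τ : RForm K n | ∃ (f : K) (x : Fin n → K), (f = 0 ∨ a ≤ E f) ∧
    (∀ i, x i = 0 ∨ 0 ≤ E (x i)) ∧ τ = fun d => f * wedge x d}

/-- The form `ω` has order exactly `a` along `E`. -/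
def FIsOrd (E : K → ℤ) (ω : RForm K n) (a : ℤ) : Prop :=
  FOrdGE E ω a ∧ ¬ FOrdGE E ω (a + 1)

end

section

variable {c r N : ℕ} {K F : Type} [Field K] [Field F] [Algebra ℂ F] [Algebra K F]
  [Algebra (MvPolynomial (Fin r) K) F]

variable (r F) in
/-- The form `dy_1 ∧ … ∧ dy_c ∧ dt_1 ∧ … ∧ dt_r / (t_1 ⋯ t_r)`. -/
noncomputable def tform (y : Fin c → K) : RForm F (c + r) :=
  fun d => (∏ i, tt r K F i)⁻¹ * wedge (Fin.append (fun j => algebraMap K F (y j)) (tt r K F)) d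

variable (r K) in
/-- All coordinates `x_j` are homogeneous: `x_j = a t^m` with `a ≠ 0` in `K`. -/
def IsHomogModel (x : Fin (N + 1) → F) : Prop :=
  ∀ j, ∃ (a : K) (m : Fin r → ℤ), a ≠ 0 ∧ x j = hom F a m

end

section

variable {N : ℕ} {F : Type} [Field F] [Algebra ℂ F]

/-- `X` is a normal projective model of `F`: the charts are integrally closed with fraction
field `F`. -/
def IsNormalModel (x : Fin (N + 1) → F) : Prop :=
  ∀ i, IsIntegrallyClosed (chart x i) ∧ IsFractionRing (chart x i) F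

/-- `KX` is the divisor of the form `ω` on `X`. -/
def IsCanonical (x : Fin (N + 1) → F) {n : ℕ} (ω : RForm F n) (KX : DVal F → ℝ) : Prop :=
  ∀ (i : Fin (N + 1)) (E : DVal F), IsPrimeOf (chart x i) E → ∃ k : ℤ, KX E = k ∧ FIsOrd E ω k

/-- `Δ` is an effective `ℝ`-divisor on `X`. -/
def IsBoundary (x : Fin (N + 1) → F) (Δ : DVal F → ℝ) : Prop :=
  (∀ (i : Fin (N + 1)) (E : DVal F), IsPrimeOf (chart x i) E → 0 ≤ Δ E) ∧
  {E : DVal F | (∃ i, IsPrimeOf (chart x i) E) ∧ Δ E ≠ 0}.Finite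

/-- `D` is `ℝ`-linearly equivalent to an effective `ℝ`-divisor on `X`. -/
def IsLinEff (x : Fin (N + 1) → F) (D : DVal F → ℝ) : Prop :=
  ∃ φ : F →₀ ℝ, ∀ (i : Fin (N + 1)) (E : DVal F), IsPrimeOf (chart x i) E → 0 ≤ D E + val φ E

/-- The pair with `D = K_X + Δ` has log discrepancy at least `0` at the valuation `E`; here `ω` is
the form defining `K_X`: if `ψ` is a local equation of `D` at the centre of `E` and `a` is the
order of `ω` along `E`, then `ψ(E) ≤ a + 1`. -/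
def IsLcAt (x : Fin (N + 1) → F) {n : ℕ} (ω : RForm F n) (D : DVal F → ℝ) (E : DVal F) : Prop :=
  ∀ i : Fin (N + 1), (∀ a ∈ chart x i, a ≠ 0 → 0 ≤ E a) →
    ∀ ψ : F →₀ ℝ, (∀ E' : DVal F, IsPrimeOf (chart x i) E' →
      (∀ a ∈ chart x i, a ≠ 0 → E a = 0 → E' a = 0) → D E' = val ψ E') →
    ∀ a : ℤ, FIsOrd E ω a → val ψ E ≤ a + 1

/-- `K_Y + B_Y` is `ℝ`-linearly effective. Here `K_Y` is the divisor of `dy_1 ∧ … ∧ dy_c` and
`B_Y` has at `w` the coefficient `min_E (1 - (1 - Δ(E)) / e)`, the minimum over the prime divisors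
`E` of `X` lying over `w` with multiplicity `e`. -/
def IsBaseEff {c : ℕ} {K : Type} [Field K] [Algebra ℂ K] [Algebra K F] (x : Fin (N + 1) → F)
    (y : Fin c → K) (Δ : DVal F → ℝ) : Prop :=
  ∃ g : K →₀ ℝ, ∀ (i : Fin (N + 1)) (E : DVal F), IsPrimeOf (chart x i) E →
    ∀ (w : DVal K) (e : ℤ), 0 < e → (∀ a : K, E (algebraMap K F a) = e * w a) →
    ∃ b : ℤ, FOrdGE w (wedge y) b ∧ 0 ≤ e * (b + 1) - 1 + Δ E + e * val g w

end

end WNV
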