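import Pool.Agent.WNV.ORP

/-!
FAC. Simultaneous factorization of finitely many elements of `F`.

PROOF. `R = MvPolynomial (Fin r) K` is a unique factorization domain. Every `f ∈ S` is `a_f / b_f`
with nonzero polynomials. Let `T` be the finite set of all irreducible factors
(`UniqueFactorizationMonoid.factors`, multisets) of all `a_f`, `b_f`. Choose a function
`rep : R → R` with `Associated (rep g) g` for all `g`, `rep g = rep g'` if `g`, `g'` are associated,
`rep (p j) = p j` (possible as the `p j` are pairwise non associated; e.g. for `g` associated to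
some `p j` take that `p j`, for the others take `Quot.out (Associates.mk g)`). Let `q` enumerate the
finite set `{rep g : g ∈ T, NotMono g, g not associated to any p j}`. A factor `g ∈ T` is a unit
times: some `X i`, or some `p j`, or some `q j`. A unit of `R` is a nonzero constant
(`MvPolynomial.isUnit_iff_eq_C_of_isReduced`), whose image is `hom F a 0`, and
`algebraMap (X i) = tt i = hom F 1 (Pi.single i 1)`. Induct over the multiset of factors:
the set of all `f` of the form in the conclusion is closed under products and inverses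
(`hom_mul`, `hom_inv`, `zpow_add₀`) and contains the units, the `X i`, `p j`, `q j`.
-/

set_option linter.unusedSectionVars false

namespace WNV

variable {r : ℕ} {K F : Type} [Field K] [Algebra ℂ K] [Field F] [Algebra ℂ F]
    [Algebra K F] [IsScalarTower ℂ K F]
    [Algebra (MvPolynomial (Fin r) K) F] [IsScalarTower K (MvPolynomial (Fin r) K) F]
    [IsFractionRing (MvPolynomial (Fin r) K) F]

private lemma fac_tt_ne (i : Fin r) : tt r K F i ≠ 0 := by
  unfold tt
  intro h
  have h1 : (MvPolynomial.X i : MvPolynomial (Fin r) K) = 0 :=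
    (IsFractionRing.injective (MvPolynomial (Fin r) K) F) (by rw [h, map_zero])
  exact MvPolynomial.X_ne_zero i h1

private lemma fac_hom_mul (a b : K) (m m' : Fin r → ℤ) :
    hom F a m * hom F b m' = hom F (a * b) (m + m') := by
  unfold hom
  rw [map_mul]
  have h : ∏ i, tt r K F i ^ (m + m') i = (∏ i, tt r K F i ^ m i) * ∏ i, tt r K F i ^ m' i := by
    rw [← Finset.prod_mul_distrib]
    refine Finset.prod_congr rfl fun i _ => ?_
    rw [Pi.add_apply, zpow_add₀ (fac_tt_ne i)]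
  rw [h]; ring

private lemma fac_hom_inv (a : K) (m : Fin r → ℤ) :
    (hom F a m)⁻¹ = hom F a⁻¹ (-m) := by
  unfold hom
  rw [mul_inv, map_inv₀, ← Finset.prod_inv_distrib]
  congr 1
  refine Finset.prod_congr rfl fun i _ => ?_
  rw [Pi.neg_apply, zpow_neg]

private lemma fac_map_ne {g : MvPolynomial (Fin r) K} (hg : g ≠ 0) :
    algebraMap (MvPolynomial (Fin r) K) F g ≠ 0 := by
  intro h
  exact hg ((IsFractionRing.injective (MvPolynomial (Fin r) K) F) (by rw [h, map_zero]))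

/-- Admissible finite sets of further factors. -/
private def FacAdm {s : ℕ} (p : Fin s → MvPolynomial (Fin r) K)
    (Q : Finset (MvPolynomial (Fin r) K)) : Prop :=
  (∀ q ∈ Q, Irreducible q ∧ NotMono q ∧ ∀ k, ¬ Associated q (p k)) ∧
    ∀ q ∈ Q, ∀ q' ∈ Q, q ≠ q' → ¬ Associated q q'

/-- `f` is a product of powers of the `p j` and the elements of `Q`, up to a homogeneous factor. -/
private def FacGood {s : ℕ} (p : Fin s → MvPolynomial (Fin r) K)
    (Q : Finset (MvPolynomial (Fin r) K)) (f : F) : Prop :=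
  ∃ (a : K) (m : Fin r → ℤ) (α : Fin s → ℤ) (β : MvPolynomial (Fin r) K → ℤ), a ≠ 0 ∧
    f = hom F a m * (∏ j, algebraMap _ F (p j) ^ α j) * ∏ q ∈ Q, algebraMap _ F q ^ β q

private lemma fac_good_mul {s : ℕ} {p : Fin s → MvPolynomial (Fin r) K}
    (hp : ∀ j, Irreducible (p j)) {Q : Finset (MvPolynomial (Fin r) K)} (hQ : FacAdm p Q)
    {f g : F} (hf : FacGood p Q f) (hg : FacGood p Q g) : FacGood p Q (f * g) := by
  obtain ⟨a, m, α, β, ha, rfl⟩ := hf
  obtain ⟨b, m', α', β', hb, rfl⟩ := hg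
  refine ⟨a * b, m + m', α + α', β + β', mul_ne_zero ha hb, ?_⟩
  have h1 : ∏ j, algebraMap (MvPolynomial (Fin r) K) F (p j) ^ (α + α') j
      = (∏ j, algebraMap (MvPolynomial (Fin r) K) F (p j) ^ α j)
        * ∏ j, algebraMap (MvPolynomial (Fin r) K) F (p j) ^ α' j := by
    rw [← Finset.prod_mul_distrib]
    refine Finset.prod_congr rfl fun i _ => ?_
    rw [Pi.add_apply, zpow_add₀ (fac_map_ne (hp i).ne_zero)]
  have h2 : ∏ q ∈ Q, algebraMap (MvPolynomial (Fin r) K) F q ^ (β + β') q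
      = (∏ q ∈ Q, algebraMap (MvPolynomial (Fin r) K) F q ^ β q)
        * ∏ q ∈ Q, algebraMap (MvPolynomial (Fin r) K) F q ^ β' q := by
    rw [← Finset.prod_mul_distrib]
    refine Finset.prod_congr rfl fun q hq => ?_
    rw [Pi.add_apply, zpow_add₀ (fac_map_ne (hQ.1 q hq).1.ne_zero)]
  rw [h1, h2, ← fac_hom_mul]
  ring

private lemma fac_good_inv {s : ℕ} {p : Fin s → MvPolynomial (Fin r) K}
    {Q : Finset (MvPolynomial (Fin r) K)}
    {f : F} (hf : FacGood p Q f) : FacGood p Q f⁻¹ := by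
  obtain ⟨a, m, α, β, ha, rfl⟩ := hf
  refine ⟨a⁻¹, -m, -α, -β, inv_ne_zero ha, ?_⟩
  rw [mul_inv, mul_inv, fac_hom_inv, ← Finset.prod_inv_distrib, ← Finset.prod_inv_distrib]
  simp only [Pi.neg_apply, zpow_neg]

private lemma fac_good_mono {s : ℕ} {p : Fin s → MvPolynomial (Fin r) K}
    {Q Q' : Finset (MvPolynomial (Fin r) K)} (h : Q ⊆ Q')
    {f : F} (hf : FacGood p Q f) : FacGood p Q' f := by
  classical
  obtain ⟨a, m, α, β, ha, rfl⟩ := hf
  refine ⟨a, m, α, fun q => if q ∈ Q then β q else 0, ha, ?_⟩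
  congr 1
  rw [← Finset.prod_subset h (f := fun q => algebraMap (MvPolynomial (Fin r) K) F q ^
    (if q ∈ Q then β q else 0))]
  · refine Finset.prod_congr rfl fun q hq => ?_
    rw [if_pos hq]
  · intro q _ hq
    rw [if_neg hq, zpow_zero]

private lemma fac_good_const {s : ℕ} (p : Fin s → MvPolynomial (Fin r) K)
    (Q : Finset (MvPolynomial (Fin r) K)) {a : K} (ha : a ≠ 0) :
    FacGood p Q (algebraMap K F a) := by
  refine ⟨a, 0, 0, 0, ha, ?_⟩
  simp [hom]

private lemma fac_good_unit {s : ℕ} (p : Fin s → MvPolynomial (Fin r) K)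
    (Q : Finset (MvPolynomial (Fin r) K)) {u : MvPolynomial (Fin r) K} (hu : IsUnit u) :
    FacGood p Q (algebraMap _ F u) := by
  obtain ⟨a, ha, rfl⟩ := MvPolynomial.isUnit_iff_eq_C_of_isReduced.1 hu
  have h := fac_good_const (F := F) p Q ha.ne_zero
  rw [IsScalarTower.algebraMap_apply K (MvPolynomial (Fin r) K) F, MvPolynomial.algebraMap_eq] at h
  exact h

private lemma fac_good_X {s : ℕ} (p : Fin s → MvPolynomial (Fin r) K)
    (Q : Finset (MvPolynomial (Fin r) K)) (i : Fin r) :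
    FacGood p Q (algebraMap _ F (MvPolynomial.X i : MvPolynomial (Fin r) K)) := by
  classical
  refine ⟨1, Pi.single i 1, 0, 0, one_ne_zero, ?_⟩
  have h : ∏ k, tt r K F k ^ (Pi.single i (1 : ℤ) : Fin r → ℤ) k = tt r K F i := by
    rw [Finset.prod_eq_single i]
    · simp
    · intro k _ hk
      rw [Pi.single_eq_of_ne hk, zpow_zero]
    · intro h; exact absurd (Finset.mem_univ i) h
  simp only [hom, h, map_one, one_mul, Pi.zero_apply, zpow_zero, Finset.prod_const_one, mul_one]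
  rfl

private lemma fac_good_p {s : ℕ} (p : Fin s → MvPolynomial (Fin r) K)
    (Q : Finset (MvPolynomial (Fin r) K)) (j : Fin s) :
    FacGood p Q (algebraMap _ F (p j)) := by
  classical
  refine ⟨1, 0, Pi.single j 1, 0, one_ne_zero, ?_⟩
  have h : ∏ k, algebraMap (MvPolynomial (Fin r) K) F (p k) ^ (Pi.single j (1 : ℤ) : Fin s → ℤ) k
      = algebraMap (MvPolynomial (Fin r) K) F (p j) := by
    rw [Finset.prod_eq_single j]
    · simp
    · intro k _ hk
      rw [Pi.single_eq_of_ne hk, zpow_zero]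
    · intro h; exact absurd (Finset.mem_univ j) h
  simp [hom, h]

private lemma fac_good_q {s : ℕ} (p : Fin s → MvPolynomial (Fin r) K)
    (Q : Finset (MvPolynomial (Fin r) K)) {g : MvPolynomial (Fin r) K} (hg : g ∈ Q) :
    FacGood p Q (algebraMap _ F g) := by
  classical
  refine ⟨1, 0, 0, Pi.single g 1, one_ne_zero, ?_⟩
  have h : ∏ q ∈ Q, algebraMap (MvPolynomial (Fin r) K) F q ^
      (Pi.single g (1 : ℤ) : MvPolynomial (Fin r) K → ℤ) q
      = algebraMap (MvPolynomial (Fin r) K) F g := by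
    rw [Finset.prod_eq_single g]
    · simp
    · intro k _ hk
      rw [Pi.single_eq_of_ne hk, zpow_zero]
    · intro h; exact absurd hg h
  simp [hom, h]

private lemma fac_good_assoc {s : ℕ} {p : Fin s → MvPolynomial (Fin r) K}
    (hp : ∀ j, Irreducible (p j)) {Q : Finset (MvPolynomial (Fin r) K)} (hQ : FacAdm p Q)
    {g x : MvPolynomial (Fin r) K} (h : Associated g x) (hx : FacGood p Q (algebraMap _ F x)) :
    FacGood p Q (algebraMap _ F g) := by
  obtain ⟨u, hu⟩ := h.symm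
  rw [← hu, map_mul]
  exact fac_good_mul hp hQ hx (fac_good_unit p Q u.isUnit)

private lemma fac_step_irr {s : ℕ} {p : Fin s → MvPolynomial (Fin r) K}
    (hp : ∀ j, Irreducible (p j)) {Q : Finset (MvPolynomial (Fin r) K)} (hQ : FacAdm p Q)
    {g : MvPolynomial (Fin r) K} (hg : Irreducible g) :
    ∃ Q', Q ⊆ Q' ∧ FacAdm p Q' ∧ FacGood (F := F) p Q' (algebraMap _ F g) := by
  classical
  by_cases h1 : ∃ i, Associated g (MvPolynomial.X i)
  · obtain ⟨i, hi⟩ := h1
    exact ⟨Q, Finset.Subset.refl Q, hQ, fac_good_assoc hp hQ hi (fac_good_X p Q i)⟩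
  by_cases h2 : ∃ k, Associated g (p k)
  · obtain ⟨k, hk⟩ := h2
    exact ⟨Q, Finset.Subset.refl Q, hQ, fac_good_assoc hp hQ hk (fac_good_p p Q k)⟩
  by_cases h3 : ∃ q ∈ Q, Associated g q
  · obtain ⟨q, hq, hgq⟩ := h3
    exact ⟨Q, Finset.Subset.refl Q, hQ, fac_good_assoc hp hQ hgq (fac_good_q p Q hq)⟩
  refine ⟨insert g Q, Finset.subset_insert g Q, ⟨?_, ?_⟩,
    fac_good_q p _ (Finset.mem_insert_self g Q)⟩
  · intro q hq
    rcases Finset.mem_insert.1 hq with rfl | hq
    · exact ⟨hg, fun i hi => h1 ⟨i, hi⟩, fun k hk => h2 ⟨k, hk⟩⟩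
    · exact hQ.1 q hq
  · intro q hq q' hq' hne has
    rcases Finset.mem_insert.1 hq with h4 | h4
    · rcases Finset.mem_insert.1 hq' with h5 | h5
      · exact hne (h4.trans h5.symm)
      · subst h4
        exact h3 ⟨q', h5, has⟩
    · rcases Finset.mem_insert.1 hq' with h5 | h5
      · subst h5
        exact h3 ⟨q, h4, has.symm⟩
      · exact hQ.2 q h4 q' h5 hne has

private lemma fac_step_poly {s : ℕ} {p : Fin s → MvPolynomial (Fin r) K}
    (hp : ∀ j, Irreducible (p j)) (g : MvPolynomial (Fin r) K) :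
    g ≠ 0 → ∀ Q : Finset (MvPolynomial (Fin r) K), FacAdm p Q →
    ∃ Q', Q ⊆ Q' ∧ FacAdm p Q' ∧ FacGood (F := F) p Q' (algebraMap _ F g) := by
  refine WfDvdMonoid.induction_on_irreducible g ?_ ?_ ?_
  · intro h; exact absurd rfl h
  · intro u hu _ Q hQ
    exact ⟨Q, Finset.Subset.refl Q, hQ, fac_good_unit p Q hu⟩
  · intro a i ha hi ih _ Q hQ
    obtain ⟨Q1, hQ1, hA1, hG1⟩ := ih ha Q hQ
    obtain ⟨Q2, hQ2, hA2, hG2⟩ := fac_step_irr (F := F) hp hA1 hi
    refine ⟨Q2, hQ1.trans hQ2, hA2, ?_⟩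
    rw [map_mul]
    exact fac_good_mul hp hA2 hG2 (fac_good_mono hQ2 hG1)

private lemma fac_step_F {s : ℕ} {p : Fin s → MvPolynomial (Fin r) K}
    (hp : ∀ j, Irreducible (p j)) (f : F) (hf : f ≠ 0)
    (Q : Finset (MvPolynomial (Fin r) K)) (hQ : FacAdm p Q) :
    ∃ Q', Q ⊆ Q' ∧ FacAdm p Q' ∧ FacGood (F := F) p Q' f := by
  obtain ⟨a, b, hb, rfl⟩ := IsFractionRing.div_surjective (A := MvPolynomial (Fin r) K) f
  have hb0 : b ≠ 0 := nonZeroDivisors.ne_zero hb
  have ha0 : a ≠ 0 := by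
    rintro rfl
    apply hf
    rw [map_zero, zero_div]
  obtain ⟨Q1, hQ1, hA1, hG1⟩ := fac_step_poly (F := F) hp a ha0 Q hQ
  obtain ⟨Q2, hQ2, hA2, hG2⟩ := fac_step_poly (F := F) hp b hb0 Q1 hA1
  refine ⟨Q2, hQ1.trans hQ2, hA2, ?_⟩
  rw [div_eq_mul_inv]
  exact fac_good_mul hp hA2 (fac_good_mono hQ2 hG1) (fac_good_inv hG2)

private lemma fac_step_S {s : ℕ} {p : Fin s → MvPolynomial (Fin r) K}
    (hp : ∀ j, Irreducible (p j)) (S : Finset F) :
    (∀ f ∈ S, f ≠ 0) → ∃ Q, FacAdm p Q ∧ ∀ f ∈ S, FacGood (F := F) p Q f := by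
  classical
  induction S using Finset.induction_on with
  | empty =>
    intro _
    exact ⟨∅, ⟨by simp, by simp⟩, by simp⟩
  | insert f S _ ih =>
    intro h
    obtain ⟨Q, hA, hG⟩ := ih fun g hg => h g (Finset.mem_insert_of_mem hg)
    obtain ⟨Q', hQ', hA', hG'⟩ := fac_step_F hp f (h f (Finset.mem_insert_self f S)) Q hA
    refine ⟨Q', hA', fun g hg => ?_⟩
    rcases Finset.mem_insert.1 hg with rfl | hg
    · exact hG'
    · exact fac_good_mono hQ' (hG g hg)

theorem exists_factor {s : ℕ} (p : Fin s → MvPolynomial (Fin r) K)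
    (hp : ∀ j, Irreducible (p j)) (hm : ∀ j, NotMono (p j))
    (hpp : ∀ j j', j ≠ j' → ¬ Associated (p j) (p j')) (S : Finset F) (hS : ∀ f ∈ S, f ≠ 0) :
    ∃ (M : ℕ) (q : Fin M → MvPolynomial (Fin r) K),
      (∀ j, Irreducible (q j)) ∧ (∀ j, NotMono (q j)) ∧
      (∀ j j', j ≠ j' → ¬ Associated (q j) (q j')) ∧ (∀ j k, ¬ Associated (q j) (p k)) ∧
      ∀ f ∈ S, ∃ (a : K) (m : Fin r → ℤ) (α : Fin s → ℤ) (β : Fin M → ℤ), a ≠ 0 ∧
        f = hom F a m * (∏ j, algebraMap _ F (p j) ^ α j) * ∏ j, algebraMap _ F (q j) ^ β j := by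
  classical
  obtain ⟨Q, hA, hG⟩ := fac_step_S (F := F) hp S hS
  have hinj : ∀ j j' : Fin Q.card, j ≠ j' →
      (Q.equivFin.symm j : MvPolynomial (Fin r) K) ≠ Q.equivFin.symm j' := by
    intro j j' h h'
    exact h (Q.equivFin.symm.injective (Subtype.ext h'))
  refine ⟨Q.card, fun j => (Q.equivFin.symm j : MvPolynomial (Fin r) K), ?_, ?_, ?_, ?_, ?_⟩
  · exact fun j => (hA.1 _ (Q.equivFin.symm j).2).1
  · exact fun j => (hA.1 _ (Q.equivFin.symm j).2).2.1
  · exact fun j j' h => hA.2 _ (Q.equivFin.symm j).2 _ (Q.equivFin.symm j').2 (hinj j j' h)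
  · exact fun j k => (hA.1 _ (Q.equivFin.symm j).2).2.2 k
  · intro f hf
    obtain ⟨a, m, α, β, ha, hfe⟩ := hG f hf
    refine ⟨a, m, α, fun j => β (Q.equivFin.symm j), ha, ?_⟩
    rw [hfe]
    congr 1
    rw [← Finset.prod_coe_sort Q]
    exact (Equiv.prod_comp Q.equivFin.symm (fun q : Q =>
      algebraMap (MvPolynomial (Fin r) K) F (q : MvPolynomial (Fin r) K) ^ β q)).symm

end WNV
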