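import Pool.Agent.WNV.EXT

/-!
GAU. Existence of Gauss valuations: for every valuation `w` of `K` (possibly trivial) and every
`v ∈ ℤ^r` there is a valuation `G` of `F = Frac K[t_1,…,t_r]` with
`G(Σ p_s t^s) = min_s (w(p_s) + ⟨s, v⟩)`.

PROOF. For `p ≠ 0` let `g p` be the minimum over `s ∈ p.support` of
`ℓ_p(s) = w(p.coeff s) + Σ s_i v_i` (`Finset.inf'` or `Finset.exists_min_image`), and apply
`exists_ext` (`R = MvPolynomial (Fin r) K`; the scalar tower `ℂ → R → F` is in the hypotheses).
* `g (p + q) ≥ min (g p) (g q)`: for `s` in the support of `p + q` the coefficient is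
  `p_s + q_s`; use `w.add'` (or only one of them is nonzero).
* `g (p q) ≥ g p + g q`: `(pq)_u = Σ_{s + s' = u} p_s q_{s'}` (`MvPolynomial.coeff_mul`), every
  nonzero term has `w(p_s q_{s'}) + ⟨u, v⟩ = ℓ_p(s) + ℓ_q(s') ≥ g p + g q`; use `QVal.ge_sum`.
* `g (p q) ≤ g p + g q`: choose a linear order on `Fin r →₀ ℕ` compatible with addition (the
  lexicographic order `Lex (Fin r →₀ ℕ)`, or any `MonomialOrder`). Let `s₀` be the largest element
  of `{s ∈ p.support : ℓ_p(s) = g p}` and `s₀'` the largest one for `q`, `u = s₀ + s₀'`. In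
  `(pq)_u` every pair `(s, s') ≠ (s₀, s₀')` with `s + s' = u` has `s > s₀` or `s' > s₀'`, hence
  `ℓ_p(s) > g p` or `ℓ_q(s') > g q` (for nonzero coefficients), so
  `w(p_s q_{s'}) ≥ w(p_{s₀} q_{s₀'}) + 1`. By `QVal.add_of_gt` the coefficient `(pq)_u` is nonzero
  and `w((pq)_u) = w(p_{s₀}) + w(q_{s₀'})`. So `g(pq) ≤ g p + g q`.
* constants: `algebraMap ℂ R c = C (algebraMap ℂ K c)` has support `{0}` and value
  `w(c) + 0 = 0`.
-/

namespace WNV

theorem exists_gauss {r : ℕ} {K F : Type} [Field K] [Algebra ℂ K] [Field F] [Algebra ℂ F]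
    [Algebra (MvPolynomial (Fin r) K) F] [IsScalarTower ℂ (MvPolynomial (Fin r) K) F]
    [IsFractionRing (MvPolynomial (Fin r) K) F] (w : QVal K) (v : Fin r → ℤ) :
    ∃ G : QVal F, IsGauss (F := F) G w v := by
  classical
  let L : (Fin r →₀ ℕ) → ℤ := fun s => ∑ i, (s i : ℤ) * v i
  have hL : ∀ s t, L (s + t) = L s + L t := by
    intro s t
    simp only [L, Finsupp.add_apply, Nat.cast_add, add_mul, Finset.sum_add_distrib]
  let ℓ : MvPolynomial (Fin r) K → (Fin r →₀ ℕ) → ℤ := fun p s => w (p.coeff s) + L s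
  let m : MonomialOrder (Fin r) := MonomialOrder.lex
  have hex : ∀ p : MvPolynomial (Fin r) K, ∃ s : Fin r →₀ ℕ, p ≠ 0 → (s ∈ p.support ∧
      (∀ t ∈ p.support, ℓ p s ≤ ℓ p t) ∧
      ∀ t ∈ p.support, ℓ p t = ℓ p s → m.toSyn t ≤ m.toSyn s) := by
    intro p
    by_cases hp : p = 0
    · exact ⟨0, fun h => absurd hp h⟩
    have hne : p.support.Nonempty := by
      rw [Finset.nonempty_iff_ne_empty]
      exact fun h => hp (MvPolynomial.support_eq_empty.1 h)
    obtain ⟨s₁, hs₁, hmin⟩ := Finset.exists_min_image p.support (ℓ p) hne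
    obtain ⟨s, hs, hmax⟩ := Finset.exists_max_image (p.support.filter fun t => ℓ p t = ℓ p s₁)
      m.toSyn ⟨s₁, Finset.mem_filter.2 ⟨hs₁, rfl⟩⟩
    rw [Finset.mem_filter] at hs
    refine ⟨s, fun _ => ⟨hs.1, ?_, ?_⟩⟩
    · intro t ht
      rw [hs.2]
      exact hmin t ht
    · intro t ht h
      exact hmax t (Finset.mem_filter.2 ⟨ht, h.trans hs.2⟩)
  choose σ hσ using hex
  let g : MvPolynomial (Fin r) K → ℤ := fun p => ℓ p (σ p)
  have hmem : ∀ p, p ≠ 0 → σ p ∈ p.support := fun p hp => (hσ p hp).1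
  have hle : ∀ p, p ≠ 0 → ∀ t ∈ p.support, g p ≤ ℓ p t := fun p hp => (hσ p hp).2.1
  have hsyn : ∀ p, p ≠ 0 → ∀ t ∈ p.support, ℓ p t = g p → m.toSyn t ≤ m.toSyn (σ p) :=
    fun p hp => (hσ p hp).2.2
  have hc0 : ∀ p : MvPolynomial (Fin r) K, p ≠ 0 → p.coeff (σ p) ≠ 0 := fun p hp => MvPolynomial.mem_support_iff.1 (hmem p hp)
  -- lower bound for the value of a coefficient
  have hge : ∀ p : MvPolynomial (Fin r) K, p ≠ 0 → ∀ t, Ge w (g p - L t) (p.coeff t) := by
    intro p hp t
    by_cases ht : p.coeff t = 0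
    · exact Or.inl ht
    · right
      have := hle p hp t (MvPolynomial.mem_support_iff.2 ht)
      simp only [ℓ] at this
      omega
  have hup : ∀ p q : MvPolynomial (Fin r) K, p ≠ 0 → q ≠ 0 → (p * q) ≠ 0 → g p + g q ≤ g (p * q) := by
    intro p q hp hq hpq
    have h1 : Ge w (g p + g q - L (σ (p * q))) ((p * q).coeff (σ (p * q))) := by
      rw [MvPolynomial.coeff_mul]
      refine w.ge_sum _ _ ?_
      intro x hx
      rw [Finset.HasAntidiagonal.mem_antidiagonal] at hx
      have h2 := w.ge_mul (hge p hp x.1) (hge q hq x.2)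
      refine w.ge_mono ?_ h2
      rw [← hx, hL]
      omega
    rcases h1 with h1 | h1
    · exact absurd h1 (hc0 _ hpq)
    · show g p + g q ≤ w _ + L _
      omega
  have hlow : ∀ p q : MvPolynomial (Fin r) K, p ≠ 0 → q ≠ 0 → g (p * q) ≤ g p + g q := by
    intro p q hp hq
    have hp0 := hc0 p hp
    have hq0 := hc0 q hq
    have hx0 : (σ p, σ q) ∈ Finset.HasAntidiagonal.antidiagonal (σ p + σ q) := by
      rw [Finset.HasAntidiagonal.mem_antidiagonal]
    have hwm : w (p.coeff (σ p) * q.coeff (σ q)) = w (p.coeff (σ p)) + w (q.coeff (σ q)) :=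
      w.mul hp0 hq0
    have hcoef : (p * q).coeff (σ p + σ q) = p.coeff (σ p) * q.coeff (σ q) +
        ∑ x ∈ (Finset.HasAntidiagonal.antidiagonal (σ p + σ q)).erase (σ p, σ q), p.coeff x.1 * q.coeff x.2 := by
      rw [MvPolynomial.coeff_mul, ← Finset.add_sum_erase _ _ hx0]
    have hrest : Ge w (w (p.coeff (σ p) * q.coeff (σ q)) + 1)
        (∑ x ∈ (Finset.HasAntidiagonal.antidiagonal (σ p + σ q)).erase (σ p, σ q), p.coeff x.1 * q.coeff x.2) := by
      refine w.ge_sum _ _ ?_
      intro x hx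
      rw [Finset.mem_erase, Finset.HasAntidiagonal.mem_antidiagonal] at hx
      obtain ⟨hxne, hxs⟩ := hx
      by_cases h1 : p.coeff x.1 = 0
      · left
        rw [h1, zero_mul]
      by_cases h2 : q.coeff x.2 = 0
      · left
        rw [h2, mul_zero]
      right
      have hm1 := MvPolynomial.mem_support_iff.2 h1
      have hm2 := MvPolynomial.mem_support_iff.2 h2
      have h3 := hle p hp x.1 hm1
      have h4 := hle q hq x.2 hm2
      have hLs : L x.1 + L x.2 = L (σ p) + L (σ q) := by rw [← hL, ← hL, hxs]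
      have h5 : g p + g q < ℓ p x.1 + ℓ q x.2 := by
        by_contra hcon
        push Not at hcon
        have e1 : ℓ p x.1 = g p := by omega
        have e2 : ℓ q x.2 = g q := by omega
        have s1 := hsyn p hp x.1 hm1 e1
        have s2 := hsyn q hq x.2 hm2 e2
        have hsum : m.toSyn x.1 + m.toSyn x.2 = m.toSyn (σ p) + m.toSyn (σ q) := by
          rw [← map_add, ← map_add, hxs]
        have t1 : m.toSyn x.1 = m.toSyn (σ p) := by
          rcases lt_or_eq_of_le s1 with h | h
          · exact absurd hsum (ne_of_lt (add_lt_add_of_lt_of_le h s2))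
          · exact h
        have t2 : m.toSyn x.2 = m.toSyn (σ q) := by
          rw [t1] at hsum
          exact add_left_cancel hsum
        apply hxne
        exact Prod.ext (m.toSyn.injective t1) (m.toSyn.injective t2)
      rw [hwm, w.mul h1 h2]
      have e3 : ℓ p x.1 = w (p.coeff x.1) + L x.1 := rfl
      have e4 : ℓ q x.2 = w (q.coeff x.2) + L x.2 := rfl
      have e5 : g p = w (p.coeff (σ p)) + L (σ p) := rfl
      have e6 : g q = w (q.coeff (σ q)) + L (σ q) := rfl
      omega
    obtain ⟨hn, hv⟩ := w.add_of_gt (mul_ne_zero hp0 hq0) hrest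
    rw [← hcoef] at hn hv
    have hpq : p * q ≠ 0 := mul_ne_zero hp hq
    have h6 := hle (p * q) hpq (σ p + σ q) (MvPolynomial.mem_support_iff.2 hn)
    have e1 : ℓ (p * q) (σ p + σ q) = w ((p * q).coeff (σ p + σ q)) + L (σ p + σ q) := rfl
    rw [e1, hv, hwm, hL] at h6
    have e5 : g p = w (p.coeff (σ p)) + L (σ p) := rfl
    have e6 : g q = w (q.coeff (σ q)) + L (σ q) := rfl
    omega
  obtain ⟨G, hG⟩ := exists_ext (F := F) g
    (fun p q hp hq => le_antisymm (hlow p q hp hq) (hup p q hp hq (mul_ne_zero hp hq)))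
    (by
      intro p q hp hq hpq
      have h1 : Ge w (min (g p) (g q) - L (σ (p + q))) ((p + q).coeff (σ (p + q))) := by
        rw [MvPolynomial.coeff_add]
        refine w.ge_add (w.ge_mono ?_ (hge p hp _)) (w.ge_mono ?_ (hge q hq _))
        · have := min_le_left (g p) (g q)
          omega
        · have := min_le_right (g p) (g q)
          omega
      rcases h1 with h1 | h1
      · exact absurd h1 (hc0 _ hpq)
      · show min (g p) (g q) ≤ w _ + L _
        omega)
    (by
      intro c hc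
      have hp : algebraMap ℂ (MvPolynomial (Fin r) K) c ≠ 0 := by
        rw [Ne, map_eq_zero_iff _ (algebraMap ℂ (MvPolynomial (Fin r) K)).injective]
        exact hc
      have hC : algebraMap ℂ (MvPolynomial (Fin r) K) c
          = MvPolynomial.C (algebraMap ℂ K c) := rfl
      have h1 := hc0 _ hp
      have h2 : σ (algebraMap ℂ (MvPolynomial (Fin r) K) c) = 0 := by
        by_contra h
        apply h1
        rw [hC, MvPolynomial.coeff_C, if_neg]
        rw [← hC]
        exact fun h' => h h'.symm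
      show w _ + L _ = 0
      rw [h2, hC, MvPolynomial.coeff_C, if_pos rfl, w.const]
      simp [L])
  refine ⟨G, fun p hp => ⟨fun s hs => ?_, σ p, hmem p hp, ?_⟩⟩
  · rw [hG p hp]
    exact hle p hp s hs
  · rw [hG p hp]

end WNV
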