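import Pool.Agent.WNV.LAU

/-!
GRD. The charts are graded: every element of the chart is a Laurent polynomial whose
homogeneous components lie in the chart.

PROOF of `chart_graded`. `Algebra.adjoin_induction`: the set of all `f` of the form `lau c` with
all `hom (c m) m ∈ chart x i`
* contains `x j / x i = hom (a/b) (m_j - m_i) = lau (single ..)` (`hom_inv`, `hom_mul`),
* contains the constants `algebraMap ℂ F z = hom (algebraMap ℂ K z) 0`,
* is closed under addition: `hom ((c + c') m) m = hom (c m) m + hom (c' m) m`,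
* is closed under multiplication: by `lau_mul` the component of degree `m` is
  `Σ_{m₁} hom (c m₁) m₁ * hom (c' (m - m₁)) (m - m₁)`, a sum of products of elements of the chart.
-/

set_option linter.unusedSectionVars false

namespace WNV

variable {r N : ℕ} {K F : Type} [Field K] [Algebra ℂ K] [Field F] [Algebra ℂ F]
    [Algebra K F] [IsScalarTower ℂ K F]
    [Algebra (MvPolynomial (Fin r) K) F] [IsScalarTower K (MvPolynomial (Fin r) K) F]
    [IsFractionRing (MvPolynomial (Fin r) K) F]

theorem chart_graded (x : Fin (N + 1) → F)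
    (hx : ∀ j, ∃ (a : K) (m : Fin r → ℤ), a ≠ 0 ∧ x j = hom F a m) (i : Fin (N + 1))
    (f : F) (hf : f ∈ chart x i) :
    ∃ c : (Fin r → ℤ) →₀ K, f = lau F c ∧ ∀ m, hom F (c m) m ∈ chart x i := by
  classical
  have hsing : ∀ (a : K) (m : Fin r → ℤ), hom F a m ∈ chart x i →
      ∃ c : (Fin r → ℤ) →₀ K, hom F a m = lau F c ∧ ∀ m, hom F (c m) m ∈ chart x i := by
    intro a m ham
    refine ⟨Finsupp.single m a, (lau_single m a).symm, fun m' => ?_⟩
    by_cases hm : m' = m
    · rw [hm, Finsupp.single_eq_same]; exact ham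
    · rw [Finsupp.single_eq_of_ne hm, hom_zero_left]
      exact Subalgebra.zero_mem _
  have hgen : ∀ f, f ∈ Algebra.adjoin ℂ (Set.range fun j => x j / x i) →
      ∃ c : (Fin r → ℤ) →₀ K, f = lau F c ∧ ∀ m, hom F (c m) m ∈ chart x i := by
    intro f hf
    induction hf using Algebra.adjoin_induction with
    | mem y hy =>
      have hy' : y ∈ chart x i := Algebra.subset_adjoin hy
      obtain ⟨j, rfl⟩ := hy
      obtain ⟨a, m, -, ha⟩ := hx j
      obtain ⟨b, m', -, hb⟩ := hx i
      have he : x j / x i = hom F (a * b⁻¹) (m + -m') := by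
        rw [ha, hb, div_eq_mul_inv, hom_inv, hom_mul]
      simp only [he] at hy' ⊢
      exact hsing _ _ hy'
    | algebraMap z =>
      have he : algebraMap ℂ F z = hom F (algebraMap ℂ K z) (0 : Fin r → ℤ) := by
        rw [hom_zero_right, ← IsScalarTower.algebraMap_apply ℂ K F]
      rw [he]
      apply hsing
      rw [← he]
      exact Subalgebra.algebraMap_mem _ z
    | add f g _ _ ihf ihg =>
      obtain ⟨c, h1, h2⟩ := ihf
      obtain ⟨c', h1', h2'⟩ := ihg
      refine ⟨c + c', by rw [lau_add, h1, h1'], fun m => ?_⟩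
      rw [Finsupp.add_apply, hom_add_left]
      exact Subalgebra.add_mem _ (h2 m) (h2' m)
    | mul f g _ _ ihf ihg =>
      obtain ⟨c, h1, h2⟩ := ihf
      obtain ⟨c', h1', h2'⟩ := ihg
      obtain ⟨d, hd, hdm⟩ := lau_mul (F := F) c c'
      refine ⟨d, by rw [h1, h1', hd], fun m => ?_⟩
      rw [hdm m]
      have hsum : ∀ (S : Finset (Fin r → ℤ)) (φ : (Fin r → ℤ) → K),
          hom F (∑ m₁ ∈ S, φ m₁) m = ∑ m₁ ∈ S, hom F (φ m₁) m := by
        intro S φ
        unfold hom
        rw [map_sum, Finset.sum_mul]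
      rw [hsum]
      refine Subalgebra.sum_mem _ fun m₁ _ => ?_
      have he : hom F (c m₁ * c' (m - m₁)) m
          = hom F (c m₁) m₁ * hom F (c' (m - m₁)) (m - m₁) := by
        rw [hom_mul, show m₁ + (m - m₁) = m by abel]
      rw [he]
      exact Subalgebra.mul_mem _ (h2 m₁) (h2' (m - m₁))
  exact hgen f hf

end WNV
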