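import Pool.Agent.WNV.GRD

/-!
HOQ. Every nonzero homogeneous element is a quotient of nonzero homogeneous elements of the
chart, and every Laurent polynomial can be multiplied into the chart by a nonzero homogeneous
element of the chart.

PROOF of `hom_quot`. Write `h = hom a m = f / g` with `f, g ∈ chart`, `g ≠ 0`
(`IsFractionRing.div_surjective`). By `chart_graded`, `g = lau c`, `f = lau d`, with components in
the chart. `c ≠ 0`: choose `m₂` in its support. From `h g = f`: `lau (shifted c) = lau d`, i.e.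
(`lau_mul` with `single m a` and `lau_injective`) `d (m + m₂) = a * c m₂`. So
`hom a m * hom (c m₂) m₂ = hom (d (m + m₂)) (m + m₂)`, and `a₁ = d (m + m₂)`, `a₂ = c m₂`.

PROOF of `lau_clear`. Induction on `c` (`Finsupp.induction`) or: for every `m` in the support
take `hom_quot` for `c m`, `m`; the product of all the denominators `hom (a₂ m) (m₂ m)` over the
support works (each `hom (c m) m * (product)` is in the chart).
-/

set_option linter.unusedSectionVars false

namespace WNV

variable {r N : ℕ} {K F : Type} [Field K] [Algebra ℂ K] [Field F] [Algebra ℂ F]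
    [Algebra K F] [IsScalarTower ℂ K F]
    [Algebra (MvPolynomial (Fin r) K) F] [IsScalarTower K (MvPolynomial (Fin r) K) F]
    [IsFractionRing (MvPolynomial (Fin r) K) F]

theorem hom_quot (x : Fin (N + 1) → F)
    (hx : ∀ j, ∃ (a : K) (m : Fin r → ℤ), a ≠ 0 ∧ x j = hom F a m) (i : Fin (N + 1))
    [IsFractionRing (chart x i) F] (a : K) (ha : a ≠ 0) (m : Fin r → ℤ) :
    ∃ (a₁ a₂ : K) (m₁ m₂ : Fin r → ℤ), a₁ ≠ 0 ∧ a₂ ≠ 0 ∧ hom F a₁ m₁ ∈ chart x i ∧
      hom F a₂ m₂ ∈ chart x i ∧ hom F a m * hom F a₂ m₂ = hom F a₁ m₁ := by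
  classical
  obtain ⟨f, g, hg, hfg⟩ := IsFractionRing.div_surjective (A := chart x i) (hom F a m)
  have hg0 : (g : F) ≠ 0 := by
    have h1 : g ≠ 0 := nonZeroDivisors.ne_zero hg
    exact fun h => h1 (Subtype.ext h)
  have hfg' : hom F a m * (g : F) = (f : F) := by
    have h1 : (f : F) / (g : F) = hom F a m := hfg
    rw [← h1, div_mul_cancel₀ _ hg0]
  obtain ⟨c, hc, hcm⟩ := chart_graded x hx i (g : F) g.2
  obtain ⟨d, hd, hdm⟩ := chart_graded x hx i (f : F) f.2
  have hc0 : c ≠ 0 := by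
    rintro rfl
    apply hg0
    rw [hc]
    simp [lau]
  obtain ⟨m₂, hm₂⟩ := Finsupp.support_nonempty_iff.2 hc0
  have hcm₂ : c m₂ ≠ 0 := Finsupp.mem_support_iff.1 hm₂
  obtain ⟨d', h1, h2⟩ := lau_mul (F := F) (Finsupp.single m a) c
  have hdd : d' = d := by
    apply lau_injective (F := F)
    rw [← h1, lau_single, ← hd, ← hfg', hc]
  have hval : d (m + m₂) = a * c m₂ := by
    rw [← hdd, h2, Finsupp.support_single_ne_zero _ ha, Finset.sum_singleton,
      Finsupp.single_eq_same, add_sub_cancel_left]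
  refine ⟨a * c m₂, c m₂, m + m₂, m₂, mul_ne_zero ha hcm₂, hcm₂, ?_, hcm m₂, ?_⟩
  · rw [← hval]
    exact hdm _
  · exact hom_mul _ _ _ _

theorem lau_clear (x : Fin (N + 1) → F)
    (hx : ∀ j, ∃ (a : K) (m : Fin r → ℤ), a ≠ 0 ∧ x j = hom F a m) (i : Fin (N + 1))
    [IsFractionRing (chart x i) F] (c : (Fin r → ℤ) →₀ K) :
    ∃ (a : K) (m : Fin r → ℤ), a ≠ 0 ∧ hom F a m ∈ chart x i ∧
      lau F c * hom F a m ∈ chart x i := by
  classical
  have hone : hom F (1 : K) (0 : Fin r → ℤ) = 1 := by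
    unfold hom
    simp
  induction c using Finsupp.induction_linear with
  | zero =>
    refine ⟨1, 0, one_ne_zero, ?_, ?_⟩
    · rw [hone]
      exact Subalgebra.one_mem _
    · have h0 : lau F (0 : (Fin r → ℤ) →₀ K) = 0 := by simp [lau]
      rw [h0, zero_mul]
      exact Subalgebra.zero_mem _
  | add f g ihf ihg =>
    obtain ⟨a, m, ha, h1, h2⟩ := ihf
    obtain ⟨b, n, hb, h3, h4⟩ := ihg
    refine ⟨a * b, m + n, mul_ne_zero ha hb, ?_, ?_⟩
    · rw [← hom_mul]
      exact Subalgebra.mul_mem _ h1 h3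
    · have he : lau F (f + g) * hom F (a * b) (m + n)
          = lau F f * hom F a m * hom F b n + lau F g * hom F b n * hom F a m := by
        rw [← hom_mul, lau_add]
        ring
      rw [he]
      exact Subalgebra.add_mem _ (Subalgebra.mul_mem _ h2 h3) (Subalgebra.mul_mem _ h4 h1)
  | single m a =>
    by_cases ha : a = 0
    · refine ⟨1, 0, one_ne_zero, ?_, ?_⟩
      · rw [hone]
        exact Subalgebra.one_mem _
      · rw [lau_single, ha, hom_zero_left, zero_mul]
        exact Subalgebra.zero_mem _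
    · obtain ⟨a₁, a₂, m₁, m₂, _, h2, h3, h4, h5⟩ := hom_quot x hx i a ha m
      refine ⟨a₂, m₂, h2, h4, ?_⟩
      rw [lau_single, h5]
      exact h3

end WNV
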