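import Pool.Agent.WNV.VAL
import Pool.Agent.WNV.EXT

/-!
KRL. Let `A ⊂ F` be a Noetherian integrally closed subalgebra with fraction field `F`, `P` a prime
ideal of `A`, and `f ∈ F` not in the local ring `A_P`. Then some prime divisor of `Spec A` passing
through `P` has `E f < 0`.

PROOF. Let `B = A_P = {a / s : a ∈ A, s ∉ P}` (`Localization.AtPrime P`, or
`Localization.subalgebra.ofField F P.primeCompl _`, a subalgebra of `F`); `B` is a Noetherian
(`IsLocalization.isNoetherianRing`) integrally closed (`IsIntegrallyClosed` of a localization: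
`isIntegrallyClosed_of_isLocalization` / `IsLocalization.isIntegrallyClosed`) domain with fraction
field `F`, and `f ∉ B` by hypothesis. In the `B`-module `F / B` the class of `f` is nonzero; by
`exists_le_isAssociatedPrime_of_isNoetherianRing` there is an associated prime `𝔮` of `F / B`
containing the annihilator `(B : f)`; `𝔮 = (B : g)` for some `g ∈ F \ B`.
Let `C = B_𝔮`, `m` its maximal ideal. `g ∉ C` (if `s g ∈ B` with `s ∉ 𝔮` contradiction) and in the
same way `f ∉ C` (if `s f ∈ B` then `s ∈ (B : f) ⊂ 𝔮`). `m g ⊂ C`. If `m g ⊂ m` then `g` is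
integral over `C` (`m` is a nonzero finitely generated faithful module,
`isIntegral_of_smul_mem_submodule`; `m ≠ 0` as `C ≠ F` because `g ∉ C`), so `g ∈ C` as `C` is
integrally closed: contradiction. So `m g = C`, `m = C g⁻¹` is principal, and `C` is a discrete
valuation ring (`IsLocalRing`, Noetherian domain, not a field, principal maximal ideal:
`IsDiscreteValuationRing.TFAE` / `tfae_of_isNoetherianRing_of_isLocalRing_of_isDomain`).
Let `E f' = n` if `f' = u π^n` with `u` a unit of `C`, `π` a uniformizer (every nonzero `f'` in `F`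
is of this form; or use `exists_ext` (EXT) with `g = addVal`). `E` is trivial on `ℂ` (nonzero
constants are units of `C`), normalised (`E π = 1`).
* `E ≥ 0` on `A ⊂ C`;
* if `E f' ≥ 0` then `f' ∈ C = B_𝔮`, so `f' = b / s`, `b, s ∈ B`, `s ∉ 𝔮`, `b = a / t`, `s = a' / t'`
  with `t, t' ∉ P`, so `f' = (a t') / (a' t)` where `t` is a unit in `B`, `a'` is not in `𝔮`, so
  `a' t` is a unit of `C` and has value `0`;
* `a ∈ A \ P` is a unit of `B`, so of `C`, and `E a = 0`;
* `f ∉ C` so `E f < 0`.
-/

namespace WNV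

/-- the valuation of a discrete valuation ring -/
private theorem krl_dval {C F : Type} [CommRing C] [IsDomain C] [IsDiscreteValuationRing C]
    [Field F] [Algebra ℂ F] [Algebra ℂ C] [Algebra C F] [IsScalarTower ℂ C F]
    [IsFractionRing C F] :
    ∃ E : DVal F, (∀ c : C, c ≠ 0 → 0 ≤ E (algebraMap C F c)) ∧
      (∀ c : C, IsUnit c → E (algebraMap C F c) = 0) ∧
      (∀ f : F, f ≠ 0 → 0 ≤ E f → ∃ c : C, algebraMap C F c = f) := by
  classical
  have htop : ∀ a : C, a ≠ 0 → IsDiscreteValuationRing.addVal C a ≠ ⊤ := by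
    intro a ha h
    exact ha (IsDiscreteValuationRing.addVal_eq_top_iff.1 h)
  let g : C → ℤ := fun a => ((IsDiscreteValuationRing.addVal C a).toNat : ℤ)
  have hunit : ∀ c : C, IsUnit c → g c = 0 := by
    intro c hc
    show ((IsDiscreteValuationRing.addVal C c).toNat : ℤ) = 0
    rw [IsDiscreteValuationRing.addVal_eq_zero_iff.2 hc]
    rfl
  obtain ⟨E, hE⟩ := exists_ext (R := C) (F := F) g
    (by
      intro a b ha hb
      show ((IsDiscreteValuationRing.addVal C (a * b)).toNat : ℤ) = _
      rw [IsDiscreteValuationRing.addVal_mul, ENat.toNat_add (htop a ha) (htop b hb)]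
      push_cast
      rfl)
    (by
      intro a b ha hb hab
      have h1 := IsDiscreteValuationRing.addVal_add (a := a) (b := b)
      have h2 : ((IsDiscreteValuationRing.addVal C a).toNat : ℕ∞)
          = IsDiscreteValuationRing.addVal C a := ENat.natCast_toNat (htop a ha)
      have h3 : ((IsDiscreteValuationRing.addVal C b).toNat : ℕ∞)
          = IsDiscreteValuationRing.addVal C b := ENat.natCast_toNat (htop b hb)
      have h4 : ((IsDiscreteValuationRing.addVal C (a + b)).toNat : ℕ∞)
          = IsDiscreteValuationRing.addVal C (a + b) := ENat.natCast_toNat (htop _ hab)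
      rw [← h2, ← h3, ← h4, min_le_iff] at h1
      show min ((IsDiscreteValuationRing.addVal C a).toNat : ℤ)
        ((IsDiscreteValuationRing.addVal C b).toNat : ℤ)
          ≤ ((IsDiscreteValuationRing.addVal C (a + b)).toNat : ℤ)
      rw [min_le_iff]
      rcases h1 with h1 | h1
      · left
        exact_mod_cast h1
      · right
        exact_mod_cast h1)
    (by
      intro c hc
      exact hunit _ ((isUnit_iff_ne_zero.2 hc).map (algebraMap ℂ C)))
  have hinj : Function.Injective (algebraMap C F) := IsFractionRing.injective C F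
  have hnn : ∀ c : C, 0 ≤ g c := fun c => Int.natCast_nonneg _
  obtain ⟨π, hπ⟩ := IsDiscreteValuationRing.exists_irreducible C
  refine ⟨⟨E, ⟨algebraMap C F π, ?_⟩⟩, ?_, ?_, ?_⟩
  · have h1 : E (algebraMap C F π) = g π := hE π hπ.ne_zero
    rw [h1]
    show ((IsDiscreteValuationRing.addVal C π).toNat : ℤ) = 1
    rw [IsDiscreteValuationRing.addVal_uniformizer hπ]
    rfl
  · intro c hc
    show 0 ≤ E (algebraMap C F c)
    rw [hE c hc]
    exact hnn c
  · intro c hc
    show E (algebraMap C F c) = 0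
    rw [hE c hc.ne_zero]
    exact hunit c hc
  · intro f hf h
    have h' : 0 ≤ E f := h
    obtain ⟨a, b, hb, rfl⟩ := IsFractionRing.div_surjective (A := C) f
    have hb0 : b ≠ 0 := nonZeroDivisors.ne_zero hb
    have ha0 : a ≠ 0 := by
      rintro rfl
      apply hf
      rw [map_zero, zero_div]
    have hfa : algebraMap C F a ≠ 0 := (map_ne_zero_iff _ hinj).2 ha0
    have hfb : algebraMap C F b ≠ 0 := (map_ne_zero_iff _ hinj).2 hb0
    rw [E.div hfa hfb, hE a ha0, hE b hb0] at h'
    have h1 : (IsDiscreteValuationRing.addVal C b).toNat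
        ≤ (IsDiscreteValuationRing.addVal C a).toNat := by
      have h2 : ((IsDiscreteValuationRing.addVal C b).toNat : ℤ)
          ≤ ((IsDiscreteValuationRing.addVal C a).toNat : ℤ) := by
        have h3 : (0 : ℤ) ≤ ((IsDiscreteValuationRing.addVal C a).toNat : ℤ)
          - ((IsDiscreteValuationRing.addVal C b).toNat : ℤ) := h'
        linarith
      exact_mod_cast h2
    have h2 : IsDiscreteValuationRing.addVal C b ≤ IsDiscreteValuationRing.addVal C a := by
      rw [← ENat.natCast_toNat (htop a ha0), ← ENat.natCast_toNat (htop b hb0)]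
      exact_mod_cast h1
    obtain ⟨c, hc⟩ := IsDiscreteValuationRing.addVal_le_iff_dvd.1 h2
    refine ⟨c, ?_⟩
    rw [hc, map_mul, mul_div_cancel_left₀ _ hfb]

theorem krull {F : Type} [Field F] [Algebra ℂ F] (A : Subalgebra ℂ F) [IsNoetherianRing A]
    [IsIntegrallyClosed A] [IsFractionRing A F] (P : Ideal A) (hP : P.IsPrime) (f : F)
    (hf0 : f ≠ 0) (hf : ∀ a b : A, b ∉ P → f ≠ (a : F) / b) :
    ∃ E : DVal F, IsPrimeOf A E ∧ (∀ a : A, a ∉ P → E (a : F) = 0) ∧ E f < 0 := by
  classical
  have := hP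
  have hPle : P.primeCompl ≤ nonZeroDivisors A := Ideal.primeCompl_le_nonZeroDivisors P
  let N : Submodule A F :=
    Subalgebra.toSubmodule (Localization.subalgebra.ofField F P.primeCompl hPle)
  have hN : ∀ x : F, x ∈ N ↔ ∃ a s : A, s ∉ P ∧ x = (a : F) * (s : F)⁻¹ := by
    intro x
    constructor
    · rintro ⟨a, s, hs, h⟩
      exact ⟨a, s, hs, h⟩
    · rintro ⟨a, s, hs, h⟩
      exact ⟨a, s, hs, h⟩
  have hfN : f ∉ N := by
    intro h
    obtain ⟨a, s, hs, h⟩ := (hN f).1 h
    apply hf a s hs
    rw [h, div_eq_mul_inv]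
  have hfb : (Submodule.Quotient.mk f : F ⧸ N) ≠ 0 := by
    rwa [Ne, Submodule.Quotient.mk_eq_zero]
  obtain ⟨Q, hQ, hle⟩ := exists_le_isAssociatedPrime_of_isNoetherianRing A
    (Submodule.Quotient.mk f : F ⧸ N) hfb
  rw [isAssociatedPrime_iff] at hQ
  obtain ⟨hQp, y, hy⟩ := hQ
  have := hQp
  obtain ⟨g, rfl⟩ := Submodule.Quotient.mk_surjective N y
  have hQg : ∀ a : A, a ∈ Q ↔ (a : F) * g ∈ N := by
    intro a
    rw [hy, Submodule.mem_colon_singleton, Submodule.mem_bot, ← Submodule.Quotient.mk_smul,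
      Submodule.Quotient.mk_eq_zero]
    rfl
  have hQf : ∀ a : A, (a : F) * f ∈ N → a ∈ Q := by
    intro a ha
    apply hle
    rw [Submodule.mem_colon_singleton, Submodule.mem_bot, ← Submodule.Quotient.mk_smul,
      Submodule.Quotient.mk_eq_zero]
    exact ha
  have hQP : ∀ s : A, s ∉ P → s ∉ Q := by
    intro s hs hsQ
    have hs0 : (s : F) ≠ 0 := by
      intro h
      apply hs
      have : s = 0 := Subtype.ext h
      rw [this]
      exact P.zero_mem
    obtain ⟨a, t, ht, h⟩ := (hN _).1 ((hQg s).1 hsQ)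
    have hg : g ∈ N := by
      rw [hN]
      refine ⟨a, s * t, ?_, ?_⟩
      · intro hst
        rcases hP.mem_or_mem hst with h1 | h1
        · exact hs h1
        · exact ht h1
      · have h2 : g = (a : F) * (t : F)⁻¹ * (s : F)⁻¹ := by
          rw [← h]
          field_simp
        rw [h2]
        push_cast
        rw [mul_inv]
        ring
    have h1 : (1 : A) ∈ Q := by
      rw [hQg]
      simpa using hg
    exact hQp.ne_top ((Ideal.eq_top_iff_one Q).2 h1)
  have hQle : Q.primeCompl ≤ nonZeroDivisors A := Ideal.primeCompl_le_nonZeroDivisors Q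
  let C : Subalgebra A F := Localization.subalgebra.ofField F Q.primeCompl hQle
  have hC : ∀ x : F, x ∈ C ↔ ∃ a s : A, s ∉ Q ∧ x = (a : F) * (s : F)⁻¹ := by
    intro x
    constructor
    · rintro ⟨a, s, hs, h⟩
      exact ⟨a, s, hs, h⟩
    · rintro ⟨a, s, hs, h⟩
      exact ⟨a, s, hs, h⟩
  have hne : ∀ s : A, s ∉ Q → (s : F) ≠ 0 := by
    intro s hs h
    apply hs
    have : s = 0 := Subtype.ext h
    rw [this]
    exact Q.zero_mem
  have hNC : ∀ x : F, x ∈ N → x ∈ C := by
    intro x hx
    obtain ⟨a, s, hs, h⟩ := (hN x).1 hx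
    exact (hC x).2 ⟨a, s, hQP s hs, h⟩
  have hAC : ∀ a : A, (a : F) ∈ C := fun a => (hC _).2 ⟨a, 1, fun h => hQp.ne_top
    ((Ideal.eq_top_iff_one Q).2 h), by simp⟩
  have hsC : ∀ s : A, s ∉ Q → (s : F)⁻¹ ∈ C := fun s hs => (hC _).2 ⟨1, s, hs, by simp⟩
  have hgC : g ∉ C := by
    intro h
    obtain ⟨a, s, hs, h⟩ := (hC g).1 h
    apply hs
    rw [hQg, h, mul_comm (a : F), ← mul_assoc, mul_inv_cancel₀ (hne s hs), one_mul, hN]
    exact ⟨a, 1, fun h => hP.ne_top ((Ideal.eq_top_iff_one P).2 h), by simp⟩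
  have hfC : f ∉ C := by
    intro h
    obtain ⟨a, s, hs, h⟩ := (hC f).1 h
    apply hs
    apply hQf
    rw [h, mul_comm (a : F), ← mul_assoc, mul_inv_cancel₀ (hne s hs), one_mul, hN]
    exact ⟨a, 1, fun h => hP.ne_top ((Ideal.eq_top_iff_one P).2 h), by simp⟩
  have hloc : IsLocalization.AtPrime C Q :=
    Localization.subalgebra.isLocalization_ofField F Q.primeCompl hQle
  have : IsLocalRing C := IsLocalization.AtPrime.isLocalRing C Q
  have : IsNoetherianRing C := IsLocalization.isNoetherianRing Q.primeCompl C inferInstance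
  have : IsIntegrallyClosed C := isIntegrallyClosed_of_isLocalization C Q.primeCompl hQle
  have : IsFractionRing C F := inferInstance
  -- multiplication by `g` maps the maximal ideal into `C`
  have hmg : ∀ c : C, c ∈ IsLocalRing.maximalIdeal C → (c : F) * g ∈ C := by
    intro c hc
    obtain ⟨a, s, hs, h⟩ := (hC c).1 c.2
    have haQ : a ∈ Q := by
      by_contra ha
      apply (IsLocalRing.mem_maximalIdeal c).1 hc
      refine IsUnit.of_mul_eq_one (⟨(s : F) * (a : F)⁻¹, (hC _).2 ⟨s, a, ha, rfl⟩⟩ : C) ?_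
      apply Subtype.ext
      show (c : F) * ((s : F) * (a : F)⁻¹) = 1
      rw [h]
      have h1 := hne s hs
      have h2 := hne a ha
      field_simp
    have h1 : (a : F) * g ∈ C := hNC _ ((hQg a).1 haQ)
    have h2 : (c : F) * g = (a : F) * g * (s : F)⁻¹ := by
      rw [h]
      ring
    rw [h2]
    exact C.mul_mem h1 (hsC s hs)
  have hbot : IsLocalRing.maximalIdeal C ≠ ⊥ := by
    intro hb
    have hfield : IsField C := IsLocalRing.isField_iff_maximalIdeal_eq.2 hb
    obtain ⟨a, b, hb0, h⟩ := IsFractionRing.div_surjective (A := C) g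
    have hb1 : b ≠ 0 := nonZeroDivisors.ne_zero hb0
    obtain ⟨b', hb'⟩ := hfield.mul_inv_cancel hb1
    apply hgC
    have h1 : (b : F) ≠ 0 := fun h => hb1 (Subtype.ext h)
    have h2 : (b : F) * (b' : F) = 1 := by
      have := congrArg (fun c : C => (c : F)) hb'
      simpa using this
    have h3 : g = ((a * b' : C) : F) := by
      rw [← h]
      show (a : F) / (b : F) = (a : F) * (b' : F)
      rw [div_eq_iff h1, mul_assoc, mul_comm (b' : F), h2, mul_one]
    rw [h3]
    exact (a * b').2
  -- some element of the maximal ideal is mapped to a unit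
  obtain ⟨c₀, hc₀, hc₀u⟩ : ∃ c : C, ∃ hc : c ∈ IsLocalRing.maximalIdeal C,
      IsUnit (⟨(c : F) * g, hmg c hc⟩ : C) := by
    by_contra hcon
    push Not at hcon
    have hint : IsIntegral C g := by
      refine isIntegral_of_smul_mem_submodule (M := F)
        (Submodule.map (Algebra.linearMap C F) (IsLocalRing.maximalIdeal C)) ?_ ?_ g ?_
      · intro h
        apply hbot
        rw [Submodule.eq_bot_iff]
        intro c hc
        have h1 : Algebra.linearMap C F c
            ∈ Submodule.map (Algebra.linearMap C F) (IsLocalRing.maximalIdeal C) :=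
          Submodule.mem_map_of_mem hc
        rw [h, Submodule.mem_bot] at h1
        exact Subtype.ext h1
      · exact Submodule.FG.map _ (IsNoetherian.noetherian _)
      · rintro _ ⟨c, hc, rfl⟩
        refine ⟨⟨(c : F) * g, hmg c hc⟩, ?_, ?_⟩
        · exact (IsLocalRing.mem_maximalIdeal _).2 (hcon c hc)
        · show (c : F) * g = g • (c : F)
          rw [smul_eq_mul, mul_comm]
    obtain ⟨y, hy⟩ := IsIntegrallyClosed.isIntegral_iff.1 hint
    apply hgC
    rw [← hy]
    exact y.2
  have hprin : (IsLocalRing.maximalIdeal C).IsPrincipal := by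
    obtain ⟨u', hu'⟩ := hc₀u.exists_right_inv
    have hu2 : (c₀ : F) * g * (u' : F) = 1 := by
      have := congrArg (fun c : C => (c : F)) hu'
      simpa using this
    refine ⟨c₀, le_antisymm ?_ ?_⟩
    · intro c hc
      rw [Ideal.submodule_span_eq, Ideal.mem_span_singleton]
      refine ⟨(⟨(c : F) * g, hmg c hc⟩ : C) * u', ?_⟩
      apply Subtype.ext
      show (c : F) = (c₀ : F) * ((c : F) * g * (u' : F))
      calc (c : F) = (c : F) * ((c₀ : F) * g * (u' : F)) := by rw [hu2, mul_one]
        _ = (c₀ : F) * ((c : F) * g * (u' : F)) := by ring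
    · rw [Ideal.submodule_span_eq, Ideal.span_singleton_le_iff_mem]
      exact hc₀
  have : IsPrincipalIdealRing C :=
    ((tfae_of_isNoetherianRing_of_isLocalRing_of_isDomain C).out 4 0).1 hprin
  have : IsDiscreteValuationRing C := { not_a_field' := hbot }
  obtain ⟨E, h1, h2, h3⟩ := krl_dval (C := C) (F := F)
  have hunit : ∀ s : A, s ∉ Q → E (s : F) = 0 := by
    intro s hs
    refine h2 (⟨(s : F), hAC s⟩ : C) (IsUnit.of_mul_eq_one (⟨(s : F)⁻¹, hsC s hs⟩ : C) ?_)
    apply Subtype.ext
    exact mul_inv_cancel₀ (hne s hs)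
  refine ⟨E, ⟨?_, ?_⟩, fun a ha => hunit a (hQP a ha), ?_⟩
  · intro a ha ha0
    refine h1 (⟨a, hAC ⟨a, ha⟩⟩ : C) ?_
    intro h
    apply ha0
    exact congrArg (fun c : C => (c : F)) h
  · intro x hx0 hx
    obtain ⟨c, hc⟩ := h3 x hx0 hx
    obtain ⟨a, s, hs, h⟩ := (hC c).1 c.2
    refine ⟨a, a.2, s, s.2, hne s hs, hunit s hs, ?_⟩
    rw [← hc]
    show (c : F) = _
    rw [h, div_eq_mul_inv]
  · by_contra hlt
    push Not at hlt
    obtain ⟨c, hc⟩ := h3 f hf0 hlt
    apply hfC
    rw [← hc]
    exact c.2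

end WNV
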