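import Pool.Agent.WNV.GVL

/-!
LAU. Laurent polynomials `K[t_1^±,…,t_r^±] = AddMonoidAlgebra K (Fin r → ℤ)` inside `F`.

PROOFS. `lau` is the linear map `c ↦ Σ_m hom (c m) m`.
* `lau_mul`: both sides are bilinear; on singles it is `hom_mul`
  (`AddMonoidAlgebra.single_mul_single`). Use `AddMonoidAlgebra.induction_linear` or
  `Finsupp.induction_linear` twice.
* `exists_poly`: choose `M_i` with `0 ≤ M_i + m_i` for all `m` in the support of `c`; the
  polynomial `p = Σ_{m ∈ supp c} monomial (M + m) (c m)` works (`algebraMap_monomial`, `hom_mul`).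
* `lau_injective`: if `lau c = 0`, take `M`, `p` from `exists_poly`; `algebraMap p = 0`, hence
  `p = 0`, hence all `c m = p.coeff (M + m) = 0`. (Additivity reduces injectivity to this.)
* `lau_of_poly`: take `c = Σ_{s ∈ supp p} single s (p.coeff s)` (exponents cast to `ℤ`).
-/

set_option linter.unusedSectionVars false

namespace WNV

variable {r : ℕ} {K F : Type} [Field K] [Algebra ℂ K] [Field F] [Algebra ℂ F]
    [Algebra K F] [IsScalarTower ℂ K F]
    [Algebra (MvPolynomial (Fin r) K) F] [IsScalarTower K (MvPolynomial (Fin r) K) F]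
    [IsFractionRing (MvPolynomial (Fin r) K) F]

variable (F) in
/-- The Laurent polynomial `Σ c_m t^m` as an element of `F`. -/
noncomputable def lau (c : (Fin r → ℤ) →₀ K) : F := c.sum fun m a => hom F a m

theorem hom_zero_left (m : Fin r → ℤ) : hom F (0 : K) m = 0 := by
  unfold hom
  rw [map_zero, zero_mul]

theorem hom_add_left (a b : K) (m : Fin r → ℤ) :
    hom F (a + b) m = hom F a m + hom F b m := by
  unfold hom
  rw [map_add, add_mul]

theorem lau_single (m : Fin r → ℤ) (a : K) : lau F (Finsupp.single m a) = hom F a m := by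
  unfold lau
  rw [Finsupp.sum_single_index (hom_zero_left m)]

theorem lau_add (c c' : (Fin r → ℤ) →₀ K) : lau F (c + c') = lau F c + lau F c' := by
  unfold lau
  exact Finsupp.sum_add_index' (fun m => hom_zero_left m) (fun m a b => hom_add_left a b m)

variable (r K F) in
/-- `lau` as an additive homomorphism. -/
private noncomputable def lauHom : ((Fin r → ℤ) →₀ K) →+ F where
  toFun := lau F
  map_zero' := by simp [lau]
  map_add' := lau_add

private lemma lauHom_apply (c : (Fin r → ℤ) →₀ K) : lauHom r K F c = lau F c := rfl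

private lemma lau_sum {ι : Type*} (s : Finset ι) (f : ι → (Fin r → ℤ) →₀ K) :
    lau F (∑ i ∈ s, f i) = ∑ i ∈ s, lau F (f i) := by
  have := map_sum (lauHom r K F) f s
  simpa only [lauHom_apply] using this

/-- The product of two Laurent polynomials. -/
theorem lau_mul (c c' : (Fin r → ℤ) →₀ K) :
    ∃ d : (Fin r → ℤ) →₀ K, lau F c * lau F c' = lau F d ∧
      ∀ m, d m = ∑ m₁ ∈ c.support, c m₁ * c' (m - m₁) := by
  classical
  refine ⟨∑ m₁ ∈ c.support, ∑ m₂ ∈ c'.support, Finsupp.single (m₁ + m₂) (c m₁ * c' m₂), ?_, ?_⟩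
  · rw [lau_sum]
    simp only [lau_sum, lau_single]
    unfold lau Finsupp.sum
    rw [Finset.sum_mul_sum]
    refine Finset.sum_congr rfl fun m₁ _ => Finset.sum_congr rfl fun m₂ _ => ?_
    exact hom_mul _ _ _ _
  · intro m
    rw [Finsupp.finsetSum_apply]
    refine Finset.sum_congr rfl fun m₁ _ => ?_
    rw [Finsupp.finsetSum_apply]
    by_cases hm : m - m₁ ∈ c'.support
    · rw [Finset.sum_eq_single (m - m₁)]
      · rw [show m₁ + (m - m₁) = m by abel, Finsupp.single_eq_same]
      · intro m₂ _ hne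
        rw [Finsupp.single_eq_of_ne]
        intro h
        apply hne
        rw [h]; abel
      · intro h
        exact absurd hm h
    · rw [Finsupp.notMem_support_iff.1 hm, mul_zero]
      refine Finset.sum_eq_zero fun m₂ hm₂ => ?_
      rw [Finsupp.single_eq_of_ne]
      intro h
      apply hm
      have h2 : m - m₁ = m₂ := by rw [h]; abel
      rw [h2]
      exact hm₂

private lemma coeff_aux {ι : Type*} [DecidableEq ι] (S : Finset ι) (f : ι → K)
    (σ : ι → (Fin r →₀ ℕ)) (hσ : ∀ a ∈ S, ∀ b ∈ S, σ a = σ b → a = b) (a : ι) (ha : a ∈ S) :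
    (∑ m ∈ S, MvPolynomial.monomial (σ m) (f m)).coeff (σ a) = f a := by
  classical
  rw [MvPolynomial.coeff_sum, Finset.sum_eq_single a]
  · rw [MvPolynomial.coeff_monomial, if_pos rfl]
  · intro b hb hne
    rw [MvPolynomial.coeff_monomial, if_neg]
    intro h
    exact hne (hσ b hb a ha h)
  · intro h
    exact absurd ha h

private lemma support_aux {ι : Type*} (S : Finset ι) (f : ι → K)
    (σ : ι → (Fin r →₀ ℕ)) (s : Fin r →₀ ℕ)
    (hs : s ∈ (∑ m ∈ S, MvPolynomial.monomial (σ m) (f m)).support) :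
    ∃ a ∈ S, σ a = s := by
  classical
  rw [MvPolynomial.mem_support_iff, MvPolynomial.coeff_sum] at hs
  obtain ⟨a, ha, h⟩ := Finset.exists_ne_zero_of_sum_ne_zero hs
  refine ⟨a, ha, ?_⟩
  by_contra hne
  apply h
  rw [MvPolynomial.coeff_monomial, if_neg hne]

theorem exists_poly (c : (Fin r → ℤ) →₀ K) :
    ∃ (M : Fin r → ℕ) (p : MvPolynomial (Fin r) K),
      lau F c * hom F (1 : K) (fun i => (M i : ℤ)) = algebraMap _ F p ∧
      (c ≠ 0 → p ≠ 0) ∧ (∀ s ∈ p.support, ∃ m ∈ c.support, c m = p.coeff s ∧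
        ∀ i, (s i : ℤ) = m i + M i) ∧
      ∀ m ∈ c.support, ∃ s ∈ p.support, c m = p.coeff s ∧ ∀ i, (s i : ℤ) = m i + M i := by
  classical
  obtain ⟨M, hM⟩ : ∃ M : Fin r → ℕ, ∀ m ∈ c.support, ∀ i, 0 ≤ m i + (M i : ℤ) := by
    refine ⟨fun i => ∑ m ∈ c.support, (m i).natAbs, fun m hm i => ?_⟩
    have h1 : (m i).natAbs ≤ ∑ m ∈ c.support, (m i).natAbs :=
      Finset.single_le_sum (f := fun m : Fin r → ℤ => (m i).natAbs) (fun _ _ => Nat.zero_le _) hm
    have h2 : ((m i).natAbs : ℤ) ≤ ((∑ m ∈ c.support, (m i).natAbs : ℕ) : ℤ) := by exact_mod_cast h1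
    have h3 := neg_abs_le (m i)
    rw [Int.abs_eq_natAbs] at h3
    show 0 ≤ m i + ((∑ m ∈ c.support, (m i).natAbs : ℕ) : ℤ)
    linarith
  obtain ⟨σ, hσdef⟩ : ∃ σ : (Fin r → ℤ) → (Fin r →₀ ℕ),
      σ = fun m => Finsupp.equivFunOnFinite.symm fun i => (m i + (M i : ℤ)).toNat := ⟨_, rfl⟩
  have hσ : ∀ m ∈ c.support, ∀ i, ((σ m) i : ℤ) = m i + M i := by
    intro m hm i
    rw [hσdef]
    exact Int.toNat_of_nonneg (hM m hm i)
  have hinj : ∀ a ∈ c.support, ∀ b ∈ c.support, σ a = σ b → a = b := by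
    intro a ha b hb hab
    funext i
    have h1 := hσ a ha i
    have h2 := hσ b hb i
    rw [hab] at h1
    linarith
  obtain ⟨p, hp⟩ : ∃ p : MvPolynomial (Fin r) K,
      p = ∑ m ∈ c.support, MvPolynomial.monomial (σ m) (c m) := ⟨_, rfl⟩
  have hco : ∀ m ∈ c.support, p.coeff (σ m) = c m := by
    intro m hm
    rw [hp]
    exact coeff_aux c.support (fun m => c m) σ hinj m hm
  have hlast : ∀ m ∈ c.support, ∃ s ∈ p.support, c m = p.coeff s ∧ ∀ i, (s i : ℤ) = m i + M i := by
    intro m hm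
    refine ⟨σ m, ?_, (hco m hm).symm, hσ m hm⟩
    rw [MvPolynomial.mem_support_iff, hco m hm]
    exact Finsupp.mem_support_iff.1 hm
  refine ⟨M, p, ?_, ?_, ?_, hlast⟩
  · rw [hp, map_sum]
    unfold lau Finsupp.sum
    rw [Finset.sum_mul]
    refine Finset.sum_congr rfl fun m hm => ?_
    rw [hom_mul, mul_one, algebraMap_monomial]
    congr 1
    funext i
    rw [Pi.add_apply, hσ m hm i]
  · intro hc hp0
    obtain ⟨m, hm⟩ := Finsupp.support_nonempty_iff.2 hc
    obtain ⟨s, hs, -⟩ := hlast m hm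
    rw [hp0] at hs
    simp at hs
  · intro s hs
    obtain ⟨m, hm, hms⟩ : ∃ a ∈ c.support, σ a = s := by
      apply support_aux c.support (fun m => c m) σ s
      rw [← hp]; exact hs
    exact ⟨m, hm, by rw [← hms, hco m hm], fun i => by rw [← hms]; exact hσ m hm i⟩

theorem lau_injective : Function.Injective (lau (r := r) (K := K) F) := by
  have h : Function.Injective (lauHom r K F) := by
    rw [injective_iff_map_eq_zero]
    intro c hc
    by_contra hne
    obtain ⟨M, p, h1, h2, -, -⟩ := exists_poly (F := F) c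
    rw [← lauHom_apply, hc, zero_mul] at h1
    apply h2 hne
    apply IsFractionRing.injective (MvPolynomial (Fin r) K) F
    rw [← h1, map_zero]
  exact h

theorem lau_of_poly (p : MvPolynomial (Fin r) K) :
    ∃ c : (Fin r → ℤ) →₀ K, algebraMap _ F p = lau F c ∧
      (∀ m ∈ c.support, ∃ s ∈ p.support, c m = p.coeff s ∧ ∀ i, (s i : ℤ) = m i) ∧
      ∀ s ∈ p.support, c (fun i => (s i : ℤ)) = p.coeff s := by
  classical
  obtain ⟨c, hc⟩ : ∃ c : (Fin r → ℤ) →₀ K,
      c = ∑ s ∈ p.support, Finsupp.single (fun i => (s i : ℤ)) (p.coeff s) := ⟨_, rfl⟩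
  have hco : ∀ s ∈ p.support, c (fun i => (s i : ℤ)) = p.coeff s := by
    intro s hs
    rw [hc, Finsupp.finsetSum_apply, Finset.sum_eq_single s]
    · rw [Finsupp.single_eq_same]
    · intro t _ hne
      rw [Finsupp.single_eq_of_ne]
      intro h
      apply hne
      ext i
      have := congrFun h i
      exact_mod_cast this.symm
    · intro h
      exact absurd hs h
  refine ⟨c, ?_, ?_, hco⟩
  · rw [hc, lau_sum]
    simp only [lau_single]
    conv_lhs => rw [p.as_sum, map_sum]
    exact Finset.sum_congr rfl fun s _ => algebraMap_monomial s _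
  · intro m hm
    have hm' : c m ≠ 0 := Finsupp.mem_support_iff.1 hm
    rw [hc, Finsupp.finsetSum_apply] at hm'
    obtain ⟨s, hs, h⟩ := Finset.exists_ne_zero_of_sum_ne_zero hm'
    have hsm : (fun i => (s i : ℤ)) = m := by
      by_contra hne
      apply h
      rw [Finsupp.single_eq_of_ne]
      intro h'
      exact hne h'.symm
    refine ⟨s, hs, ?_, fun i => congrFun hsm i⟩
    rw [← hsm]
    exact hco s hs

/-- The value of a Gauss valuation on a Laurent polynomial. PROOF: `exists_poly`, `gauss_hom`. -/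
theorem gauss_lau {G : QVal F} {w : QVal K} {v : Fin r → ℤ} (h : IsGauss (F := F) G w v)
    (c : (Fin r → ℤ) →₀ K) (hc : c ≠ 0) :
    (∀ m ∈ c.support, G (lau F c) ≤ w (c m) + ∑ i, m i * v i) ∧
    ∃ m ∈ c.support, G (lau F c) = w (c m) + ∑ i, m i * v i := by
  obtain ⟨M, p, h1, h2, h3, h4⟩ := exists_poly (F := F) c
  have hp := h2 hc
  have hl : lau F c ≠ 0 := by
    intro h0
    apply hc
    apply lau_injective (F := F)
    rw [h0]
    simp [lau]
  have hval : G (lau F c) + ∑ i, (M i : ℤ) * v i = G (algebraMap _ F p) := by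
    rw [← h1, G.mul hl (hom_ne_zero one_ne_zero _), gauss_hom h one_ne_zero, w.one, zero_add]
  have hsum : ∀ (m : Fin r → ℤ) (s : Fin r →₀ ℕ), (∀ i, (s i : ℤ) = m i + M i) →
      ∑ i, (s i : ℤ) * v i = ∑ i, m i * v i + ∑ i, (M i : ℤ) * v i := by
    intro m s hs
    rw [← Finset.sum_add_distrib]
    refine Finset.sum_congr rfl fun i _ => ?_
    rw [hs i]; ring
  obtain ⟨g1, g2⟩ := h p hp
  constructor
  · intro m hm
    obtain ⟨s, hs, hcs, hsi⟩ := h4 m hm
    have := g1 s hs
    rw [hsum m s hsi, ← hcs, ← hval] at this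
    linarith
  · obtain ⟨s, hs, hgs⟩ := g2
    obtain ⟨m, hm, hcs, hsi⟩ := h3 s hs
    refine ⟨m, hm, ?_⟩
    rw [hsum m s hsi, ← hcs, ← hval] at hgs
    linarith

/-- Every element of `F` is a quotient of two polynomials. -/
theorem exists_div (f : F) (hf : f ≠ 0) :
    ∃ p q : MvPolynomial (Fin r) K, p ≠ 0 ∧ q ≠ 0 ∧ f = algebraMap _ F p / algebraMap _ F q := by
  obtain ⟨p, q, hq, h⟩ := IsFractionRing.div_surjective (A := MvPolynomial (Fin r) K) f
  refine ⟨p, q, ?_, nonZeroDivisors.ne_zero hq, h.symm⟩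
  rintro rfl
  apply hf
  rw [← h, map_zero, zero_div]

end WNV
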